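import Pool.Agent.V11001.KM.Near

/-! Thin families of integers near the powers of almost every real number (counts `M X ^ s`). -/

set_option autoImplicit false

open Filter MeasureTheory

namespace Pool.Agent.V11265.NN

open Pool.Agent.V11001.KM

lemma up {M s ε X : ℝ} (hε : 0 < ε) (hX : 1 ≤ X) : M * X ^ s ≤ |M| * X ^ (s + ε) := by
  calc M * X ^ s ≤ |M| * X ^ s := mul_le_mul_of_nonneg_right (le_abs_self M) (Real.rpow_nonneg (by linarith) _)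
    _ ≤ |M| * X ^ (s + ε) :=
      mul_le_mul_of_nonneg_left (Real.rpow_le_rpow_of_exponent_le hX (by linarith)) (abs_nonneg M)

theorem near_nat {ι : Type} [Countable ι] (S : ι → Set ℕ) {s : ℝ} (hs : 0 ≤ s)
    (hS : ∀ i, ∃ M : ℝ, ∀ X : ℝ, 1 ≤ X → ({t : ℕ | t ∈ S i ∧ (t : ℝ) ≤ X}.ncard : ℝ) ≤ M * X ^ s)
    {ν : ℕ → ℝ} (hν : Fast ν) {θ : ℝ} (hθ1 : θ < 1) (U : Set ℝ) (hU : U.Countable) :
    ∃ E : Set ℝ, dimH E ≤ ENNReal.ofReal (s / (1 - θ)) ∧ ∀ z : ℝ, 1 < z → z ∉ E → ∀ b ∈ U, 0 < b → ∀ i : ι,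
      ∃ t₀ : ℝ, ∀ t : ℕ, t₀ ≤ t → Near ν θ b z t → t ∉ S i := by
  obtain ⟨E, h1, h2⟩ := family_threshold (fun t : ℕ => (t : ℝ)) hν hs hθ1 U hU S (fun i ε hε => by
    obtain ⟨M, hM⟩ := hS i
    exact ⟨|M|, fun X hX => ⟨(Set.finite_Icc 0 ⌊X⌋₊).subset fun t ht => ⟨Nat.zero_le _, Nat.le_floor ht.2⟩,
      (hM X hX).trans (up hε hX)⟩⟩)
  refine ⟨E, h1, fun z hz hzE b hb hb0 i => ?_⟩
  obtain ⟨t₀, h3⟩ := h2 z hz hzE b hb hb0 i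
  exact ⟨t₀, fun t ht hn hS => absurd (h3 t hS hn) (not_lt.2 ht)⟩

theorem near_int {ι : Type} [Countable ι] (S : ι → Set ℤ) {s : ℝ} (hs : 0 ≤ s)
    (hS : ∀ i, ∃ M : ℝ, ∀ X : ℝ, 1 ≤ X → {D : ℤ | D ∈ S i ∧ |(D : ℝ)| ≤ X}.Finite ∧
      ({D : ℤ | D ∈ S i ∧ |(D : ℝ)| ≤ X}.ncard : ℝ) ≤ M * X ^ s)
    {ν : ℕ → ℝ} (hν : Fast ν) {θ : ℝ} (hθ1 : θ < 1) (U : Set ℝ) (hU : U.Countable) :
    ∃ E : Set ℝ, dimH E ≤ ENNReal.ofReal (s / (1 - θ)) ∧ ∀ z : ℝ, 1 < z → z ∉ E → ∀ b ∈ U, 0 < b → ∀ i : ι,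
      ∃ t₀ : ℝ, ∀ D : ℤ, t₀ ≤ |(D : ℝ)| → Near ν θ b z |(D : ℝ)| → D ∉ S i := by
  obtain ⟨E, h1, h2⟩ := family_threshold (fun D : ℤ => |(D : ℝ)|) hν hs hθ1 U hU S (fun i ε hε => by
    obtain ⟨M, hM⟩ := hS i
    exact ⟨|M|, fun X hX => ⟨(hM X hX).1, (hM X hX).2.trans (up hε hX)⟩⟩)
  refine ⟨E, h1, fun z hz hzE b hb hb0 i => ?_⟩
  obtain ⟨t₀, h3⟩ := h2 z hz hzE b hb hb0 i
  exact ⟨t₀, fun D hD hn hS => absurd (h3 D hS hn) (not_lt.2 hD)⟩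

end Pool.Agent.V11265.NN
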