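import Pool.Agent.V11001.KM.Near
import Pool.Agent.V11153.Shell

/-!
Integers near the powers of almost every number with small sums, from a sieve bound. The count is that of the hand-in
`MP_aa40d3_nt.ParametersNearPowers` (written there for scalar operators, by helper153), for any family of sums.
-/

set_option autoImplicit false

namespace Pool.Agent.V11265.NS

open Finset Filter
open Pool.Agent.V11001.KM (Fast Near)

lemma fin_int (P : ℤ → Prop) (X : ℝ) : {q : ℤ | P q ∧ |(q : ℝ)| ≤ X}.Finite := by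
  refine (Set.finite_Icc (-⌈X⌉) ⌈X⌉).subset fun q hq => ?_
  have h1 := abs_le.1 hq.2
  have h2 := Int.le_ceil X
  constructor
  · have : (-(⌈X⌉ : ℝ)) ≤ (q : ℝ) := by linarith [h1.1]
    exact_mod_cast this
  · have : (q : ℝ) ≤ (⌈X⌉ : ℝ) := by linarith [h1.2]
    exact_mod_cast this

/-- the integers `q ≠ 0` with a small sum `S q (|q| ^ ρ)` -/
def Few (S : ℤ → ℝ → ℝ) (c ρ K : ℝ) : Set ℤ :=
  {q : ℤ | q ≠ 0 ∧ S q (|(q : ℝ)| ^ ρ) ≤ c * Real.log |(q : ℝ)| + K}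

lemma one_le_abs {q : ℤ} (hq : q ≠ 0) : (1 : ℝ) ≤ |(q : ℝ)| := by
  have := Int.one_le_abs hq
  exact_mod_cast this

lemma Few.mono {S : ℤ → ℝ → ℝ} (hmono : ∀ q Y Z, Y ≤ Z → S q Y ≤ S q Z) {c ρ ρ' K K' : ℝ} (hρ : ρ' ≤ ρ)
    (hK : K ≤ K') : Few S c ρ K ⊆ Few S c ρ' K' := by
  rintro q ⟨h0, h1⟩
  have h2 := one_le_abs h0
  refine ⟨h0, (hmono q _ _ (Real.rpow_le_rpow_of_exponent_le h2 hρ)).trans (h1.trans ?_)⟩
  linarith

/-- the count of these integers -/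
lemma count (S : ℤ → ℝ → ℝ) (hmono : ∀ q Y Z, Y ≤ Z → S q Y ≤ S q Z) {m β : ℝ} (hm1 : 1 < m) (hβ1 : β ≤ 1)
    (hsieve : ∀ θ K : ℝ, 1 < θ * m → ∃ C : ℝ, ∀ X : ℝ, 2 ≤ X →
      (Set.ncard {q : ℤ | |(q : ℝ)| ≤ X ∧ S q (X ^ θ) ≤ (1 - β) * θ * Real.log X + K} : ℝ) ≤ C * X ^ θ)
    {ρ : ℝ} (hρ : 1 / m < ρ) (K : ℝ) (ε : ℝ) (hε : 0 < ε) : ∃ C : ℝ, ∀ X : ℝ, 1 ≤ X →
      {q | q ∈ Few S ((1 - β) * (1 / m)) ρ K ∧ |(q : ℝ)| ≤ X}.Finite ∧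
      (({q | q ∈ Few S ((1 - β) * (1 / m)) ρ K ∧ |(q : ℝ)| ≤ X}.ncard : ℕ) : ℝ) ≤ C * X ^ (1 / m + ε) := by
  have hs0 : 0 < 1 / m := by positivity
  set θ' : ℝ := 1 / m + min ε ((ρ - 1 / m) / 2) with hθ'
  have hmin : 0 < min ε ((ρ - 1 / m) / 2) := lt_min hε (by linarith)
  have hθ'1 : 1 / m < θ' := by linarith
  have hθ'2 : θ' ≤ 1 / m + ε := by linarith [min_le_left ε ((ρ - 1 / m) / 2)]
  have hθ'3 : θ' < ρ := by linarith [min_le_right ε ((ρ - 1 / m) / 2)]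
  have hcond : 1 < θ' * m := by
    have : 1 / m * m = 1 := by field_simp
    nlinarith
  obtain ⟨C, hC⟩ := hsieve θ' K hcond
  have hθ'0 : 0 < θ' := by linarith
  obtain ⟨X1, hX1⟩ : ∃ X1 : ℝ, ∀ X : ℝ, X1 ≤ X → (2 * X) ^ θ' ≤ X ^ ρ := by
    have h1 : Tendsto (fun X : ℝ => X ^ (ρ - θ')) atTop atTop := tendsto_rpow_atTop (by linarith)
    obtain ⟨X1, h2⟩ := ((h1.eventually_ge_atTop ((2 : ℝ) ^ θ')).and (eventually_ge_atTop 1)).exists_forall_of_atTop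
    refine ⟨X1, fun X hX => ?_⟩
    obtain ⟨h3, h4⟩ := h2 X hX
    have hX0 : 0 < X := by linarith
    rw [Real.mul_rpow (by norm_num) hX0.le]
    calc (2 : ℝ) ^ θ' * X ^ θ' ≤ X ^ (ρ - θ') * X ^ θ' :=
          mul_le_mul_of_nonneg_right h3 (Real.rpow_nonneg hX0.le _)
      _ = X ^ ρ := by
          rw [← Real.rpow_add hX0]
          congr 1
          ring
  obtain ⟨M, hM⟩ := Pool.Agent.V11153.Shell.count_shells (Few S ((1 - β) * (1 / m)) ρ K) (fun q : ℤ => |(q : ℝ)|)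
    (σ := θ') (X0 := max 1 X1) (C := |C| * 2 ^ θ') hθ'0 (le_max_left _ _) (fun X => fin_int _ X) (by
      intro X hX
      have hX1' : 1 ≤ X := (le_max_left _ _).trans hX
      have hr1 := hX1 X ((le_max_right _ _).trans hX)
      have hX0 : 0 < X := by linarith
      have h3 := hC (2 * X) (by linarith)
      have hsub : {q : ℤ | q ∈ Few S ((1 - β) * (1 / m)) ρ K ∧ X < |(q : ℝ)| ∧ |(q : ℝ)| ≤ 2 * X} ⊆
          {q : ℤ | |(q : ℝ)| ≤ 2 * X ∧ S q ((2 * X) ^ θ') ≤ (1 - β) * θ' * Real.log (2 * X) + K} := by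
        rintro q ⟨⟨hq0, hq1⟩, hq2, hq3⟩
        refine ⟨hq3, (hmono q _ _ ?_).trans (hq1.trans ?_)⟩
        · exact hr1.trans (Real.rpow_le_rpow hX0.le hq2.le (by linarith))
        · have hl1 : Real.log |(q : ℝ)| ≤ Real.log (2 * X) := Real.log_le_log (by linarith) hq3
          have hl0 : 0 ≤ Real.log |(q : ℝ)| := Real.log_nonneg (by linarith)
          have h5 : (1 - β) * (1 / m) * Real.log |(q : ℝ)| ≤ (1 - β) * θ' * Real.log (2 * X) := by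
            apply mul_le_mul _ hl1 hl0
            · exact mul_nonneg (by linarith) (by linarith)
            · exact mul_le_mul_of_nonneg_left hθ'1.le (by linarith)
          linarith
      have hfin : {q : ℤ | |(q : ℝ)| ≤ 2 * X ∧
            S q ((2 * X) ^ θ') ≤ (1 - β) * θ' * Real.log (2 * X) + K}.Finite := by
        refine (fin_int (fun _ => True) (2 * X)).subset fun q hq => ⟨trivial, hq.1⟩
      have h4 : (({q : ℤ | q ∈ Few S ((1 - β) * (1 / m)) ρ K ∧ X < |(q : ℝ)| ∧ |(q : ℝ)| ≤ 2 * X}.ncard : ℕ) : ℝ) ≤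
          C * (2 * X) ^ θ' :=
        le_trans (by exact_mod_cast Set.ncard_le_ncard hsub hfin) h3
      refine h4.trans ?_
      rw [Real.mul_rpow (by norm_num) hX0.le, ← mul_assoc]
      apply mul_le_mul_of_nonneg_right _ (Real.rpow_nonneg hX0.le _)
      exact mul_le_mul_of_nonneg_right (le_abs_self C) (by positivity))
  refine ⟨max M 0, fun X hX => ⟨(hM X hX).1, (hM X hX).2.trans ?_⟩⟩
  calc M * X ^ θ' ≤ max M 0 * X ^ θ' := mul_le_mul_of_nonneg_right (le_max_left _ _) (Real.rpow_nonneg (by linarith) _)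
    _ ≤ max M 0 * X ^ (1 / m + ε) :=
        mul_le_mul_of_nonneg_left (Real.rpow_le_rpow_of_exponent_le hX hθ'2) (le_max_right _ _)

lemma fam_of {S : ℤ → ℝ → ℝ} (hmono : ∀ q Y Z, Y ≤ Z → S q Y ≤ S q Z) {c s ρ K : ℝ} (hρ : s < ρ) :
    ∃ i : ℕ, Few S c ρ K ⊆ Few S c (s + 1 / ((i : ℝ) + 1)) i := by
  obtain ⟨j, hj⟩ := exists_nat_ge (max K (1 / (ρ - s)))
  have hjK : K ≤ j := (le_max_left _ _).trans hj
  have hjρ : 1 / ((j : ℝ) + 1) ≤ ρ - s := by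
    have h1 : 0 < ρ - s := by linarith
    have h2 : 1 / (ρ - s) ≤ (j : ℝ) + 1 := by linarith [(le_max_right K (1 / (ρ - s))).trans hj]
    rw [div_le_iff₀ h1] at h2
    rw [div_le_iff₀ (by positivity)]
    linarith
  exact ⟨j, Few.mono hmono (by linarith) hjK⟩

/-- **Countably many families of sums.** -/
theorem near_of_sieve {J : Type} [Countable J] (S : J → ℤ → ℝ → ℝ) (hmono : ∀ j q Y Z, Y ≤ Z → S j q Y ≤ S j q Z)
    {m β : ℝ} (hm1 : 1 < m) (hβ1 : β ≤ 1)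
    (hsieve : ∀ (j : J) (θ K : ℝ), 1 < θ * m → ∃ C : ℝ, ∀ X : ℝ, 2 ≤ X →
      (Set.ncard {q : ℤ | |(q : ℝ)| ≤ X ∧ S j q (X ^ θ) ≤ (1 - β) * θ * Real.log X + K} : ℝ) ≤ C * X ^ θ)
    {ν : ℕ → ℝ} (hν : Fast ν) (U : Set ℝ) (hU : U.Countable) :
    (∀ θ : ℝ, θ < 1 → ∃ E : Set ℝ, dimH E ≤ ENNReal.ofReal ((1 / m) / (1 - θ)) ∧
      ∀ x : ℝ, 1 < x → x ∉ E → ∀ y ∈ U, 0 < y → ∀ (j : J) (ρ K : ℝ), 1 / m < ρ →
        {q : ℤ | q ∈ Few (S j) ((1 - β) * (1 / m)) ρ K ∧ Near ν θ y x |(q : ℝ)|}.Finite) ∧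
    (∀ᵐ x : ℝ, 1 < x → ∀ θ : ℝ, θ < 1 - 1 / m → ∀ y ∈ U, 0 < y → ∀ (j : J) (ρ K : ℝ), 1 / m < ρ →
        {q : ℤ | q ∈ Few (S j) ((1 - β) * (1 / m)) ρ K ∧ Near ν θ y x |(q : ℝ)|}.Finite) := by
  have hs0 : 0 < 1 / m := by positivity
  have hcount : ∀ (i : J × ℕ) (ε : ℝ), 0 < ε → ∃ C : ℝ, ∀ X : ℝ, 1 ≤ X →
      {q | q ∈ Few (S i.1) ((1 - β) * (1 / m)) (1 / m + 1 / ((i.2 : ℝ) + 1)) i.2 ∧ |(q : ℝ)| ≤ X}.Finite ∧
      (({q | q ∈ Few (S i.1) ((1 - β) * (1 / m)) (1 / m + 1 / ((i.2 : ℝ) + 1)) i.2 ∧ |(q : ℝ)| ≤ X}.ncard : ℕ) : ℝ) ≤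
        C * X ^ (1 / m + ε) := fun i ε hε =>
    count (S i.1) (hmono i.1) hm1 hβ1 (hsieve i.1) (by
      have : (0 : ℝ) < 1 / ((i.2 : ℝ) + 1) := by positivity
      linarith) _ ε hε
  refine ⟨fun θ hθ => ?_, ?_⟩
  · obtain ⟨E, h1, h2⟩ := Pool.Agent.V11001.KM.family (fun q : ℤ => |(q : ℝ)|) hν hs0.le hθ U hU
      (fun i : J × ℕ => Few (S i.1) ((1 - β) * (1 / m)) (1 / m + 1 / ((i.2 : ℝ) + 1)) i.2) hcount
    refine ⟨E, h1, fun x hx hxE y hy hy0 j ρ K hρ => ?_⟩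
    obtain ⟨i, hi⟩ := fam_of (S := S j) (hmono j) (c := (1 - β) * (1 / m)) (K := K) hρ
    refine (h2 x hx hxE y hy hy0 (j, i)).subset ?_
    rintro q ⟨hq1, hq2⟩
    exact ⟨hi hq1, hq2⟩
  · filter_upwards [Pool.Agent.V11001.KM.ae_family (fun q : ℤ => |(q : ℝ)|) hν hs0.le U hU
      (fun i : J × ℕ => Few (S i.1) ((1 - β) * (1 / m)) (1 / m + 1 / ((i.2 : ℝ) + 1)) i.2) hcount]
      with x hx hx1 θ hθ y hy hy0 j ρ K hρ
    obtain ⟨i, hi⟩ := fam_of (S := S j) (hmono j) (c := (1 - β) * (1 / m)) (K := K) hρ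
    refine (hx hx1 θ hθ y hy hy0 (j, i)).subset ?_
    rintro q ⟨hq1, hq2⟩
    exact ⟨hi hq1, hq2⟩

end Pool.Agent.V11265.NS
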