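import Pool.Agent.H274.GWin
import Pool.Agent.V11001.KM.Near

/-! From moments to pointwise bounds near the powers of almost every real number. -/

set_option autoImplicit false

open Filter MeasureTheory

namespace Pool.Agent.V11265.MN

open Pool.Agent.V11001.KM
open Pool.Agent.H274.GWin (Large count)

variable {T : Type}

/-- `v t ≤ C (h t)^κ` for all `t` with `|h t - b z ^ (ν n)| ≤ z ^ (θ ν n)` for some `n` -/
def BoundedNear (h v : T → ℝ) (κ : ℝ) (ν : ℕ → ℝ) (θ b z C : ℝ) : Prop :=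
  ∀ t : T, Near ν θ b z (h t) → v t ≤ C * h t ^ κ

variable {h v : T → ℝ}

/-- from the finiteness of the large values -/
theorem bounded_of (hh : ∀ t, 1 ≤ h t) (hv : ∀ t, 0 ≤ v t) {κ : ℝ} (hκ : 0 < κ) {ν : ℕ → ℝ} {θ b z : ℝ}
    (hfin : ∀ X : ℝ, 1 ≤ X → {t | t ∈ Large h v κ ∧ h t ≤ X}.Finite)
    (hH : ∃ H₀ : ℝ, ∀ t ∈ Large h v κ, Near ν θ b z (h t) → h t < H₀) :
    ∃ C : ℝ, BoundedNear h v κ ν θ b z C := by
  classical
  obtain ⟨H₀, hH⟩ := hH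
  have hf := hfin (max 1 H₀) (le_max_left _ _)
  have h0 : 0 ≤ ∑ t ∈ hf.toFinset, v t := Finset.sum_nonneg fun t _ => hv t
  refine ⟨1 + ∑ t ∈ hf.toFinset, v t, fun t hn => ?_⟩
  have hpow : 1 ≤ h t ^ κ := Real.one_le_rpow (hh t) hκ.le
  by_cases hL : t ∈ Large h v κ
  · have h5 : t ∈ hf.toFinset := hf.mem_toFinset.2 ⟨hL, (hH t hL hn).le.trans (le_max_right _ _)⟩
    have h6 : v t ≤ ∑ t ∈ hf.toFinset, v t := Finset.single_le_sum (f := v) (fun t _ => hv t) h5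
    nlinarith
  · have h4 : v t < h t ^ κ := not_le.1 hL
    nlinarith

theorem BoundedNear.mono (hh : ∀ t, 1 ≤ h t) {κ κ' : ℝ} {ν : ℕ → ℝ} {θ b z C : ℝ} (hk : κ ≤ κ')
    (hb : BoundedNear h v κ ν θ b z C) : BoundedNear h v κ' ν θ b z |C| := by
  intro t hn
  have hr1 := hh t
  have h1 : h t ^ κ ≤ h t ^ κ' := Real.rpow_le_rpow_of_exponent_le hr1 hk
  have h2 : 0 ≤ h t ^ κ := by positivity
  calc v t ≤ C * h t ^ κ := hb t hn
    _ ≤ |C| * h t ^ κ := mul_le_mul_of_nonneg_right (le_abs_self C) h2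
    _ ≤ |C| * h t ^ κ' := mul_le_mul_of_nonneg_left h1 (abs_nonneg C)

/-- the trivial range -/
theorem trivial_near (hh : ∀ t, 1 ≤ h t) {q : ℕ} (hq : 1 ≤ q)
    (hs : ∀ s : ℝ, 1 < s → Summable fun t => v t ^ q * h t ^ (-s))
    (hv : ∀ t, 0 ≤ v t) {κ : ℝ} {ν : ℕ → ℝ} {θ b z : ℝ} (hκ : 1 < q * κ) : ∃ C : ℝ, BoundedNear h v κ ν θ b z C := by
  set S₀ : ℝ := ∑' t, v t ^ q * h t ^ (-(q * κ)) with hS₀
  have hS := hs (q * κ) hκ
  have hp : ∀ t, 0 ≤ v t ^ q * h t ^ (-(q * κ)) := fun t => by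
    have := hh t
    have := hv t
    positivity
  have h0 : 0 ≤ S₀ := tsum_nonneg hp
  refine ⟨S₀ + 1, fun t _ => ?_⟩
  have hr0 : 0 < h t := by have := hh t; linarith
  have h1 : v t ^ q * h t ^ (-(q * κ)) ≤ S₀ := hS.le_tsum t fun t _ => hp t
  have h3 : (h t ^ κ) ^ q = h t ^ (q * κ) := by
    rw [← Real.rpow_natCast (h t ^ κ), ← Real.rpow_mul hr0.le, mul_comm]
  have h4 : v t ^ q ≤ ((S₀ + 1) * h t ^ κ) ^ q := by
    have h5 : v t ^ q = v t ^ q * h t ^ (-(q * κ)) * h t ^ (q * κ) := by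
      rw [mul_assoc, ← Real.rpow_add hr0, neg_add_cancel, Real.rpow_zero, mul_one]
    rw [h5, mul_pow, h3]
    refine mul_le_mul_of_nonneg_right (h1.trans ?_) (by positivity)
    have h6 : 1 ≤ S₀ + 1 := by linarith
    calc S₀ ≤ (S₀ + 1) ^ 1 := by linarith
      _ ≤ (S₀ + 1) ^ q := pow_le_pow_right₀ h6 hq
  exact le_of_pow_le_pow_left₀ (by omega) (by positivity) h4

/-- **Countably many families of values.** -/
theorem near_family {J : Type} [Countable J] (hh : ∀ t, 1 ≤ h t) {q : ℕ} (hq : 1 ≤ q) (w : J → T → ℝ)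
    (hs : ∀ (j : J) (s : ℝ), 1 < s → Summable fun t => w j t ^ q * h t ^ (-s))
    (hv : ∀ j t, 0 ≤ w j t) {ν : ℕ → ℝ} (hν : Fast ν) (U : Set ℝ) (hU : U.Countable) :
    (∀ κ θ : ℝ, 0 < κ → q * κ ≤ 1 → θ < 1 → ∃ E : Set ℝ, dimH E ≤ ENNReal.ofReal ((1 - q * κ) / (1 - θ)) ∧
      ∀ z : ℝ, 1 < z → z ∉ E → ∀ b ∈ U, 0 < b → ∀ j : J, ∃ C : ℝ, BoundedNear h (w j) κ ν θ b z C) ∧
    ∀ᵐ z : ℝ, 1 < z → ∀ θ κ : ℝ, 0 < κ → θ / q < κ → ∀ b ∈ U, 0 < b → ∀ j : J,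
      ∃ C : ℝ, BoundedNear h (w j) κ ν θ b z C := by
  have hq0 : (0 : ℝ) < q := by exact_mod_cast hq
  have hfin : ∀ (j : J) {κ : ℝ}, q * κ ≤ 1 → ∀ X : ℝ, 1 ≤ X → {t | t ∈ Large h (w j) κ ∧ h t ≤ X}.Finite := by
    intro j κ hκ1 X hX
    obtain ⟨C, hC⟩ := count hh (hs j) (hv j) hκ1 1 one_pos
    exact (hC X hX).1
  refine ⟨fun κ θ hκ hκ1 hθ => ?_, ?_⟩
  · obtain ⟨E, h1, h2⟩ := family_threshold h hν (s := 1 - q * κ) (by linarith) hθ U hU (fun j => Large h (w j) κ)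
      (fun j ε hε => count hh (hs j) (hv j) hκ1 ε hε)
    exact ⟨E, h1, fun z hz hzE b hb hb0 j => bounded_of hh (hv j) hκ (hfin j hκ1) (h2 z hz hzE b hb hb0 j)⟩
  · have hr : ∀ r : {r : ℚ // 0 < (r : ℝ) ∧ q * (r : ℝ) ≤ 1}, ∀ᵐ z : ℝ, 1 < z → ∀ θ : ℝ,
        θ < 1 - (1 - q * (r.1 : ℝ)) → ∀ b ∈ U, 0 < b → ∀ j : J,
        ∃ H₀ : ℝ, ∀ t ∈ Large h (w j) (r.1 : ℝ), Near ν θ b z (h t) → h t < H₀ := fun r =>
      ae_family_threshold h hν (s := 1 - q * (r.1 : ℝ)) (by linarith [r.2.2]) U hU (fun j => Large h (w j) (r.1 : ℝ))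
        (fun j ε hε => count hh (hs j) (hv j) r.2.2 ε hε)
    rw [← ae_all_iff] at hr
    filter_upwards [hr] with z hz hz1 θ κ hκ hθ b hb hb0 j
    rcases lt_or_ge 1 (q * κ) with hκ1 | hκ1
    · exact trivial_near hh hq (hs j) (hv j) hκ1
    · obtain ⟨r, hr1, hr2⟩ := exists_rat_btwn (show max 0 (θ / q) < κ from max_lt hκ hθ)
      have hr0 : 0 < (r : ℝ) := (le_max_left _ _).trans_lt hr1
      have hr3 : q * (r : ℝ) ≤ 1 := le_trans (mul_le_mul_of_nonneg_left hr2.le hq0.le) hκ1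
      have hr4 : θ / q < r := (le_max_right _ _).trans_lt hr1
      rw [div_lt_iff₀ hq0] at hr4
      obtain ⟨C, hC⟩ := bounded_of hh (hv j) hr0 (hfin j hr3)
        (hz ⟨r, hr0, hr3⟩ hz1 θ (by simp only; linarith) b hb hb0 j)
      exact ⟨|C|, hC.mono hh hr2.le⟩

end Pool.Agent.V11265.MN
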