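import Mathlib

/-!
# Green functors for the group of order two and localization at the free level (MP_196a0c_al).
-/

universe u

namespace Pool.Agent.V11265.GF

/-- A commutative Green functor for the group `C₂` of order two.  `R1` is its value at `C₂/C₂`,
`R0` its value at `C₂/e`; `w` is the action of the generator of `C₂`. -/
structure Green where
  R1 : Type u
  R0 : Type u
  [c1 : CommRing R1]
  [c0 : CommRing R0]
  res : R1 →+* R0
  tr : R0 →+ R1
  w : R0 →+* R0
  w_w : ∀ x, w (w x) = x
  w_res : ∀ r, w (res r) = res r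
  tr_w : ∀ x, tr (w x) = tr x
  res_tr : ∀ x, res (tr x) = x + w x
  frob : ∀ r x, tr (res r * x) = r * tr x

attribute [instance] Green.c1 Green.c0

/-- Homomorphisms of commutative Green functors; an `R`-algebra is a commutative Green functor
`S` with such a homomorphism from `R` to `S`. -/
@[ext]
structure GHom (R S : Green.{u}) where
  h1 : R.R1 →+* S.R1
  h0 : R.R0 →+* S.R0
  res : ∀ r, h0 (R.res r) = S.res (h1 r)
  tr : ∀ x, h1 (R.tr x) = S.tr (h0 x)
  w : ∀ x, h0 (R.w x) = S.w (h0 x)

/-- Composition. -/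
def GHom.comp {R S T : Green.{u}} (g : GHom S T) (f : GHom R S) : GHom R T where
  h1 := g.h1.comp f.h1
  h0 := g.h0.comp f.h0
  res := by intro r; simp [f.res, g.res]
  tr := by intro x; simp [f.tr, g.tr]
  w := by intro x; simp [f.w, g.w]

/-- `ι : R → S` is the localization of `R` at the element `b` of `R(C₂/e)`: it is the initial
commutative `R`-algebra in which the image of `b` is a unit. -/
def IsLoc {R : Green.{u}} (b : R.R0) {S : Green.{u}} (ι : GHom R S) : Prop :=
  IsUnit (ι.h0 b) ∧
    ∀ (T : Green.{u}) (f : GHom R T), IsUnit (f.h0 b) → ∃! g : GHom S T, g.comp ι = f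

/-- Mackey functors for `C₂` (Lewis diagrams): `M1` is the value at `C₂/C₂`, `M0` the value
at `C₂/e`. -/
structure Mack where
  M1 : Type u
  M0 : Type u
  [a1 : AddCommGroup M1]
  [a0 : AddCommGroup M0]
  res : M1 →+ M0
  tr : M0 →+ M1
  w : M0 →+ M0
  w_w : ∀ x, w (w x) = x
  w_res : ∀ r, w (res r) = res r
  tr_w : ∀ x, tr (w x) = tr x
  res_tr : ∀ x, res (tr x) = x + w x

attribute [instance] Mack.a1 Mack.a0

/-- the restriction of `M` -/
abbrev Mack.r (M : Mack.{u}) (m : M.M1) : M.M0 := M.res m

/-- the transfer of `M` -/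
abbrev Mack.t (M : Mack.{u}) (x : M.M0) : M.M1 := M.tr x

/-- the conjugation of `M` -/
abbrev Mack.c (M : Mack.{u}) (x : M.M0) : M.M0 := M.w x

/-- Modules over a commutative Green functor: Mackey functors for `C₂` with an action of `R`. -/
structure Mod (R : Green.{u}) extends Mack.{u} where
  [m1 : Module R.R1 M1]
  [m0 : Module R.R0 M0]
  res_smul : ∀ (r : R.R1) (m : M1), toMack.r (r • m) = R.res r • toMack.r m
  w_smul : ∀ (a : R.R0) (x : M0), toMack.c (a • x) = R.w a • toMack.c x
  tr_smul : ∀ (r : R.R1) (x : M0), toMack.t (R.res r • x) = r • toMack.t x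
  tr_smul' : ∀ (a : R.R0) (m : M1), toMack.t (a • toMack.r m) = R.tr a • m

attribute [instance] Mod.m1 Mod.m0

/-- Homomorphisms of `R`-modules. -/
@[ext]
structure MHom {R : Green.{u}} (M N : Mod R) where
  h1 : M.M1 →ₗ[R.R1] N.M1
  h0 : M.M0 →ₗ[R.R0] N.M0
  res : ∀ m, h0 (M.r m) = N.r (h1 m)
  tr : ∀ x, h1 (M.t x) = N.t (h0 x)
  w : ∀ x, h0 (M.c x) = N.c (h0 x)

/-- An `R`-algebra as an `R`-module. -/
def GHom.toMod {R S : Green.{u}} (ι : GHom R S) : Mod R :=
  letI := ι.h1.toModule
  letI := ι.h0.toModule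
  { M1 := S.R1
    M0 := S.R0
    res := S.res.toAddMonoidHom
    tr := S.tr
    w := S.w.toAddMonoidHom
    w_w := S.w_w
    w_res := S.w_res
    tr_w := S.tr_w
    res_tr := S.res_tr
    res_smul := by
      intro r m
      change S.res (ι.h1 r * m) = ι.h0 (R.res r) * S.res m
      rw [map_mul, ι.res]
    w_smul := by
      intro a x
      change S.w (ι.h0 a * x) = ι.h0 (R.w a) * S.w x
      rw [map_mul, ι.w]
    tr_smul := by
      intro r x
      change S.tr (ι.h0 (R.res r) * x) = ι.h1 r * S.tr x
      rw [ι.res, S.frob]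
    tr_smul' := by
      intro a m
      change S.tr (ι.h0 a * S.res m) = ι.h1 (R.tr a) * m
      rw [ι.tr, mul_comm, S.frob, mul_comm] }

/-- Pairings `M ⊠_R N → P`: families of `R`-bilinear maps, compatible with restrictions and
conjugations and satisfying Frobenius reciprocity in both variables. -/
structure Pairing {R : Green.{u}} (M N P : Mod R) where
  f1 : M.M1 → N.M1 → P.M1
  f0 : M.M0 → N.M0 → P.M0
  bil1 : IsBilinearMap R.R1 f1
  bil0 : IsBilinearMap R.R0 f0
  res : ∀ m n, P.r (f1 m n) = f0 (M.r m) (N.r n)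
  w : ∀ m n, P.c (f0 m n) = f0 (M.c m) (N.c n)
  tr_left : ∀ x n, f1 (M.t x) n = P.t (f0 x (N.r n))
  tr_right : ∀ m x, f1 m (N.t x) = P.t (f0 (M.r m) x)

/-- The pairing `φ` exhibits `P` as the box product of `M` and `N` over `R`. -/
def Pairing.IsBox {R : Green.{u}} {M N P : Mod R} (φ : Pairing M N P) : Prop :=
  ∀ (Q : Mod R) (ψ : Pairing M N Q), ∃! g : MHom P Q,
    (∀ m n, g.h1 (φ.f1 m n) = ψ.f1 m n) ∧ (∀ m n, g.h0 (φ.f0 m n) = ψ.f0 m n)

/-- The `R`-module `M` is flat: the (right exact) functor given by the box product with `M`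
over `R` preserves monomorphisms. -/
def Flat {R : Green.{u}} (M : Mod R) : Prop :=
  ∀ (N N' : Mod R) (i : MHom N N'), Function.Injective i.h1 → Function.Injective i.h0 →
    ∀ (P P' : Mod R) (φ : Pairing M N P) (φ' : Pairing M N' P'), φ.IsBox → φ'.IsBox →
      ∀ g : MHom P P', (∀ m n, g.h1 (φ.f1 m n) = φ'.f1 m (i.h1 n)) →
        (∀ m n, g.h0 (φ.f0 m n) = φ'.f0 m (i.h0 n)) →
          Function.Injective g.h1 ∧ Function.Injective g.h0

variable {R : Green.{u}}

/-! ### The explicit localization -/

/-- the ideal of the transfers -/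
def trI (R : Green.{u}) : Ideal R.R1 where
  carrier := Set.range R.tr
  add_mem' := by
    rintro _ _ ⟨x, rfl⟩ ⟨y, rfl⟩
    exact ⟨x + y, map_add _ _ _⟩
  zero_mem' := ⟨0, map_zero _⟩
  smul_mem' := by
    rintro r _ ⟨x, rfl⟩
    exact ⟨R.res r * x, R.frob r x⟩

/-- the Green functor `(R1 / tr R0, 0)` -/
def loc (R : Green.{u}) : Green.{u} where
  R1 := R.R1 ⧸ trI R
  R0 := PUnit
  res := 
    { toFun := fun _ => 0
      map_one' := rfl
      map_mul' := fun _ _ => rfl
      map_zero' := rfl
      map_add' := fun _ _ => rfl }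
  tr := 0
  w := RingHom.id _
  w_w := fun _ => rfl
  w_res := fun _ => rfl
  tr_w := fun _ => rfl
  res_tr := fun _ => rfl
  frob := by intro r x; simp

/-- the canonical homomorphism -/
def locι (R : Green.{u}) : GHom R (loc R) where
  h1 := Ideal.Quotient.mk (trI R)
  h0 :=
    { toFun := fun _ => PUnit.unit
      map_one' := rfl
      map_mul' := fun _ _ => rfl
      map_zero' := rfl
      map_add' := fun _ _ => rfl }
  res := fun _ => rfl
  tr := by
    intro x
    change Ideal.Quotient.mk (trI R) (R.tr x) = 0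
    rw [Ideal.Quotient.eq_zero_iff_mem]
    exact ⟨x, rfl⟩
  w := fun _ => rfl

lemma subsingleton_of_unit {T : Green.{u}} (f : GHom R T) (b : R.R0)
    (hb : IsNilpotent (b * R.w b)) (h : IsUnit (f.h0 b)) : Subsingleton T.R0 := by
  have h1 : IsUnit (f.h0 (R.w b)) := by rw [f.w]; exact h.map T.w
  have h2 : IsUnit (f.h0 (b * R.w b)) := by rw [map_mul]; exact h.mul h1
  have h3 : IsNilpotent (f.h0 (b * R.w b)) := hb.map f.h0
  obtain ⟨n, hn⟩ := h3
  have h4 : IsUnit (0 : T.R0) := by rw [← hn]; exact h2.pow n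
  exact subsingleton_of_zero_eq_one (isUnit_zero_iff.mp h4)

lemma isLoc (b : R.R0) (hb : IsNilpotent (b * R.w b)) : IsLoc b (locι R) := by
  refine ⟨?_, ?_⟩
  · exact isUnit_of_subsingleton (M := PUnit) _
  · intro T f hf
    have hT : Subsingleton T.R0 := subsingleton_of_unit f b hb hf
    have htr : ∀ x, T.tr x = 0 := fun x => by rw [Subsingleton.elim x 0, map_zero]
    refine ⟨⟨Ideal.Quotient.lift (trI R) f.h1 ?_, ?_, ?_, ?_, ?_⟩, ?_, ?_⟩
    · rintro _ ⟨x, rfl⟩
      rw [f.tr, htr]
    · exact
        { toFun := fun _ => 0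
          map_one' := Subsingleton.elim _ _
          map_mul' := fun _ _ => Subsingleton.elim _ _
          map_zero' := rfl
          map_add' := fun _ _ => Subsingleton.elim _ _ }
    · intro r; exact Subsingleton.elim _ _
    · intro x
      rw [htr]
      exact map_zero _
    · intro x; exact Subsingleton.elim _ _
    · apply GHom.ext
      · ext r
        rfl
      · ext x
        exact Subsingleton.elim _ _
    · intro g hg
      apply GHom.ext
      · apply Ideal.Quotient.ringHom_ext
        ext r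
        have : (g.comp (locι R)).h1 r = f.h1 r := by rw [hg]
        exact this
      · ext x
        exact Subsingleton.elim _ _

/-! ### The box product with the localization -/

/-- the submodule of the transfers -/
def trM (N : Mod R) : Submodule R.R1 N.M1 where
  carrier := Set.range N.tr
  add_mem' := by
    rintro _ _ ⟨x, rfl⟩ ⟨y, rfl⟩
    exact ⟨x + y, map_add _ _ _⟩
  zero_mem' := ⟨0, map_zero _⟩
  smul_mem' := by
    rintro r _ ⟨x, rfl⟩
    exact ⟨R.res r • x, N.tr_smul r x⟩

/-- the module `(N1 / tr N0, 0)` -/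
def quo (N : Mod R) : Mod R where
  M1 := N.M1 ⧸ trM N
  M0 := PUnit
  res := 0
  tr := 0
  w := 0
  w_w := fun _ => rfl
  w_res := fun _ => rfl
  tr_w := fun _ => rfl
  res_tr := fun _ => rfl
  res_smul := fun _ _ => rfl
  w_smul := fun _ _ => rfl
  tr_smul := fun r _ => (smul_zero r).symm
  tr_smul' := by
    intro a m
    induction m using Submodule.Quotient.induction_on with
    | _ n =>
      change (0 : N.M1 ⧸ trM N) = R.tr a • (Submodule.Quotient.mk n : N.M1 ⧸ trM N)
      rw [← Submodule.Quotient.mk_smul, eq_comm, Submodule.Quotient.mk_eq_zero]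
      exact ⟨a • N.res n, N.tr_smul' a n⟩

lemma tors (N : Mod R) : Module.IsTorsionBySet R.R1 (N.M1 ⧸ trM N) (trI R : Set R.R1) := by
  rintro m ⟨_, ⟨a, rfl⟩⟩
  exact ((quo N).tr_smul' a m).symm

/-- the action of `R1 / tr R0` on `N1 / tr N0` -/
noncomputable def act (N : Mod R) : R.R1 ⧸ trI R →+ (N.M1 ⧸ trM N) →+ (N.M1 ⧸ trM N) :=
  letI := (tors N).module
  { toFun := fun s => 
      { toFun := fun n => s • n
        map_zero' := smul_zero _
        map_add' := smul_add _ }
    map_zero' := by ext n; exact zero_smul _ n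
    map_add' := by intro x y; ext n; exact add_smul _ _ n }

lemma act_mk (N : Mod R) (r : R.R1) (n : N.M1 ⧸ trM N) :
    act N (Ideal.Quotient.mk (trI R) r) n = r • n := rfl

/-- the universal pairing -/
noncomputable def pair (N : Mod R) : Pairing (locι R).toMod N (quo N) where
  f1 := fun s n => act N s (Submodule.Quotient.mk n)
  f0 := fun _ _ => PUnit.unit
  bil1 :=
    { add_left := by
        intro m m' n
        exact congrArg (fun f => f (Submodule.Quotient.mk n)) (map_add (act N) m m')
      add_right := by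
        intro m n n'
        rw [Submodule.Quotient.mk_add, map_add]
        rfl
      smul_left := by
        intro r m n
        obtain ⟨s, rfl⟩ := Ideal.Quotient.mk_surjective m
        change act N (Ideal.Quotient.mk (trI R) r * Ideal.Quotient.mk (trI R) s) _ =
          r • act N (Ideal.Quotient.mk (trI R) s) _
        rw [← map_mul, act_mk, act_mk, mul_smul]
      smul_right := by
        intro r m n
        obtain ⟨s, rfl⟩ := Ideal.Quotient.mk_surjective m
        rw [Submodule.Quotient.mk_smul]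
        change act N (Ideal.Quotient.mk (trI R) s) _ =
          r • act N (Ideal.Quotient.mk (trI R) s) _
        rw [act_mk, act_mk, smul_comm] }
  bil0 :=
    { add_left := fun _ _ _ => rfl
      add_right := fun _ _ _ => rfl
      smul_left := fun _ _ _ => rfl
      smul_right := fun _ _ _ => rfl }
  res := fun _ _ => rfl
  w := fun _ _ => rfl
  tr_left := by
    intro x n
    change act N 0 _ = 0
    rw [map_zero]; rfl
  tr_right := by
    intro m x
    change act N m (Submodule.Quotient.mk (N.tr x)) = 0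
    rw [(Submodule.Quotient.mk_eq_zero (trM N)).mpr ⟨x, rfl⟩, map_zero]

/-- the unit of the localization -/
def e1 (R : Green.{u}) : (locι R).toMod.M1 := (1 : R.R1 ⧸ trI R)

lemma exists_smul (m : (locι R).toMod.M1) : ∃ s : R.R1, m = s • e1 R := by
  obtain ⟨s, hs⟩ := Ideal.Quotient.mk_surjective (I := trI R) m
  refine ⟨s, ?_⟩
  rw [← hs]
  change _ = Ideal.Quotient.mk (trI R) s * (1 : R.R1 ⧸ trI R)
  rw [mul_one]

/-- the quotient map -/
def qm (N : Mod R) : N.M1 →ₗ[R.R1] (quo N).M1 := (trM N).mkQ

lemma qm_surj (N : Mod R) (m : (quo N).M1) : ∃ n, qm N n = m :=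
  Submodule.Quotient.mk_surjective (trM N) m

lemma qm_eq_zero (N : Mod R) (n : N.M1) : qm N n = 0 ↔ ∃ x, N.tr x = n :=
  Submodule.Quotient.mk_eq_zero (trM N)

lemma qm_lift (N : Mod R) {Q : Type u} [AddCommGroup Q] [Module R.R1 Q]
    (L : N.M1 →ₗ[R.R1] Q) (hL : ∀ x, L (N.tr x) = 0) :
    ∃ G : (quo N).M1 →ₗ[R.R1] Q, ∀ n, G (qm N n) = L n := by
  have hL' : ∀ n ∈ trM N, L n = 0 := by
    rintro _ ⟨x, rfl⟩
    exact hL x
  exact ⟨(trM N).liftQ L hL', fun n => Submodule.liftQ_apply _ _ _⟩

lemma pair_one (N : Mod R) (n : N.M1) : (pair N).f1 (e1 R) n = qm N n := by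
  change act N (Ideal.Quotient.mk (trI R) 1) _ = _
  rw [act_mk, one_smul]
  rfl

lemma f0_zero {N Q : Mod R} (ψ : Pairing (locι R).toMod N Q) (x : (locι R).toMod.M0)
    (n : N.M0) : ψ.f0 x n = 0 := by
  have h := ψ.bil0.smul_left (0 : R.R0) x n
  rw [zero_smul R.R0 (ψ.f0 x n)] at h
  rw [← h]
  rfl

lemma f1_tr {N Q : Mod R} (ψ : Pairing (locι R).toMod N Q) (m : (locι R).toMod.M1)
    (x : N.M0) : ψ.f1 m (N.tr x) = 0 := by
  rw [ψ.tr_right, f0_zero]
  exact map_zero Q.tr

lemma pair_isBox (N : Mod R) : (pair N).IsBox := by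
  intro Q ψ
  let L : N.M1 →ₗ[R.R1] Q.M1 :=
    { toFun := fun n => ψ.f1 (e1 R) n
      map_add' := ψ.bil1.add_right _
      map_smul' := fun r n => ψ.bil1.smul_right r _ n }
  obtain ⟨G, hG⟩ := qm_lift N L (fun x => f1_tr ψ _ x)
  have key : ∀ (m : (locι R).toMod.M1) (n : N.M1), G ((pair N).f1 m n) = ψ.f1 m n := by
    intro m n
    obtain ⟨s, rfl⟩ := exists_smul m
    rw [(pair N).bil1.smul_left, ψ.bil1.smul_left, pair_one, map_smul, hG]
    rfl
  refine ⟨⟨G, 0, ?_, ?_, ?_⟩, ⟨key, ?_⟩, ?_⟩
  · intro m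
    obtain ⟨n, rfl⟩ := qm_surj N m
    rw [hG]
    change 0 = Q.r (ψ.f1 (e1 R) n)
    rw [ψ.res, f0_zero]
  · intro x
    exact (map_zero G).trans (map_zero Q.tr).symm
  · intro x
    exact (map_zero Q.w).symm
  · intro m n
    exact (f0_zero ψ m n).symm
  · intro g hg
    apply MHom.ext
    · apply LinearMap.ext
      intro m
      obtain ⟨n, rfl⟩ := qm_surj N m
      rw [hG, ← pair_one]
      exact hg.1 (e1 R) n
    · apply LinearMap.ext
      intro x
      have : x = 0 := rfl
      rw [this, map_zero, map_zero]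

/-- the structure of an arbitrary box product with the localization -/
lemma box_struct {N P : Mod R} (φ : Pairing (locι R).toMod N P) (hφ : φ.IsBox) :
    (∀ p : P.M1, ∃ n, p = φ.f1 (e1 R) n) ∧ (∀ p : P.M0, p = 0) ∧
      (∀ n, φ.f1 (e1 R) n = 0 → ∃ x, N.tr x = n) := by
  obtain ⟨k, hk, -⟩ := hφ (quo N) (pair N)
  obtain ⟨l, hl, -⟩ := pair_isBox N P φ
  obtain ⟨j, hj, hju⟩ := hφ P φ
  -- `l ∘ k` is the identity
  let c : MHom P P := ⟨l.h1.comp k.h1, l.h0.comp k.h0,
    fun m => by rw [LinearMap.comp_apply, LinearMap.comp_apply, k.res, l.res],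
    fun x => by rw [LinearMap.comp_apply, LinearMap.comp_apply, k.tr, l.tr],
    fun x => by rw [LinearMap.comp_apply, LinearMap.comp_apply, k.w, l.w]⟩
  let d : MHom P P := ⟨LinearMap.id, LinearMap.id, fun _ => rfl, fun _ => rfl, fun _ => rfl⟩
  have hc : c = j := hju c ⟨fun m n => by
      change l.h1 (k.h1 (φ.f1 m n)) = φ.f1 m n
      rw [hk.1, hl.1], fun m n => by
      change l.h0 (k.h0 (φ.f0 m n)) = φ.f0 m n
      rw [hk.2, hl.2]⟩
  have hd : d = j := hju d ⟨fun m n => rfl, fun m n => rfl⟩
  have hcd : c = d := hc.trans hd.symm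
  refine ⟨?_, ?_, ?_⟩
  · intro p
    have h1 : l.h1 (k.h1 p) = p := congrArg (fun z : MHom P P => z.h1 p) hcd
    obtain ⟨n, hn⟩ := qm_surj N (k.h1 p)
    refine ⟨n, ?_⟩
    rw [← h1, ← hn, ← pair_one, hl.1]
  · intro p
    have h1 : l.h0 (k.h0 p) = p := congrArg (fun z : MHom P P => z.h0 p) hcd
    rw [← h1]
    have : k.h0 p = 0 := rfl
    rw [this, map_zero]
  · intro n hn
    have h1 := hk.1 (e1 R) n
    rw [hn, map_zero, pair_one] at h1
    exact (qm_eq_zero N n).mp h1.symm

/-! ### The test modules -/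

/-- the module induced from the trivial subgroup: `M(C₂/C₂) = R0`, `M(C₂/e) = R0 × R0` -/
def ind (R : Green.{u}) : Mod R :=
  letI : Module R.R1 R.R0 := R.res.toModule
  { M1 := R.R0
    M0 := R.R0 × R.R0
    res := 
      { toFun := fun x => (x, R.w x)
        map_zero' := by simp
        map_add' := by intro x y; simp }
    tr :=
      { toFun := fun x => x.1 + R.w x.2
        map_zero' := by simp
        map_add' := by intro x y; simp; ring }
    w :=
      { toFun := fun x => (R.w x.2, R.w x.1)
        map_zero' := by simp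
        map_add' := by intro x y; simp }
    w_w := by rintro ⟨x, y⟩; simp [R.w_w]
    w_res := by intro x; simp [R.w_w]
    tr_w := by rintro ⟨x, y⟩; simp [R.w_w]; ring
    res_tr := by rintro ⟨x, y⟩; simp [R.w_w]; ring
    res_smul := by
      intro r m
      change (R.res r * m, R.w (R.res r * m)) = R.res r • (m, R.w m)
      rw [map_mul, R.w_res]; rfl
    w_smul := by
      rintro a ⟨x, y⟩
      change (R.w (a * y), R.w (a * x)) = R.w a • (R.w y, R.w x)
      rw [map_mul, map_mul]; rfl
    tr_smul := by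
      rintro r ⟨x, y⟩
      change R.res r * x + R.w (R.res r * y) = R.res r * (x + R.w y)
      rw [map_mul, R.w_res]; ring
    tr_smul' := by
      intro a m
      change a * m + R.w (a * R.w m) = R.res (R.tr a) * m
      rw [map_mul, R.w_w, R.res_tr]; ring }

/-- the image of `R` in the induced module -/
def img (R : Green.{u}) : Mod R :=
  { M1 := R.res.range
    M0 := R.R0
    m1 := (R.res.rangeRestrict).toModule
    res := R.res.range.subtype.toAddMonoidHom
    tr :=
      { toFun := fun x => ⟨x + R.w x, R.tr x, R.res_tr x⟩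
        map_zero' := by ext; simp
        map_add' := by intro x y; ext; simp; ring }
    w := R.w.toAddMonoidHom
    w_w := R.w_w
    w_res := by
      rintro ⟨_, ⟨r, rfl⟩⟩
      exact R.w_res r
    tr_w := by
      intro x
      apply Subtype.ext
      change R.w x + R.w (R.w x) = x + R.w x
      rw [R.w_w]; ring
    res_tr := fun x => rfl
    res_smul := by
      intro r m
      rfl
    w_smul := by
      intro a x
      exact map_mul R.w a x
    tr_smul := by
      intro r x
      apply Subtype.ext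
      change R.res r * x + R.w (R.res r * x) = R.res r * (x + R.w x)
      rw [map_mul, R.w_res]; ring
    tr_smul' := by
      rintro a ⟨_, ⟨r, rfl⟩⟩
      apply Subtype.ext
      change a * R.res r + R.w (a * R.res r) = R.res (R.tr a) * R.res r
      rw [map_mul, R.w_res, R.res_tr]; ring }

/-- the inclusion -/
def inc (R : Green.{u}) : MHom (img R) (ind R) where
  h1 := 
    { toFun := fun x => x.1
      map_add' := fun _ _ => rfl
      map_smul' := fun _ _ => rfl }
  h0 :=
    { toFun := fun x => (x, x)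
      map_add' := fun _ _ => rfl
      map_smul' := fun _ _ => rfl }
  res := by
    rintro ⟨_, ⟨r, rfl⟩⟩
    change (R.res r, R.res r) = (R.res r, R.w (R.res r))
    rw [R.w_res]
  tr := fun x => rfl
  w := fun x => rfl

/-- the generator of the image -/
def u1 (R : Green.{u}) : (img R).M1 := (1 : R.res.range)

/-- **main criterion** -/
theorem flat_iff (R : Green.{u}) : Flat (locι R).toMod ↔ ∃ a : R.R0, a + R.w a = 1 := by
  constructor
  · intro h
    have h1 := h (img R) (ind R) (inc R) (fun x y hxy => Subtype.ext hxy)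
      (fun x y hxy => congrArg Prod.fst hxy) (quo _) (quo _) (pair _) (pair _) (pair_isBox _)
      (pair_isBox _)
    -- the induced map
    obtain ⟨G, hG⟩ := qm_lift (img R) ((qm (ind R)).comp (inc R).h1) (fun x => by
      rw [LinearMap.comp_apply, (inc R).tr, qm_eq_zero]
      exact ⟨_, rfl⟩)
    have h2 := h1 ⟨G, 0, fun _ => rfl, fun x => map_zero G, fun _ => rfl⟩ ?_ ?_
    · have h3 : G (qm (img R) (u1 R)) = 0 := by
        rw [hG, LinearMap.comp_apply, qm_eq_zero]
        refine ⟨((1 : R.R0), (0 : R.R0)), ?_⟩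
        change (1 : R.R0) + R.w 0 = 1
        rw [map_zero, add_zero]
      have h4 : qm (img R) (u1 R) = 0 := by
        apply h2.1
        exact h3.trans (map_zero G).symm
      rw [qm_eq_zero] at h4
      obtain ⟨a, ha⟩ := h4
      exact ⟨a, congrArg (fun z : R.res.range => z.1) ha⟩
    · intro m n
      obtain ⟨s, rfl⟩ := exists_smul m
      rw [(pair _).bil1.smul_left, (pair _).bil1.smul_left, pair_one, pair_one, map_smul]
      change s • G (qm (img R) n) = _
      rw [hG]
      rfl
    · intro m n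
      rfl
  · rintro ⟨a, ha⟩ N N' i hi1 hi0 P P' φ φ' hφ hφ' g hg1 hg0
    obtain ⟨s1, s2, s3⟩ := box_struct φ hφ
    obtain ⟨-, -, s3'⟩ := box_struct φ' hφ'
    refine ⟨?_, ?_⟩
    · rw [injective_iff_map_eq_zero]
      intro p hp
      obtain ⟨n, rfl⟩ := s1 p
      rw [hg1] at hp
      obtain ⟨x, hx⟩ := s3' _ hp
      have hk : R.res (1 - R.tr a) = 0 := by
        rw [map_sub, map_one, R.res_tr, ha, sub_self]
      have h1 : i.h1 ((1 - R.tr a) • n) = 0 := by
        rw [map_smul, ← hx, ← N'.tr_smul, hk, zero_smul]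
        exact map_zero N'.tr
      have h2 : (1 - R.tr a) • n = 0 := hi1 (h1.trans (map_zero _).symm)
      have h3 : n = N.t (a • N.r n) := by
        rw [N.tr_smul']
        rw [sub_smul, one_smul, sub_eq_zero] at h2
        exact h2
      rw [h3, f1_tr]
    · intro x y _
      rw [s2 x, s2 y]

/-- The Burnside ring `ℤ[t]/(t² - 2t)` of `C₂`; `t` is the class of the free orbit. -/
abbrev BRing : Type := QuadraticAlgebra ℤ 0 2

/-- the restriction of the Burnside functor: `t ↦ 2` -/
def bres : BRing →+* ℤ where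
  toFun := fun x => x.re + 2 * x.im
  map_one' := by
    rfl
  map_mul' := by
    intro x y
    change (x * y).re + 2 * (x * y).im = (x.re + 2 * x.im) * (y.re + 2 * y.im)
    simp
    ring
  map_zero' := by
    rfl
  map_add' := by
    intro x y
    change (x + y).re + 2 * (x + y).im = (x.re + 2 * x.im) + (y.re + 2 * y.im)
    simp
    ring

/-- the transfer of the Burnside functor: `1 ↦ t` -/
def btr : ℤ →+ BRing where
  toFun := fun n => ⟨0, n⟩
  map_zero' := rfl
  map_add' := by
    intro x y
    apply QuadraticAlgebra.ext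
    · simp
    · rfl

/-- The Burnside Green functor of `C₂`: its value at `C₂/C₂` is the Burnside ring
`ℤ[t]/(t² - 2t)`, where `t` is the class of the free orbit, its value at `C₂/e` is `ℤ`. -/
def burnside : Green.{0} where
  R1 := BRing
  R0 := ℤ
  res := bres
  tr := btr
  w := RingHom.id ℤ
  w_w := fun _ => rfl
  w_res := fun _ => rfl
  tr_w := fun _ => rfl
  res_tr := by intro x; change 0 + 2 * x = x + x; ring
  frob := by
    intro r x
    ext
    · change (0 : ℤ) = (r * ⟨0, x⟩ : BRing).re
      simp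
    · change (r.re + 2 * r.im) * x = (r * ⟨0, x⟩ : BRing).im
      simp; ring

end Pool.Agent.V11265.GF
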