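import Mathlib

/-!
# Hardy operator, capacity and isocapacitary constant on rooted trees: definitions and
combinatorial lemmas (MP_a9eb04_an).
-/

open MeasureTheory Set Filter
open scoped ENNReal NNReal Topology

namespace Pool.Agent.V11265.IC

/-- A locally finite tree with a root `root` and a pre-root `pre`, given by its parent map.
The vertices are the elements of `V`; the parent of a vertex `v ≠ pre` is its neighbour on the
way to `pre` (and `par pre = pre` by convention).  The pre-root is adjacent to the root only. -/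
structure RTree (V : Type) where
  pre : V
  root : V
  par : V → V
  par_pre : par pre = pre
  root_ne : root ≠ pre
  par_root : par root = pre
  eq_root : ∀ v, v ≠ pre → par v = pre → v = root
  reach : ∀ v, ∃ n, par^[n] v = pre
  locFin : ∀ v, {w | w ≠ pre ∧ par w = v}.Finite

variable {V : Type}

namespace RTree

/-- The edges of the tree: the edge joining `v ≠ pre` to its parent is represented by `v`. -/
abbrev Edge (T : RTree V) : Type := {v : V // v ≠ T.pre}

/-- The infinite geodesics starting at the pre-root. -/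
def Ray (T : RTree V) : Type :=
  {r : ℕ → V // r 0 = T.pre ∧ ∀ n, r (n + 1) ≠ T.pre ∧ T.par (r (n + 1)) = r n}

/-- The points of the closure of the tree: its vertices and its infinite geodesics starting at
the pre-root (the finite maximal geodesics are identified with the leaves). -/
inductive Pt (T : RTree V) : Type
  | vert (v : V) : Pt T
  | bd (r : T.Ray) : Pt T

/-- The set of the edges of the geodesic from the pre-root to the point `x`. -/
def path (T : RTree V) : T.Pt → Set T.Edge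
  | .vert x => {e | ∃ n, T.par^[n] x = e.1}
  | .bd r => {e | ∃ n, r.1 (n + 1) = e.1}

/-- The successor set of an edge. -/
def S (T : RTree V) (α : T.Edge) : Set T.Pt := {x | α ∈ T.path x}

/-- The topology generated by the successor sets and the vertex singletons. -/
instance (T : RTree V) : TopologicalSpace T.Pt :=
  TopologicalSpace.generateFrom (Set.range T.S ∪ Set.range fun v => {Pt.vert v})

/-- The Borel sigma-algebra. -/
instance (T : RTree V) : MeasurableSpace T.Pt := borel T.Pt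

instance (T : RTree V) : BorelSpace T.Pt := ⟨rfl⟩

/-- The Hardy operator. -/
noncomputable def I (T : RTree V) (φ : T.Edge → ℝ≥0) (x : T.Pt) : ℝ≥0∞ :=
  ∑' α : T.path x, (φ α : ℝ≥0∞)

/-- The weighted energy `∑ φ(α)^p π(α)`. -/
noncomputable def energy (T : RTree V) (p : ℝ) (π : T.Edge → ℝ≥0) (φ : T.Edge → ℝ≥0) : ℝ≥0∞ :=
  ∑' α : T.Edge, (φ α : ℝ≥0∞) ^ p * (π α : ℝ≥0∞)

/-- The best constant `[μ]` in the Hardy inequality. -/
noncomputable def hardyConst (T : RTree V) (p : ℝ) (π : T.Edge → ℝ≥0) (μ : Measure T.Pt) :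
    ℝ≥0∞ :=
  sInf {C : ℝ≥0∞ | ∀ φ : T.Edge → ℝ≥0, ∫⁻ x, (T.I φ x) ^ p ∂μ ≤ C * T.energy p π φ}

/-- The capacity of a set. -/
noncomputable def cap (T : RTree V) (p : ℝ) (π : T.Edge → ℝ≥0) (A : Set T.Pt) : ℝ≥0∞ :=
  ⨅ (φ : T.Edge → ℝ≥0) (_ : ∀ x ∈ A, 1 ≤ T.I φ x), T.energy p π φ

/-- The isocapacitary constant: the supremum runs over the finite families of edges with
pairwise disjoint successor sets. -/
noncomputable def isoConst (T : RTree V) (p : ℝ) (π : T.Edge → ℝ≥0) (μ : Measure T.Pt) :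
    ℝ≥0∞ :=
  ⨆ (s : Finset T.Edge) (_ : (s : Set T.Edge).PairwiseDisjoint T.S),
    (∑ α ∈ s, μ (T.S α)) / T.cap p π (⋃ α ∈ s, T.S α)

end RTree

/-! ### Combinatorics of the tree -/

variable (T : RTree V)

lemma par_iter_pre (n : ℕ) : T.par^[n] T.pre = T.pre := by
  induction n with
  | zero => rfl
  | succ n ih => rw [Function.iterate_succ_apply, T.par_pre, ih]

lemma par_iter_ge {v : V} {m n : ℕ} (h : T.par^[m] v = T.pre) (hmn : m ≤ n) :
    T.par^[n] v = T.pre := by
  obtain ⟨k, rfl⟩ := Nat.exists_eq_add_of_le hmn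
  rw [Nat.add_comm, Function.iterate_add_apply, h, par_iter_pre]

/-- no cycles -/
lemma no_cycle {v : V} (hv : v ≠ T.pre) (n : ℕ) : T.par^[n + 1] v ≠ v := by
  intro h
  obtain ⟨m, hm⟩ := T.reach v
  have h2 : ∀ k : ℕ, T.par^[(n + 1) * k] v = v := by
    intro k
    induction k with
    | zero => rfl
    | succ k ih => rw [Nat.mul_succ, Function.iterate_add_apply, h, ih]
  have h3 := h2 m
  rw [par_iter_ge T hm (by nlinarith)] at h3
  exact hv h3.symm

lemma path_vert_subset {x : T.Pt} {α : T.Edge} (h : α ∈ T.path x) :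
    T.path (.vert α.1) ⊆ T.path x := by
  rintro β ⟨m, hm⟩
  cases x with
  | vert y =>
    obtain ⟨n, hn⟩ := h
    refine ⟨m + n, ?_⟩
    rw [Function.iterate_add_apply, hn, hm]
  | bd r =>
    obtain ⟨n, hn⟩ := h
    have key : ∀ m n : ℕ, T.par^[m] (r.1 (n + 1)) ≠ T.pre → ∃ k, r.1 (k + 1) =
        T.par^[m] (r.1 (n + 1)) := by
      intro m
      induction m with
      | zero => intro n _; exact ⟨n, rfl⟩
      | succ m ih =>
        intro n hne
        rw [Function.iterate_succ_apply, (r.2.2 n).2] at hne ⊢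
        cases n with
        | zero =>
          rw [r.2.1, par_iter_pre] at hne
          exact absurd rfl hne
        | succ n => exact ih n hne
    obtain ⟨k, hk⟩ := key m n (by rw [hn, hm]; exact β.2)
    exact ⟨k, by rw [hk, hn, hm]⟩

lemma path_pre : T.path (.vert T.pre) = ∅ := by
  ext e
  simp only [RTree.path, mem_ofPred_eq, mem_empty_iff_false, iff_false, not_exists]
  intro n h
  rw [par_iter_pre] at h
  exact e.2 h.symm

lemma path_vert {v : V} (hv : v ≠ T.pre) :
    T.path (.vert v) = insert (⟨v, hv⟩ : T.Edge) (T.path (.vert (T.par v))) := by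
  ext e
  constructor
  · rintro ⟨n, hn⟩
    cases n with
    | zero => left; exact Subtype.ext hn.symm
    | succ n => right; exact ⟨n, by rw [← hn]; rfl⟩
  · rintro (h | ⟨n, hn⟩)
    · exact ⟨0, by rw [h]; rfl⟩
    · exact ⟨n + 1, hn⟩

lemma not_mem_path_par {v : V} (hv : v ≠ T.pre) :
    (⟨v, hv⟩ : T.Edge) ∉ T.path (.vert (T.par v)) := by
  rintro ⟨n, hn⟩
  exact no_cycle T hv n hn

lemma mem_path_self (α : T.Edge) : α ∈ T.path (.vert α.1) := ⟨0, rfl⟩

/-- induction along the tree -/
lemma tree_induction (P : V → Prop) (h0 : P T.pre)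
    (h1 : ∀ v, v ≠ T.pre → P (T.par v) → P v) (v : V) : P v := by
  obtain ⟨n, hn⟩ := T.reach v
  induction n generalizing v with
  | zero => rw [show v = T.pre from hn]; exact h0
  | succ n ih =>
    by_cases hv : v = T.pre
    · rw [hv]; exact h0
    · exact h1 v hv (ih (T.par v) hn)

lemma path_finite (v : V) : (T.path (.vert v)).Finite := by
  refine tree_induction T (fun v => (T.path (.vert v)).Finite) ?_ ?_ v
  · rw [path_pre]; exact finite_empty
  · intro v hv ih
    rw [path_vert T hv]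
    exact ih.insert _

/-- the edges of a geodesic form a chain -/
lemma chain {x : T.Pt} {α β : T.Edge} (hα : α ∈ T.path x) (hβ : β ∈ T.path x) :
    α ∈ T.path (.vert β.1) ∨ β ∈ T.path (.vert α.1) := by
  cases x with
  | vert y =>
    obtain ⟨m, hm⟩ := hα
    obtain ⟨n, hn⟩ := hβ
    rcases le_total m n with h | h
    · right
      obtain ⟨k, rfl⟩ := Nat.exists_eq_add_of_le h
      exact ⟨k, by rw [← hm, ← Function.iterate_add_apply, Nat.add_comm, hn]⟩
    · left
      obtain ⟨k, rfl⟩ := Nat.exists_eq_add_of_le h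
      exact ⟨k, by rw [← hn, ← Function.iterate_add_apply, Nat.add_comm, hm]⟩
  | bd r =>
    obtain ⟨m, hm⟩ := hα
    obtain ⟨n, hn⟩ := hβ
    have key : ∀ k n : ℕ, T.par^[k] (r.1 (n + k + 1)) = r.1 (n + 1) := by
      intro k
      induction k with
      | zero => intro n; rfl
      | succ k ih =>
        intro n
        rw [Function.iterate_succ_apply, show n + (k + 1) + 1 = (n + k + 1) + 1 from rfl,
          (r.2.2 (n + k + 1)).2, ih]
    rcases le_total m n with h | h
    · left
      obtain ⟨k, rfl⟩ := Nat.exists_eq_add_of_le h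
      exact ⟨k, by rw [← hn, key, hm]⟩
    · right
      obtain ⟨k, rfl⟩ := Nat.exists_eq_add_of_le h
      exact ⟨k, by rw [← hm, key, hn]⟩

lemma path_vert_ncard_lt {α β : T.Edge} (h : α ∈ T.path (.vert β.1)) (hne : α ≠ β) :
    (T.path (.vert α.1)).ncard < (T.path (.vert β.1)).ncard := by
  apply Set.ncard_lt_ncard _ (path_finite T β.1)
  refine ⟨path_vert_subset T h, ?_⟩
  intro hsub
  have h1 : β ∈ T.path (.vert α.1) := hsub (mem_path_self T β)
  obtain ⟨m, hm⟩ := h
  obtain ⟨n, hn⟩ := h1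
  have h2 : T.par^[n + m] β.1 = β.1 := by
    rw [Function.iterate_add_apply, hm, hn]
  cases hk : n + m with
  | zero =>
    have : m = 0 := by omega
    subst this
    exact hne (Subtype.ext hm.symm)
  | succ k =>
    rw [hk] at h2
    exact no_cycle T β.2 k h2

/-- A finite union of successor sets is the union of a disjoint subfamily. -/
lemma exists_disjoint (A : Finset T.Edge) :
    ∃ B : Finset T.Edge, B ⊆ A ∧ (B : Set T.Edge).PairwiseDisjoint T.S ∧
      (⋃ α ∈ B, T.S α) = ⋃ α ∈ A, T.S α := by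
  classical
  refine ⟨A.filter (fun α => ∀ β ∈ A, β ∈ T.path (.vert α.1) → β = α),
    Finset.filter_subset _ _, ?_, ?_⟩
  · intro α hα β hβ hne
    simp only [Finset.coe_filter, mem_ofPred_eq] at hα hβ
    rw [Function.onFun, Set.disjoint_left]
    intro x hx hy
    rcases chain T (show α ∈ T.path x from hx) (show β ∈ T.path x from hy) with h | h
    · exact hne (hβ.2 α hα.1 h)
    · exact hne (hα.2 β hβ.1 h).symm
  · apply subset_antisymm
    · apply biUnion_subset_biUnion_left
      intro α hα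
      exact (Finset.mem_filter.mp hα).1
    · intro x hx
      simp only [mem_iUnion] at hx
      obtain ⟨α, hα, hx⟩ := hx
      obtain ⟨β, hβ, hmin⟩ := Finset.exists_min_image (A.filter (fun α => α ∈ T.path x))
        (fun β => (T.path (.vert β.1)).ncard) ⟨α, Finset.mem_filter.mpr ⟨hα, hx⟩⟩
      rw [Finset.mem_filter] at hβ
      simp only [mem_iUnion]
      refine ⟨β, ?_, hβ.2⟩
      rw [Finset.mem_filter]
      refine ⟨hβ.1, ?_⟩
      intro γ hγ hγβ
      by_contra hne
      have h1 := path_vert_ncard_lt T hγβ hne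
      have h2 := hmin γ (Finset.mem_filter.mpr ⟨hγ, path_vert_subset T hβ.2 hγβ⟩)
      omega

lemma measurableSet_S (α : T.Edge) : MeasurableSet (T.S α) :=
  (TopologicalSpace.isOpen_generateFrom_of_mem (Or.inl ⟨α, rfl⟩)).measurableSet

lemma I_eq (φ : T.Edge → ℝ≥0) (x : T.Pt) :
    T.I φ x = ∑' α : T.Edge, (T.S α).indicator (fun _ => (φ α : ℝ≥0∞)) x := by
  rw [RTree.I, tsum_subtype (T.path x) (fun α => (φ α : ℝ≥0∞))]
  rfl

lemma measurable_I [Countable V] (φ : T.Edge → ℝ≥0) : Measurable (T.I φ) := by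
  have : T.I φ = fun x => ∑' α : T.Edge, (T.S α).indicator (fun _ => (φ α : ℝ≥0∞)) x := by
    funext x; exact I_eq T φ x
  rw [this]
  exact Measurable.tsum fun α => measurable_const.indicator (measurableSet_S T α)

lemma I_mono_path (φ : T.Edge → ℝ≥0) {x y : T.Pt} (h : T.path x ⊆ T.path y) :
    T.I φ x ≤ T.I φ y := by
  rw [RTree.I, RTree.I, tsum_subtype (T.path x) (fun α => (φ α : ℝ≥0∞)),
    tsum_subtype (T.path y) (fun α => (φ α : ℝ≥0∞))]
  exact ENNReal.tsum_le_tsum fun α => indicator_le_indicator_of_subset h (fun _ => zero_le) α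

lemma I_pre (φ : T.Edge → ℝ≥0) : T.I φ (.vert T.pre) = 0 := by
  rw [RTree.I, tsum_subtype (T.path (.vert T.pre)) (fun α => (φ α : ℝ≥0∞)), path_pre]
  simp

lemma I_vert (φ : T.Edge → ℝ≥0) {v : V} (hv : v ≠ T.pre) :
    T.I φ (.vert v) = φ ⟨v, hv⟩ + T.I φ (.vert (T.par v)) := by
  classical
  rw [RTree.I, RTree.I, path_vert T hv]
  rw [show (insert (⟨v, hv⟩ : T.Edge) (T.path (.vert (T.par v)))) =
    {(⟨v, hv⟩ : T.Edge)} ∪ T.path (.vert (T.par v)) from rfl]
  rw [ENNReal.summable.tsum_union_disjoint (f := fun α : T.Edge => (φ α : ℝ≥0∞))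
    (Set.disjoint_singleton_left.mpr (not_mem_path_par T hv)) ENNReal.summable]
  rw [tsum_singleton (⟨v, hv⟩ : T.Edge) (fun α => (φ α : ℝ≥0∞))]

/-- the potential of a function at a vertex, as a real number -/
noncomputable def u (φ : T.Edge → ℝ≥0) (v : V) : ℝ := (T.I φ (.vert v)).toReal

lemma I_ne_top (φ : T.Edge → ℝ≥0) (v : V) : T.I φ (.vert v) ≠ ⊤ := by
  refine tree_induction T (fun v => T.I φ (.vert v) ≠ ⊤) ?_ ?_ v
  · rw [I_pre]; simp
  · intro v hv ih
    rw [I_vert T φ hv]
    exact ENNReal.add_ne_top.mpr ⟨ENNReal.coe_ne_top, ih⟩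

lemma u_pre (φ : T.Edge → ℝ≥0) : u T φ T.pre = 0 := by
  rw [u, I_pre]; rfl

lemma u_vert (φ : T.Edge → ℝ≥0) {v : V} (hv : v ≠ T.pre) :
    u T φ v = φ ⟨v, hv⟩ + u T φ (T.par v) := by
  rw [u, I_vert T φ hv, ENNReal.toReal_add ENNReal.coe_ne_top (I_ne_top T φ _)]
  rfl

lemma u_nonneg (φ : T.Edge → ℝ≥0) (v : V) : 0 ≤ u T φ v := ENNReal.toReal_nonneg

lemma u_par_le (φ : T.Edge → ℝ≥0) {v : V} (hv : v ≠ T.pre) : u T φ (T.par v) ≤ u T φ v := by
  rw [u_vert T φ hv]
  have : (0 : ℝ) ≤ φ ⟨v, hv⟩ := (φ ⟨v, hv⟩).2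
  linarith

/-- telescoping -/
lemma telescope (φ : T.Edge → ℝ≥0) (g : ℝ → ℝ) (hg : Monotone g) (g0 : g 0 = 0) (v : V) :
    T.I (fun α => (g (u T φ α.1) - g (u T φ (T.par α.1))).toNNReal) (.vert v) =
      ENNReal.ofReal (g (u T φ v)) := by
  refine tree_induction T (fun v => T.I (fun α => (g (u T φ α.1) -
    g (u T φ (T.par α.1))).toNNReal) (.vert v) = ENNReal.ofReal (g (u T φ v))) ?_ ?_ v
  · rw [I_pre, u_pre, g0]; simp
  · intro v hv ih
    rw [I_vert T _ hv, ih]
    have h1 : 0 ≤ g (u T φ v) - g (u T φ (T.par v)) :=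
      sub_nonneg.mpr (hg (u_par_le T φ hv))
    have h2 : 0 ≤ g (u T φ (T.par v)) := by
      rw [← g0]; exact hg (u_nonneg T φ _)
    change ENNReal.ofReal (g (u T φ v) - g (u T φ (T.par v))) + _ = _
    rw [← ENNReal.ofReal_add h1 h2]
    congr 1; ring

/-- if the potential exceeds `t` at `x` it does so at some edge of the geodesic to `x` -/
lemma exists_edge (φ : T.Edge → ℝ≥0) (x : T.Pt) (t : ℝ) (ht : 0 ≤ t)
    (h : ENNReal.ofReal t < T.I φ x) : ∃ α : T.Edge, t < u T φ α.1 ∧ x ∈ T.S α := by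
  classical
  rw [RTree.I, ENNReal.tsum_eq_iSup_sum, lt_iSup_iff] at h
  obtain ⟨s, hs⟩ := h
  by_cases hse : s.Nonempty
  · obtain ⟨α, hα, hmax⟩ := Finset.exists_max_image s
      (fun α => (T.path (.vert α.1.1)).ncard) hse
    refine ⟨α.1, ?_, α.2⟩
    have hsub : ∀ β ∈ s, β.1 ∈ T.path (.vert α.1.1) := by
      intro β hβ
      rcases chain T β.2 α.2 with h | h
      · exact h
      · by_cases hne : α.1 = β.1
        · rw [← hne]; exact mem_path_self T α.1
        · have h1 := path_vert_ncard_lt T h hne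
          have h2 := hmax β hβ
          omega
    have h3 : ∑ a ∈ s, (φ a : ℝ≥0∞) ≤ T.I φ (.vert α.1.1) := by
      rw [RTree.I]
      let f : s → T.path (.vert α.1.1) := fun β => ⟨β.1.1, hsub β.1 β.2⟩
      have hf : Function.Injective f := by
        intro a b hab
        have : a.1.1 = b.1.1 := congrArg (fun z : T.path (.vert α.1.1) => z.1) hab
        exact Subtype.ext (Subtype.ext this)
      calc ∑ a ∈ s, (φ a : ℝ≥0∞) = ∑' a : s, (φ (f a) : ℝ≥0∞) := by
            rw [tsum_fintype, ← Finset.sum_coe_sort s (fun a => (φ a : ℝ≥0∞))]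
        _ ≤ ∑' β : T.path (.vert α.1.1), (φ β : ℝ≥0∞) :=
            ENNReal.tsum_comp_le_tsum_of_injective hf _
    have h4 : ENNReal.ofReal t < T.I φ (.vert α.1.1) := lt_of_lt_of_le hs h3
    rw [u]
    exact (ENNReal.ofReal_lt_iff_lt_toReal ht (I_ne_top T φ _)).mp h4
  · rw [Finset.not_nonempty_iff_eq_empty] at hse
    subst hse
    simp at hs

end Pool.Agent.V11265.IC
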