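import Mathlib

/-!
# The one-dimensional inequality behind the strong capacitary inequality (MP_a9eb04_an).
-/

open MeasureTheory Set Filter
open scoped ENNReal NNReal Topology

namespace Pool.Agent.V11265.IC

/-- the constant `p^p/(p-1)^(p-1)` -/
noncomputable def K (p : ℝ) : ℝ := p ^ p / (p - 1) ^ (p - 1)

lemma K_eq (p : ℝ) (hp : 1 < p) : K p = (p / (p - 1)) ^ p * (p - 1) := by
  have h0 : 0 < p - 1 := by linarith
  rw [K, Real.div_rpow (by linarith) h0.le, Real.rpow_sub_one h0.ne']
  have : (p - 1) ^ p ≠ 0 := (Real.rpow_pos_of_pos h0 _).ne'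
  field_simp

lemma K_pos (p : ℝ) (hp : 1 < p) : 0 < K p := by
  have h0 : 0 < p - 1 := by linarith
  rw [K]; positivity

lemma Ioc_min (a b t : ℝ) : Ioc (min a t) (min b t) = Ioc a b ∩ Iic t := by
  ext s
  simp only [mem_Ioc, mem_inter_iff, mem_Iic, min_lt_iff, le_min_iff]
  constructor
  · rintro ⟨h | h, h1, h2⟩
    · exact ⟨⟨h, h1⟩, h2⟩
    · linarith
  · rintro ⟨⟨h, h1⟩, h2⟩
    exact ⟨Or.inl h, h1, h2⟩

lemma ftc (q : ℝ) (hq : 1 < q) (a b : ℝ) (ha : 0 ≤ a) (hab : a ≤ b) :
    ENNReal.ofReal (b ^ q - a ^ q) = ∫⁻ s in Ioc a b, ENNReal.ofReal (q * s ^ (q - 1)) := by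
  have h1 : ∫ s in a..b, q * s ^ (q - 1) = b ^ q - a ^ q := by
    rw [intervalIntegral.integral_const_mul, integral_rpow (Or.inl (by linarith))]
    have : q - 1 + 1 = q := by ring
    rw [this]
    field_simp
  rw [← h1, intervalIntegral.integral_of_le hab]
  rw [ofReal_integral_eq_lintegral_ofReal]
  · have h2 : IntervalIntegrable (fun s : ℝ => q * s ^ (q - 1)) volume a b :=
      (intervalIntegral.intervalIntegrable_rpow' (by linarith)).const_mul q
    exact h2.1
  · rw [EventuallyLE, ae_restrict_iff' measurableSet_Ioc]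
    refine ae_of_all _ fun s hs => ?_
    have : 0 ≤ s := ha.trans hs.1.le
    positivity

lemma holder (p : ℝ) (hp : 1 < p) (A : Set ℝ) (f : ℝ → ℝ≥0∞)
    (hf : Measurable f) :
    (∫⁻ s in A, f s) ^ p ≤ (volume A) ^ (p - 1) * ∫⁻ s in A, f s ^ p := by
  have hpq : p.HolderConjugate (p / (p - 1)) := Real.HolderConjugate.conjExponent hp
  have h := ENNReal.lintegral_mul_le_Lp_mul_Lq (volume.restrict A) hpq
    (f := f) (g := fun _ => 1) hf.aemeasurable aemeasurable_const
  simp only [Pi.mul_apply, mul_one, ENNReal.one_rpow, lintegral_const, one_mul,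
    Measure.restrict_apply MeasurableSet.univ, univ_inter] at h
  have h2 := ENNReal.rpow_le_rpow h (by linarith : 0 ≤ p)
  refine h2.trans ?_
  rw [ENNReal.mul_rpow_of_nonneg _ _ (by linarith), ← ENNReal.rpow_mul, ← ENNReal.rpow_mul,
    mul_comm]
  have e1 : 1 / p * p = 1 := by field_simp
  have h0 : p - 1 ≠ 0 := by linarith
  have e2 : 1 / (p / (p - 1)) * p = p - 1 := by field_simp
  rw [e1, e2, ENNReal.rpow_one]

lemma inner (c q s : ℝ) (hc : 0 ≤ c) (hq : 0 < q) (hs : 0 < s) :
    ∫⁻ t in Ioi (0 : ℝ), (Ici s).indicator (fun t => ENNReal.ofReal (c * t ^ (-q - 1))) t =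
      ENNReal.ofReal (c / q * s ^ (-q)) := by
  rw [lintegral_indicator measurableSet_Ici, Measure.restrict_restrict measurableSet_Ici]
  have : Ici s ∩ Ioi 0 = Ici s := by
    ext t; simp only [mem_inter_iff, mem_Ici, mem_Ioi]
    exact ⟨fun h => h.1, fun h => ⟨h, hs.trans_le h⟩⟩
  rw [this, ← setLIntegral_congr Ioi_ae_eq_Ici]
  have h1 := integral_Ioi_rpow_of_lt (a := -q - 1) (by linarith) hs
  have h2 : ∫ t in Ioi s, c * t ^ (-q - 1) = c / q * s ^ (-q) := by
    rw [integral_const_mul, h1]
    have : -q - 1 + 1 = -q := by ring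
    rw [this]
    field_simp
  rw [← h2, ofReal_integral_eq_lintegral_ofReal]
  · exact (integrableOn_Ioi_rpow_of_lt (by linarith) hs).const_mul c
  · rw [EventuallyLE, ae_restrict_iff' measurableSet_Ioi]
    refine ae_of_all _ fun t ht => ?_
    have : 0 < t := hs.trans ht
    positivity

lemma core (p : ℝ) (hp : 1 < p) (a b : ℝ) (ha : 0 ≤ a) (hab : a ≤ b) :
    ∫⁻ t in Ioi (0 : ℝ), ENNReal.ofReal (p * t ^ (p - 1)) *
        (ENNReal.ofReal (((min b t) ^ (p / (p - 1)) - (min a t) ^ (p / (p - 1))) /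
          t ^ (p / (p - 1)))) ^ p
      ≤ ENNReal.ofReal (K p) * (ENNReal.ofReal (b - a)) ^ p := by
  have h0 : 0 < p - 1 := by linarith
  set q : ℝ := p / (p - 1) with hq
  have hq1 : 1 < q := by rw [hq, lt_div_iff₀ h0]; linarith
  have hpq : p * q = p + q := by rw [hq]; field_simp; ring
  have hpq1 : (q - 1) * p = q := by linarith
  -- pointwise bound
  have step : ∀ t ∈ Ioi (0 : ℝ), ENNReal.ofReal (p * t ^ (p - 1)) *
        (ENNReal.ofReal (((min b t) ^ q - (min a t) ^ q) / t ^ q)) ^ p ≤
      ENNReal.ofReal (b - a) ^ (p - 1) * ∫⁻ s in Ioc a b, (Ici s).indicator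
        (fun t => ENNReal.ofReal (p * t ^ (-q - 1))) t * ENNReal.ofReal (q ^ p * s ^ q) := by
    intro t ht
    rw [mem_Ioi] at ht
    have hma : 0 ≤ min a t := le_min ha ht.le
    have hmab : min a t ≤ min b t := min_le_min_right t hab
    have h1 : ENNReal.ofReal (((min b t) ^ q - (min a t) ^ q) / t ^ q) =
        ENNReal.ofReal (t ^ (-q)) * ∫⁻ s in Ioc a b ∩ Iic t, ENNReal.ofReal (q * s ^ (q - 1)) := by
      rw [← Ioc_min, ← ftc q hq1 _ _ hma hmab, ← ENNReal.ofReal_mul (by positivity),
        Real.rpow_neg ht.le]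
      congr 1; field_simp
    have h2 := holder p hp (Ioc a b ∩ Iic t) (fun s => ENNReal.ofReal (q * s ^ (q - 1)))
      (by fun_prop)
    have h3 : volume (Ioc a b ∩ Iic t) ≤ ENNReal.ofReal (b - a) := by
      rw [← Real.volume_Ioc]; exact measure_mono inter_subset_left
    have h4 : ∫⁻ s in Ioc a b ∩ Iic t, ENNReal.ofReal (q * s ^ (q - 1)) ^ p =
        ∫⁻ s in Ioc a b, (Iic t).indicator (fun s => ENNReal.ofReal (q ^ p * s ^ q)) s := by
      rw [lintegral_indicator measurableSet_Iic, Measure.restrict_restrict measurableSet_Iic,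
        inter_comm]
      refine setLIntegral_congr_fun (measurableSet_Iic.inter measurableSet_Ioc) fun s hs => ?_
      have hs0 : 0 ≤ s := ha.trans hs.2.1.le
      rw [ENNReal.ofReal_rpow_of_nonneg (by positivity) (by linarith),
        Real.mul_rpow (by linarith) (by positivity), ← Real.rpow_mul hs0, hpq1]
    rw [h1, ENNReal.mul_rpow_of_nonneg _ _ (by linarith),
      ENNReal.ofReal_rpow_of_nonneg (by positivity) (by linarith), ← Real.rpow_mul ht.le]
    rw [← mul_assoc, ← ENNReal.ofReal_mul (by positivity)]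
    have h5 : p * t ^ (p - 1) * t ^ (-q * p) = p * t ^ (-q - 1) := by
      rw [mul_assoc, ← Real.rpow_add ht]
      congr 2; linarith
    rw [h5]
    calc ENNReal.ofReal (p * t ^ (-q - 1)) *
          (∫⁻ s in Ioc a b ∩ Iic t, ENNReal.ofReal (q * s ^ (q - 1))) ^ p
        ≤ ENNReal.ofReal (p * t ^ (-q - 1)) * (ENNReal.ofReal (b - a) ^ (p - 1) *
          ∫⁻ s in Ioc a b, (Iic t).indicator (fun s => ENNReal.ofReal (q ^ p * s ^ q)) s) := by
          rw [← h4]
          gcongr
          refine h2.trans ?_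
          gcongr
      _ = ENNReal.ofReal (b - a) ^ (p - 1) * (ENNReal.ofReal (p * t ^ (-q - 1)) *
          ∫⁻ s in Ioc a b, (Iic t).indicator (fun s => ENNReal.ofReal (q ^ p * s ^ q)) s) := by
          ring
      _ = ENNReal.ofReal (b - a) ^ (p - 1) * ∫⁻ s in Ioc a b, (Ici s).indicator
        (fun t => ENNReal.ofReal (p * t ^ (-q - 1))) t * ENNReal.ofReal (q ^ p * s ^ q) := by
          rw [← lintegral_const_mul _ (Measurable.indicator (by fun_prop) measurableSet_Iic)]
          congr 1
          refine lintegral_congr fun s => ?_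
          by_cases hst : s ≤ t
          · rw [indicator_of_mem (show s ∈ Iic t from hst),
              indicator_of_mem (show t ∈ Ici s from hst)]
          · rw [indicator_of_notMem (show s ∉ Iic t from hst),
              indicator_of_notMem (show t ∉ Ici s from hst)]
            simp
  calc ∫⁻ t in Ioi (0 : ℝ), ENNReal.ofReal (p * t ^ (p - 1)) *
        (ENNReal.ofReal (((min b t) ^ q - (min a t) ^ q) / t ^ q)) ^ p
      ≤ ∫⁻ t in Ioi (0 : ℝ), ENNReal.ofReal (b - a) ^ (p - 1) * ∫⁻ s in Ioc a b, (Ici s).indicator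
        (fun t => ENNReal.ofReal (p * t ^ (-q - 1))) t * ENNReal.ofReal (q ^ p * s ^ q) :=
        setLIntegral_mono' measurableSet_Ioi step
    _ = ENNReal.ofReal (b - a) ^ (p - 1) * ∫⁻ t in Ioi (0 : ℝ), ∫⁻ s in Ioc a b, (Ici s).indicator
        (fun t => ENNReal.ofReal (p * t ^ (-q - 1))) t * ENNReal.ofReal (q ^ p * s ^ q) := by
        apply lintegral_const_mul' _ _ (by finiteness)
    _ = ENNReal.ofReal (b - a) ^ (p - 1) * ∫⁻ s in Ioc a b, ∫⁻ t in Ioi (0 : ℝ), (Ici s).indicator
        (fun t => ENNReal.ofReal (p * t ^ (-q - 1))) t * ENNReal.ofReal (q ^ p * s ^ q) := by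
        congr 1
        apply lintegral_lintegral_swap
        apply Measurable.aemeasurable
        have hS : MeasurableSet {z : ℝ × ℝ | z.2 ≤ z.1} :=
          measurableSet_le measurable_snd measurable_fst
        have : (Function.uncurry fun (t s : ℝ) => (Ici s).indicator
            (fun t => ENNReal.ofReal (p * t ^ (-q - 1))) t * ENNReal.ofReal (q ^ p * s ^ q)) =
            fun z : ℝ × ℝ => {z : ℝ × ℝ | z.2 ≤ z.1}.indicator
              (fun z => ENNReal.ofReal (p * z.1 ^ (-q - 1))) z *
                ENNReal.ofReal (q ^ p * z.2 ^ q) := by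
          funext z
          simp only [Function.uncurry, indicator, mem_Ici, mem_ofPred_eq]
        rw [this]
        exact (Measurable.indicator (by fun_prop) hS).mul (by fun_prop)
    _ = ENNReal.ofReal (b - a) ^ (p - 1) * ∫⁻ s in Ioc a b, ENNReal.ofReal (K p) := by
        congr 1
        refine setLIntegral_congr_fun measurableSet_Ioc fun s hs => ?_
        have hs0 : 0 < s := ha.trans_lt hs.1
        rw [lintegral_mul_const' _ _ (by finiteness), inner p q s (by linarith) (by linarith) hs0,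
          ← ENNReal.ofReal_mul (by positivity), K_eq p hp, ← hq]
        congr 1
        rw [Real.rpow_neg hs0.le]
        have : p / q = p - 1 := by rw [hq]; field_simp
        rw [this]
        have : s ^ q ≠ 0 := (Real.rpow_pos_of_pos hs0 _).ne'
        field_simp
    _ = ENNReal.ofReal (K p) * (ENNReal.ofReal (b - a)) ^ p := by
        rw [setLIntegral_const, Real.volume_Ioc]
        rcases hab.eq_or_lt with rfl | hlt
        · simp [ENNReal.zero_rpow_of_pos (show 0 < p by linarith)]
        · have h6 : ENNReal.ofReal (b - a) ≠ 0 := by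
            simp only [ne_eq, ENNReal.ofReal_eq_zero, not_le]; linarith
          have h7 : ENNReal.ofReal (b - a) ^ p = ENNReal.ofReal (b - a) ^ (p - 1) *
              ENNReal.ofReal (b - a) := by
            conv_lhs => rw [show p = (p - 1) + 1 by ring]
            rw [ENNReal.rpow_add _ _ h6 ENNReal.ofReal_ne_top, ENNReal.rpow_one]
          rw [h7]; ring

end Pool.Agent.V11265.IC
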