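import Pool.Agent.V11265.IC1
import Pool.Agent.V11265.IC2

/-!
# The upper bound `[μ] ≤ p^p/(p-1)^(p-1) [[μ]]_c` (MP_a9eb04_an).
-/

open MeasureTheory Set Filter
open scoped ENNReal NNReal Topology

namespace Pool.Agent.V11265.IC

variable {V : Type} (T : RTree V)

lemma one_le_I (φ : T.Edge → ℝ≥0) {x : T.Pt} {α : T.Edge} (h : x ∈ T.S α)
    (h1 : 1 ≤ T.I φ (.vert α.1)) : 1 ≤ T.I φ x :=
  h1.trans (I_mono_path T φ (path_vert_subset T h))

lemma cap_ne_top (p : ℝ) (hp : 1 < p) (π : T.Edge → ℝ≥0) (B : Finset T.Edge) :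
    T.cap p π (⋃ α ∈ B, T.S α) ≠ ⊤ := by
  classical
  let φ : T.Edge → ℝ≥0 := fun α => if α ∈ B then 1 else 0
  have h1 : T.cap p π (⋃ α ∈ B, T.S α) ≤ T.energy p π φ := by
    refine iInf₂_le φ ?_
    intro x hx
    simp only [mem_iUnion] at hx
    obtain ⟨α, hα, hx⟩ := hx
    refine one_le_I T φ hx ?_
    rw [I_vert T φ α.2]
    have : φ ⟨α.1, α.2⟩ = 1 := by simp [φ, hα]
    rw [this]
    simp
  refine ne_top_of_le_ne_top ?_ h1
  rw [RTree.energy, tsum_eq_sum (s := B)]
  · refine ENNReal.sum_ne_top.mpr ?_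
    intro α _
    refine ENNReal.mul_ne_top ?_ ENNReal.coe_ne_top
    exact ENNReal.rpow_ne_top_of_nonneg (by linarith) ENNReal.coe_ne_top
  · intro α hα
    have : φ α = 0 := by simp [φ, hα]
    rw [this, ENNReal.coe_zero, ENNReal.zero_rpow_of_pos (by linarith), zero_mul]

lemma measure_union_le (p : ℝ) (hp : 1 < p) (π : T.Edge → ℝ≥0) (μ : Measure T.Pt)
    (hC : T.isoConst p π μ ≠ ⊤) (A : Finset T.Edge) :
    μ (⋃ α ∈ A, T.S α) ≤ T.isoConst p π μ * T.cap p π (⋃ α ∈ A, T.S α) := by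
  obtain ⟨B, -, hB, hAB⟩ := exists_disjoint T A
  rw [← hAB]
  refine (measure_biUnion_finset_le B _).trans ?_
  rw [← ENNReal.div_le_iff_le_mul (Or.inr hC) (Or.inl (cap_ne_top T p hp π B))]
  exact le_iSup₂ (f := fun (s : Finset T.Edge) (_ : (s : Set T.Edge).PairwiseDisjoint T.S) =>
    (∑ α ∈ s, μ (T.S α)) / T.cap p π (⋃ α ∈ s, T.S α)) B hB

/-- the cut-off function -/
noncomputable def g (q t s : ℝ) : ℝ := (max (min s t) 0) ^ q / t ^ q

lemma g_mono (q t : ℝ) (hq : 0 < q) (ht : 0 < t) : Monotone (g q t) := by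
  intro a b hab
  unfold g
  gcongr

lemma g_zero (q t : ℝ) (hq : 0 < q) (ht : 0 < t) : g q t 0 = 0 := by
  unfold g
  rw [min_eq_left ht.le, max_self, Real.zero_rpow hq.ne', zero_div]

lemma g_of_lt (q t s : ℝ) (ht : 0 < t) (h : t < s) : g q t s = 1 := by
  unfold g
  rw [min_eq_right h.le, max_eq_left ht.le, div_self (Real.rpow_pos_of_pos ht _).ne']

lemma g_sub (q t a b : ℝ) (ht : 0 < t) (ha : 0 ≤ a) (hb : 0 ≤ b) :
    g q t b - g q t a = ((min b t) ^ q - (min a t) ^ q) / t ^ q := by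
  unfold g
  rw [max_eq_left (le_min hb ht.le), max_eq_left (le_min ha ht.le), sub_div]

/-- the level set estimate -/
lemma level (p : ℝ) (hp : 1 < p) [Countable V] (π : T.Edge → ℝ≥0) (μ : Measure T.Pt)
    (hC : T.isoConst p π μ ≠ ⊤) (φ : T.Edge → ℝ≥0) (t : ℝ) (ht : 0 < t) :
    μ {x | ENNReal.ofReal t < T.I φ x} ≤ T.isoConst p π μ * ∑' α : T.Edge,
      (ENNReal.ofReal (((min (u T φ α.1) t) ^ (p / (p - 1)) -
        (min (u T φ (T.par α.1)) t) ^ (p / (p - 1))) / t ^ (p / (p - 1)))) ^ p * (π α : ℝ≥0∞) := by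
  classical
  have h0 : 0 < p - 1 := by linarith
  set q : ℝ := p / (p - 1) with hq
  have hq1 : 1 < q := by rw [hq, lt_div_iff₀ h0]; linarith
  let ψ : T.Edge → ℝ≥0 := fun α => (g q t (u T φ α.1) - g q t (u T φ (T.par α.1))).toNNReal
  have hE : T.energy p π ψ = ∑' α : T.Edge,
      (ENNReal.ofReal (((min (u T φ α.1) t) ^ q -
        (min (u T φ (T.par α.1)) t) ^ q) / t ^ q)) ^ p * (π α : ℝ≥0∞) := by
    rw [RTree.energy]
    refine tsum_congr fun α => ?_
    rw [← g_sub q t _ _ ht (u_nonneg T φ _) (u_nonneg T φ _)]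
    rfl
  rw [← hE]
  let F : Finset T.Edge → Set T.Pt := fun A => ⋃ α ∈ A.filter (fun α => t < u T φ α.1), T.S α
  have hsub : {x | ENNReal.ofReal t < T.I φ x} ⊆ ⋃ A, F A := by
    intro x hx
    obtain ⟨α, h1, h2⟩ := exists_edge T φ x t ht.le hx
    simp only [mem_iUnion, F]
    exact ⟨{α}, α, by simp [h1], h2⟩
  refine (measure_mono hsub).trans ?_
  rw [Directed.measure_iUnion]
  · refine iSup_le fun A => ?_
    refine (measure_union_le T p hp π μ hC _).trans ?_
    gcongr
    refine iInf₂_le ψ ?_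
    intro x hx
    simp only [mem_iUnion, Finset.mem_filter] at hx
    obtain ⟨α, ⟨_, hα⟩, hx⟩ := hx
    refine one_le_I T ψ hx ?_
    rw [telescope T φ (g q t) (g_mono q t (by linarith) ht) (g_zero q t (by linarith) ht),
      g_of_lt q t _ ht hα, ENNReal.ofReal_one]
  · intro A B
    refine ⟨A ∪ B, ?_, ?_⟩
    · apply biUnion_subset_biUnion_left
      intro α hα
      exact Finset.mem_filter.mpr ⟨Finset.mem_union_left _ (Finset.mem_filter.mp hα).1,
        (Finset.mem_filter.mp hα).2⟩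
    · apply biUnion_subset_biUnion_left
      intro α hα
      exact Finset.mem_filter.mpr ⟨Finset.mem_union_right _ (Finset.mem_filter.mp hα).1,
        (Finset.mem_filter.mp hα).2⟩

theorem upper (p : ℝ) (hp : 1 < p) [Countable V] (π : T.Edge → ℝ≥0) (μ : Measure T.Pt) :
    T.hardyConst p π μ ≤ ENNReal.ofReal (K p) * T.isoConst p π μ := by
  by_cases hC : T.isoConst p π μ = ⊤
  · rw [hC, ENNReal.mul_top]
    · exact le_top
    · simpa using K_pos p hp
  have h0 : 0 < p - 1 := by linarith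
  refine sInf_le ?_
  intro φ
  -- the truncations
  have hmeas : Measurable (T.I φ) := measurable_I T φ
  have key : ∀ n : ℕ, ∫⁻ x, (min (T.I φ x) n) ^ p ∂μ ≤
      ENNReal.ofReal (K p) * T.isoConst p π μ * T.energy p π φ := by
    intro n
    have hfin : ∀ x, min (T.I φ x) n ≠ ⊤ := fun x =>
      ne_top_of_le_ne_top (ENNReal.natCast_ne_top n) (min_le_right _ _)
    let f : T.Pt → ℝ := fun x => (min (T.I φ x) n).toReal
    have hf : Measurable f := (hmeas.min measurable_const).ennreal_toReal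
    have h1 : ∫⁻ x, (min (T.I φ x) n) ^ p ∂μ = ∫⁻ x, ENNReal.ofReal (f x ^ p) ∂μ := by
      refine lintegral_congr fun x => ?_
      rw [← ENNReal.ofReal_rpow_of_nonneg ENNReal.toReal_nonneg (by linarith),
        ENNReal.ofReal_toReal (hfin x)]
    rw [h1, lintegral_rpow_eq_lintegral_meas_lt_mul μ
      (Eventually.of_forall fun x => ENNReal.toReal_nonneg) hf.aemeasurable (by linarith)]
    rw [← lintegral_const_mul' _ _ ENNReal.ofReal_ne_top]
    calc ∫⁻ t in Ioi (0 : ℝ), ENNReal.ofReal p * (μ {x | t < f x} * ENNReal.ofReal (t ^ (p - 1)))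
        ≤ ∫⁻ t in Ioi (0 : ℝ), T.isoConst p π μ * ∑' α : T.Edge,
          (π α : ℝ≥0∞) * (ENNReal.ofReal (p * t ^ (p - 1)) *
            (ENNReal.ofReal (((min (u T φ α.1) t) ^ (p / (p - 1)) -
        (min (u T φ (T.par α.1)) t) ^ (p / (p - 1))) / t ^ (p / (p - 1)))) ^ p) := by
          refine setLIntegral_mono' measurableSet_Ioi fun t ht => ?_
          have hsub : {x | t < f x} ⊆ {x | ENNReal.ofReal t < T.I φ x} := by
            intro x hx
            have h2 : ENNReal.ofReal t < min (T.I φ x) n :=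
              (ENNReal.ofReal_lt_iff_lt_toReal (le_of_lt ht) (hfin x)).mpr hx
            exact h2.trans_le (min_le_left _ _)
          have h3 := (measure_mono hsub).trans (level T p hp π μ hC φ t ht)
          calc ENNReal.ofReal p * (μ {x | t < f x} * ENNReal.ofReal (t ^ (p - 1)))
              ≤ ENNReal.ofReal p * ((T.isoConst p π μ * ∑' α : T.Edge,
      (ENNReal.ofReal (((min (u T φ α.1) t) ^ (p / (p - 1)) -
        (min (u T φ (T.par α.1)) t) ^ (p / (p - 1))) / t ^ (p / (p - 1)))) ^ p * (π α : ℝ≥0∞)) *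
          ENNReal.ofReal (t ^ (p - 1))) := by gcongr
            _ = T.isoConst p π μ * ((ENNReal.ofReal p * ENNReal.ofReal (t ^ (p - 1))) *
              ∑' α : T.Edge, (ENNReal.ofReal (((min (u T φ α.1) t) ^ (p / (p - 1)) -
        (min (u T φ (T.par α.1)) t) ^ (p / (p - 1))) / t ^ (p / (p - 1)))) ^ p *
          (π α : ℝ≥0∞)) := by ring
            _ = _ := by
              rw [← ENNReal.ofReal_mul (by linarith), ← ENNReal.tsum_mul_left]
              congr 1
              refine tsum_congr fun α => ?_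
              ring
      _ = T.isoConst p π μ * ∑' α : T.Edge, (π α : ℝ≥0∞) *
          ∫⁻ t in Ioi (0 : ℝ), (ENNReal.ofReal (p * t ^ (p - 1)) *
            (ENNReal.ofReal (((min (u T φ α.1) t) ^ (p / (p - 1)) -
        (min (u T φ (T.par α.1)) t) ^ (p / (p - 1))) / t ^ (p / (p - 1)))) ^ p) := by
          rw [lintegral_const_mul' _ _ hC, lintegral_tsum]
          · congr 1
            refine tsum_congr fun α => ?_
            rw [lintegral_const_mul' _ _ ENNReal.coe_ne_top]
          · intro α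
            fun_prop
      _ ≤ T.isoConst p π μ * ∑' α : T.Edge, (π α : ℝ≥0∞) *
          (ENNReal.ofReal (K p) * (φ α : ℝ≥0∞) ^ p) := by
          gcongr with α
          have h4 := core p hp (u T φ (T.par α.1)) (u T φ α.1) (u_nonneg T φ _)
            (u_par_le T φ α.2)
          have h5 : ENNReal.ofReal (u T φ α.1 - u T φ (T.par α.1)) = (φ α : ℝ≥0∞) := by
            rw [u_vert T φ α.2]
            have : ((φ ⟨α.1, α.2⟩ : ℝ≥0) : ℝ) + u T φ (T.par α.1) - u T φ (T.par α.1) =
              ((φ α : ℝ≥0) : ℝ) := by ring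
            rw [this, ENNReal.ofReal_coe_nnreal]
          rw [h5] at h4
          exact h4
      _ = ENNReal.ofReal (K p) * T.isoConst p π μ * T.energy p π φ := by
          rw [RTree.energy, mul_comm (ENNReal.ofReal (K p)) (T.isoConst p π μ), mul_assoc,
            ← ENNReal.tsum_mul_left (a := ENNReal.ofReal (K p))]
          congr 1
          refine tsum_congr fun α => ?_
          ring
  have hlim : Tendsto (fun n : ℕ => ∫⁻ x, (min (T.I φ x) n) ^ p ∂μ) atTop
      (𝓝 (∫⁻ x, (T.I φ x) ^ p ∂μ)) := by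
    refine lintegral_tendsto_of_tendsto_of_monotone ?_ ?_ ?_
    · intro n
      exact ((hmeas.min measurable_const).pow_const p).aemeasurable
    · refine ae_of_all _ fun x => ?_
      intro m n hmn
      have : (m : ℝ≥0∞) ≤ n := by exact_mod_cast hmn
      simp only
      gcongr
    · refine ae_of_all _ fun x => ?_
      have h1 : Tendsto (fun n : ℕ => min (T.I φ x) (n : ℝ≥0∞)) atTop (𝓝 (min (T.I φ x) ⊤)) :=
        (tendsto_const_nhds (x := T.I φ x)).min ENNReal.tendsto_nat_nhds_top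
      rw [min_eq_left le_top] at h1
      exact (ENNReal.continuous_rpow_const.tendsto _).comp h1
  exact le_of_tendsto' hlim key

end Pool.Agent.V11265.IC
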