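import Pool.Agent.V11265.IC3

/-!
# Sharpness on the path tree (MP_a9eb04_an).
-/

open MeasureTheory Set Filter
open scoped ENNReal NNReal Topology

namespace Pool.Agent.V11265.IC

/-- the infinite path `0 - 1 - 2 - ...` with pre-root `0` and root `1` -/
def pathTree : RTree ℕ where
  pre := 0
  root := 1
  par := fun n => n - 1
  par_pre := rfl
  root_ne := one_ne_zero
  par_root := rfl
  eq_root := by
    intro v h1 h2
    change v ≠ 0 at h1
    change v - 1 = 0 at h2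
    omega
  reach := by
    intro v
    refine ⟨v, ?_⟩
    induction v with
    | zero => rfl
    | succ v ih => rw [Function.iterate_succ_apply]; exact ih
  locFin := by
    intro v
    refine (Set.finite_singleton (v + 1)).subset ?_
    rintro w ⟨h1, h2⟩
    simp only [mem_singleton_iff]
    omega

lemma par_iter (n v : ℕ) : pathTree.par^[n] v = v - n := by
  induction n generalizing v with
  | zero => rfl
  | succ n ih =>
    rw [Function.iterate_succ_apply, ih]
    change v - 1 - n = v - (n + 1)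
    omega

/-- the edge joining `k` and `k + 1` -/
def ed (k : ℕ) : pathTree.Edge := ⟨k + 1, Nat.succ_ne_zero k⟩

lemma ed_inj : Function.Injective ed := by
  intro a b h
  have := congrArg Subtype.val h
  simp only [ed] at this
  omega

lemma exists_ed (α : pathTree.Edge) : ∃ k, α = ed k := by
  obtain ⟨n, hn⟩ := α
  cases n with
  | zero => exact absurd rfl hn
  | succ k => exact ⟨k, rfl⟩

lemma mem_S (j k : ℕ) : RTree.Pt.vert (j + 1) ∈ pathTree.S (ed k) ↔ k ≤ j := by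
  constructor
  · rintro ⟨n, hn⟩
    rw [par_iter] at hn
    change j + 1 - n = k + 1 at hn
    omega
  · intro h
    refine ⟨j - k, ?_⟩
    rw [par_iter]
    change j + 1 - (j - k) = k + 1
    omega

lemma I_path (φ : pathTree.Edge → ℝ≥0) (n : ℕ) :
    pathTree.I φ (.vert n) = ∑ j ∈ Finset.range n, (φ (ed j) : ℝ≥0∞) := by
  induction n with
  | zero => rw [Finset.range_zero, Finset.sum_empty]; exact I_pre pathTree φ
  | succ n ih =>
    rw [I_vert pathTree φ (v := n + 1) (Nat.succ_ne_zero n), Finset.sum_range_succ, ← ih, add_comm]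
    rfl

/-- the masses -/
noncomputable def m (p : ℝ) (k : ℕ) : ℝ := ((k : ℝ) + 1) ^ (1 - p) - ((k : ℝ) + 2) ^ (1 - p)

lemma m_nonneg (p : ℝ) (hp : 1 < p) (k : ℕ) : 0 ≤ m p k := by
  unfold m
  rw [sub_nonneg]
  exact Real.rpow_le_rpow_of_nonpos (by positivity) (by linarith) (by linarith)

noncomputable def μ0 (p : ℝ) : Measure pathTree.Pt :=
  Measure.sum fun k : ℕ => ENNReal.ofReal (m p k) • Measure.dirac (RTree.Pt.vert (k + 1))

lemma partial_sum (p : ℝ) (k n : ℕ) :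
    ∑ j ∈ Finset.range n, (if k ≤ j then m p j else 0) =
      ((k : ℝ) + 1) ^ (1 - p) - ((max k n : ℕ) + 1 : ℝ) ^ (1 - p) := by
  induction n with
  | zero => simp
  | succ n ih =>
    rw [Finset.sum_range_succ, ih]
    by_cases h : k ≤ n
    · rw [if_pos h, max_eq_right h, max_eq_right (by omega : k ≤ n + 1), m]
      push_cast
      rw [show (n : ℝ) + 1 + 1 = n + 2 by ring]
      ring
    · rw [if_neg h, max_eq_left (by omega : n ≤ k), max_eq_left (by omega : n + 1 ≤ k)]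
      ring

lemma μ0_S_le (p : ℝ) (hp : 1 < p) (k : ℕ) :
    μ0 p (pathTree.S (ed k)) ≤ ENNReal.ofReal (((k : ℝ) + 1) ^ (1 - p)) := by
  rw [μ0, Measure.sum_apply _ (measurableSet_S pathTree _)]
  refine ENNReal.tsum_le_of_sum_range_le fun n => ?_
  have h1 : ∀ j, (ENNReal.ofReal (m p j) • Measure.dirac (RTree.Pt.vert (j + 1)) :
      Measure pathTree.Pt) (pathTree.S (ed k)) = ENNReal.ofReal (if k ≤ j then m p j else 0) := by
    intro j
    rw [Measure.smul_apply, Measure.dirac_apply' _ (measurableSet_S pathTree _)]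
    by_cases h : k ≤ j
    · rw [indicator_of_mem ((mem_S j k).mpr h), if_pos h]; simp
    · rw [indicator_of_notMem (fun h' => h ((mem_S j k).mp h')), if_neg h]; simp
  rw [Finset.sum_congr rfl fun j _ => h1 j, ← ENNReal.ofReal_sum_of_nonneg, partial_sum]
  · apply ENNReal.ofReal_le_ofReal
    have : (0 : ℝ) ≤ ((max k n : ℕ) + 1 : ℝ) ^ (1 - p) := by positivity
    linarith
  · intro j _
    split_ifs
    · exact m_nonneg p hp j
    · exact le_rfl

lemma energy_ge (p : ℝ) (φ : pathTree.Edge → ℝ≥0) (n : ℕ) :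
    ∑ j ∈ Finset.range n, (φ (ed j) : ℝ≥0∞) ^ p ≤ pathTree.energy p (fun _ => 1) φ := by
  rw [RTree.energy]
  calc ∑ j ∈ Finset.range n, (φ (ed j) : ℝ≥0∞) ^ p
      ≤ ∑' j : ℕ, (φ (ed j) : ℝ≥0∞) ^ p := ENNReal.sum_le_tsum _
    _ ≤ ∑' α : pathTree.Edge, (φ α : ℝ≥0∞) ^ p :=
      ENNReal.tsum_comp_le_tsum_of_injective ed_inj (fun α => (φ α : ℝ≥0∞) ^ p)
    _ = _ := by
      refine tsum_congr fun α => ?_
      simp

lemma cap_ge (p : ℝ) (hp : 1 < p) (k : ℕ) :
    ENNReal.ofReal (((k : ℝ) + 1) ^ (1 - p)) ≤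
      pathTree.cap p (fun _ => 1) (pathTree.S (ed k)) := by
  refine le_iInf₂ fun φ hφ => ?_
  have h1 := hφ _ ((mem_S k k).mpr le_rfl)
  rw [I_path] at h1
  have h2 : (∑ j ∈ Finset.range (k + 1), (φ (ed j) : ℝ≥0∞)) ^ p ≤
      ((Finset.range (k + 1)).card : ℝ≥0∞) ^ (p - 1) *
        ∑ j ∈ Finset.range (k + 1), (φ (ed j) : ℝ≥0∞) ^ p :=
    ENNReal.rpow_sum_le_const_mul_sum_rpow _ _ hp.le
  have h3 : (1 : ℝ≥0∞) ≤ ((k : ℝ≥0∞) + 1) ^ (p - 1) * pathTree.energy p (fun _ => 1) φ := by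
    calc (1 : ℝ≥0∞) = 1 ^ p := (ENNReal.one_rpow p).symm
      _ ≤ (∑ j ∈ Finset.range (k + 1), (φ (ed j) : ℝ≥0∞)) ^ p := by gcongr
      _ ≤ _ := h2
      _ ≤ ((k : ℝ≥0∞) + 1) ^ (p - 1) * pathTree.energy p (fun _ => 1) φ := by
        rw [Finset.card_range]
        push_cast
        gcongr
        exact energy_ge p φ _
  have h4 : ENNReal.ofReal (((k : ℝ) + 1) ^ (1 - p)) = (((k : ℝ≥0∞) + 1) ^ (p - 1))⁻¹ := by
    rw [← ENNReal.rpow_neg, neg_sub, ← ENNReal.ofReal_rpow_of_pos (by positivity)]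
    congr 1
    rw [ENNReal.ofReal_add (by positivity) zero_le_one, ENNReal.ofReal_natCast, ENNReal.ofReal_one]
  rw [h4]
  have h5 : ((k : ℝ≥0∞) + 1) ^ (p - 1) ≠ ⊤ :=
    ENNReal.rpow_ne_top_of_nonneg (by linarith) (by finiteness)
  have h6 : ((k : ℝ≥0∞) + 1) ^ (p - 1) ≠ 0 := by
    have : (1 : ℝ≥0∞) ≤ ((k : ℝ≥0∞) + 1) ^ (p - 1) := by
      calc (1 : ℝ≥0∞) = 1 ^ (p - 1) := (ENNReal.one_rpow _).symm
        _ ≤ _ := by gcongr; exact le_add_self
    intro h; rw [h] at this; simp at this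
  calc (((k : ℝ≥0∞) + 1) ^ (p - 1))⁻¹ = (((k : ℝ≥0∞) + 1) ^ (p - 1))⁻¹ * 1 := (mul_one _).symm
    _ ≤ (((k : ℝ≥0∞) + 1) ^ (p - 1))⁻¹ * (((k : ℝ≥0∞) + 1) ^ (p - 1) *
        pathTree.energy p (fun _ => 1) φ) := by gcongr
    _ = _ := by rw [← mul_assoc, ENNReal.inv_mul_cancel h6 h5, one_mul]

lemma iso_le (p : ℝ) (hp : 1 < p) : pathTree.isoConst p (fun _ => 1) (μ0 p) ≤ 1 := by
  refine iSup₂_le fun s hs => ?_
  rcases s.eq_empty_or_nonempty with rfl | ⟨α, hα⟩
  · simp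
  · have hall : ∀ β ∈ s, β = α := by
      intro β hβ
      by_contra hne
      have hd := hs hβ hα hne
      rw [Function.onFun, Set.disjoint_left] at hd
      obtain ⟨a, rfl⟩ := exists_ed α
      obtain ⟨b, rfl⟩ := exists_ed β
      exact hd ((mem_S (max a b) b).mpr (le_max_right _ _))
        ((mem_S (max a b) a).mpr (le_max_left _ _))
    have hs1 : s = {α} := Finset.eq_singleton_iff_unique_mem.mpr ⟨hα, hall⟩
    subst hs1
    rw [Finset.sum_singleton, Finset.set_biUnion_singleton]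
    obtain ⟨a, rfl⟩ := exists_ed α
    apply ENNReal.div_le_of_le_mul
    rw [one_mul]
    exact (μ0_S_le p hp a).trans (cap_ge p hp a)

/-- the test functions -/
noncomputable def φN (p : ℝ) (N : ℕ) (α : pathTree.Edge) : ℝ≥0 :=
  if α.1 ≤ N then Real.toNNReal ((α.1 : ℝ) ^ (-1 / p)) else 0

/-- partial sums -/
noncomputable def U (p : ℝ) (n : ℕ) : ℝ := ∑ j ∈ Finset.range n, ((j : ℝ) + 1) ^ (-1 / p)

lemma U_nonneg (p : ℝ) (n : ℕ) : 0 ≤ U p n := Finset.sum_nonneg fun j _ => by positivity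

lemma energy_φN (p : ℝ) (hp : 1 < p) (N : ℕ) :
    pathTree.energy p (fun _ => 1) (φN p N) =
      ENNReal.ofReal (∑ k ∈ Finset.range N, 1 / ((k : ℝ) + 1)) := by
  classical
  rw [RTree.energy, tsum_eq_sum (s := (Finset.range N).image ed)]
  · rw [Finset.sum_image (fun a _ b _ h => ed_inj h), ENNReal.ofReal_sum_of_nonneg]
    · refine Finset.sum_congr rfl fun k hk => ?_
      have hk' : (ed k).1 ≤ N := by
        rw [Finset.mem_range] at hk
        change k + 1 ≤ N
        omega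
      rw [φN, if_pos hk', ENNReal.coe_one, mul_one]
      change (ENNReal.ofReal _) ^ p = _
      rw [ENNReal.ofReal_rpow_of_nonneg (by positivity) (by linarith)]
      congr 1
      rw [← Real.rpow_mul (by positivity)]
      have : -1 / p * p = -1 := by field_simp
      rw [this, Real.rpow_neg_one]
      simp [ed]
    · intro k _; positivity
  · intro α hα
    obtain ⟨k, rfl⟩ := exists_ed α
    have : ¬ (ed k).1 ≤ N := by
      intro h
      apply hα
      rw [Finset.mem_image]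
      exact ⟨k, Finset.mem_range.mpr h, rfl⟩
    rw [φN, if_neg this, ENNReal.coe_zero, ENNReal.zero_rpow_of_pos (by linarith), zero_mul]

lemma I_φN (p : ℝ) (N n : ℕ) (h : n ≤ N) :
    pathTree.I (φN p N) (.vert n) = ENNReal.ofReal (U p n) := by
  rw [I_path, U, ENNReal.ofReal_sum_of_nonneg (fun j _ => by positivity)]
  refine Finset.sum_congr rfl fun j hj => ?_
  rw [Finset.mem_range] at hj
  have : (ed j).1 ≤ N := by change j + 1 ≤ N; omega
  rw [φN, if_pos this]
  change ENNReal.ofReal _ = _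
  congr 1
  simp [ed]

lemma integral_ge (p : ℝ) (hp : 1 < p) (N : ℕ) :
    ENNReal.ofReal (∑ k ∈ Finset.range N, m p k * (U p (k + 1)) ^ p) ≤
      ∫⁻ x, (pathTree.I (φN p N) x) ^ p ∂(μ0 p) := by
  rw [μ0, lintegral_sum_measure]
  have h1 : ∀ k, ∫⁻ x, (pathTree.I (φN p N) x) ^ p ∂(ENNReal.ofReal (m p k) •
      Measure.dirac (RTree.Pt.vert (k + 1)) : Measure pathTree.Pt) =
      ENNReal.ofReal (m p k) * (pathTree.I (φN p N) (.vert (k + 1))) ^ p := by
    intro k
    rw [lintegral_smul_measure, lintegral_dirac' _ ((measurable_I pathTree _).pow_const p)]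
    rfl
  calc ENNReal.ofReal (∑ k ∈ Finset.range N, m p k * (U p (k + 1)) ^ p)
      = ∑ k ∈ Finset.range N, ENNReal.ofReal (m p k) *
          (pathTree.I (φN p N) (.vert (k + 1))) ^ p := by
        rw [ENNReal.ofReal_sum_of_nonneg (fun k _ => mul_nonneg (m_nonneg p hp k)
          (Real.rpow_nonneg (U_nonneg p _) _))]
        refine Finset.sum_congr rfl fun k hk => ?_
        rw [Finset.mem_range] at hk
        rw [I_φN p N (k + 1) (by omega), ENNReal.ofReal_mul (m_nonneg p hp k),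
          ENNReal.ofReal_rpow_of_nonneg (U_nonneg p _) (by linarith)]
    _ = ∑ k ∈ Finset.range N, ∫⁻ x, (pathTree.I (φN p N) x) ^ p ∂(ENNReal.ofReal (m p k) •
      Measure.dirac (RTree.Pt.vert (k + 1)) : Measure pathTree.Pt) :=
        Finset.sum_congr rfl fun k _ => (h1 k).symm
    _ ≤ _ := ENNReal.sum_le_tsum _

/-! ### asymptotics -/

lemma m_ge (p : ℝ) (hp : 1 < p) (k : ℕ) : (p - 1) * ((k : ℝ) + 2) ^ (-p) ≤ m p k := by
  have hk : (0 : ℝ) < (k : ℝ) + 1 := by positivity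
  obtain ⟨c, hc, hc2⟩ := exists_hasDerivAt_eq_slope (fun x : ℝ => x ^ (1 - p))
    (fun x => (1 - p) * x ^ (1 - p - 1)) (show (k : ℝ) + 1 < k + 2 by linarith)
    (ContinuousOn.rpow_const continuousOn_id fun x hx => Or.inl (by
      have := hx.1; linarith))
    (fun x hx => Real.hasDerivAt_rpow_const (Or.inl (by have := hx.1; linarith)))
  have h1 : (k : ℝ) + 2 - (k + 1) = 1 := by ring
  rw [h1, div_one, show (1 - p - 1) = -p by ring] at hc2
  unfold m
  have h2 : ((k : ℝ) + 2) ^ (-p) ≤ c ^ (-p) :=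
    Real.rpow_le_rpow_of_nonpos (by linarith [hc.1]) hc.2.le (by linarith)
  have h3 : (p - 1) * ((k : ℝ) + 2) ^ (-p) ≤ (p - 1) * c ^ (-p) := by
    apply mul_le_mul_of_nonneg_left h2 (by linarith)
  linarith

lemma U_ge (p : ℝ) (hp : 1 < p) (n : ℕ) :
    (p / (p - 1)) * (((n : ℝ) + 1) ^ ((p - 1) / p) - 1) ≤ U p n := by
  have h0 : 0 < p - 1 := by linarith
  induction n with
  | zero => simp [U]
  | succ n ih =>
    rw [U, Finset.sum_range_succ, ← U]
    have hn : (0 : ℝ) < (n : ℝ) + 1 := by positivity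
    obtain ⟨c, hc, hc2⟩ := exists_hasDerivAt_eq_slope (fun x : ℝ => x ^ ((p - 1) / p))
      (fun x => ((p - 1) / p) * x ^ ((p - 1) / p - 1)) (show (n : ℝ) + 1 < n + 2 by linarith)
      (ContinuousOn.rpow_const continuousOn_id fun x hx => Or.inl (by
        have := hx.1; linarith))
      (fun x hx => Real.hasDerivAt_rpow_const (Or.inl (by have := hx.1; linarith)))
    have h1 : (n : ℝ) + 2 - (n + 1) = 1 := by ring
    have h2 : (p - 1) / p - 1 = -1 / p := by field_simp; ring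
    rw [h1, div_one, h2] at hc2
    have h3 : c ^ (-1 / p) ≤ ((n : ℝ) + 1) ^ (-1 / p) :=
      Real.rpow_le_rpow_of_nonpos hn hc.1.le (by
        rw [neg_div]; have : 0 < 1 / p := by positivity
        linarith)
    have h4 : (p / (p - 1)) * (((n : ℝ) + 2) ^ ((p - 1) / p) - ((n : ℝ) + 1) ^ ((p - 1) / p)) =
        c ^ (-1 / p) := by
      rw [← hc2]; field_simp
    push_cast
    rw [show (n : ℝ) + 1 + 1 = n + 2 by ring]
    calc (p / (p - 1)) * (((n : ℝ) + 2) ^ ((p - 1) / p) - 1)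
        = (p / (p - 1)) * (((n : ℝ) + 1) ^ ((p - 1) / p) - 1) +
          (p / (p - 1)) * (((n : ℝ) + 2) ^ ((p - 1) / p) - ((n : ℝ) + 1) ^ ((p - 1) / p)) := by
          ring
      _ ≤ U p n + ((n : ℝ) + 1) ^ (-1 / p) := by rw [h4]; linarith

/-- the correction factor -/
noncomputable def ρ (p : ℝ) (k : ℕ) : ℝ :=
  (1 - ((k : ℝ) + 2) ^ (-((p - 1) / p))) ^ p * (((k : ℝ) + 1) / (k + 2))

lemma term_ge (p : ℝ) (hp : 1 < p) (k : ℕ) :
    K p * ρ p k * (1 / ((k : ℝ) + 1)) ≤ m p k * (U p (k + 1)) ^ p := by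
  have h0 : 0 < p - 1 := by linarith
  have hx : (0 : ℝ) < (k : ℝ) + 2 := by positivity
  have h1 := U_ge p hp (k + 1)
  push_cast at h1
  rw [show (k : ℝ) + 1 + 1 = k + 2 by ring] at h1
  have hx1 : (1 : ℝ) ≤ ((k : ℝ) + 2) ^ ((p - 1) / p) :=
    Real.one_le_rpow (by linarith [Nat.cast_nonneg (α := ℝ) k]) (by positivity)
  have hA : 0 ≤ (p / (p - 1)) * (((k : ℝ) + 2) ^ ((p - 1) / p) - 1) :=
    mul_nonneg (by positivity) (by linarith)
  have h2 := Real.rpow_le_rpow hA h1 (by linarith : 0 ≤ p)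
  have h3 := m_ge p hp k
  have hB : 0 ≤ (p - 1) * ((k : ℝ) + 2) ^ (-p) := by positivity
  refine le_trans ?_ (mul_le_mul h3 h2 (Real.rpow_nonneg hA _) (m_nonneg p hp k))
  apply le_of_eq
  have h4 : ((k : ℝ) + 2) ^ ((p - 1) / p) - 1 = ((k : ℝ) + 2) ^ ((p - 1) / p) *
      (1 - ((k : ℝ) + 2) ^ (-((p - 1) / p))) := by
    rw [mul_sub, mul_one, ← Real.rpow_add hx, add_neg_cancel, Real.rpow_zero]
  have h5 : 0 ≤ 1 - ((k : ℝ) + 2) ^ (-((p - 1) / p)) := by
    rw [Real.rpow_neg hx.le, sub_nonneg]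
    exact inv_le_one_of_one_le₀ hx1
  rw [h4, Real.mul_rpow (by positivity) (by positivity), Real.mul_rpow (by positivity) h5,
    ← Real.rpow_mul hx.le, show (p - 1) / p * p = p - 1 by field_simp, K_eq p hp, ρ]
  have h6 : ((k : ℝ) + 2) ^ (-p) * ((k : ℝ) + 2) ^ (p - 1) = 1 / ((k : ℝ) + 2) := by
    rw [← Real.rpow_add hx, show -p + (p - 1) = -1 by ring, Real.rpow_neg_one, one_div]
  have h7 : (k : ℝ) + 1 ≠ 0 := by positivity
  calc (p / (p - 1)) ^ p * (p - 1) * ((1 - ((k : ℝ) + 2) ^ (-((p - 1) / p))) ^ p *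
        (((k : ℝ) + 1) / (k + 2))) * (1 / ((k : ℝ) + 1))
      = (p / (p - 1)) ^ p * (p - 1) * (1 - ((k : ℝ) + 2) ^ (-((p - 1) / p))) ^ p *
        (1 / ((k : ℝ) + 2)) := by field_simp
    _ = (p - 1) * ((k : ℝ) + 2) ^ (-p) * ((p / (p - 1)) ^ p * (((k : ℝ) + 2) ^ (p - 1) *
          (1 - ((k : ℝ) + 2) ^ (-((p - 1) / p))) ^ p)) := by
        rw [← h6]; ring

lemma ρ_tendsto (p : ℝ) (hp : 1 < p) : Tendsto (ρ p) atTop (𝓝 1) := by
  have h0 : 0 < p - 1 := by linarith
  have h1 : Tendsto (fun k : ℕ => (k : ℝ) + 2) atTop atTop :=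
    tendsto_atTop_add_const_right _ _ tendsto_natCast_atTop_atTop
  have h2 : Tendsto (fun k : ℕ => ((k : ℝ) + 2) ^ (-((p - 1) / p))) atTop (𝓝 0) :=
    (tendsto_rpow_neg_atTop (by positivity)).comp h1
  have h3 : Tendsto (fun k : ℕ => (1 - ((k : ℝ) + 2) ^ (-((p - 1) / p))) ^ p) atTop (𝓝 1) := by
    have h4 : Tendsto (fun k : ℕ => 1 - ((k : ℝ) + 2) ^ (-((p - 1) / p))) atTop (𝓝 (1 - 0)) :=
      tendsto_const_nhds.sub h2
    rw [sub_zero] at h4
    have h5 := h4.rpow_const (p := p) (Or.inl one_ne_zero)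
    rwa [Real.one_rpow] at h5
  have h6 : Tendsto (fun k : ℕ => ((k : ℝ) + 1) / (k + 2)) atTop (𝓝 1) := by
    have h7 : Tendsto (fun k : ℕ => 1 - 1 / ((k : ℝ) + 2)) atTop (𝓝 (1 - 0)) :=
      tendsto_const_nhds.sub (by
        simp_rw [one_div]
        exact tendsto_inv_atTop_zero.comp h1)
    rw [sub_zero] at h7
    refine h7.congr fun k => ?_
    have : (k : ℝ) + 2 ≠ 0 := by positivity
    field_simp
    ring
  have := h3.mul h6
  rwa [mul_one] at this

lemma hardy_ge (p : ℝ) (hp : 1 < p) :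
    ENNReal.ofReal (K p) ≤ pathTree.hardyConst p (fun _ => 1) (μ0 p) := by
  have hK := K_pos p hp
  refine le_sInf ?_
  intro C hC
  rw [mem_ofPred_eq] at hC
  by_cases hCt : C = ⊤
  · rw [hCt]; exact le_top
  obtain ⟨c, rfl⟩ : ∃ c : ℝ≥0, C = c := ⟨C.toNNReal, (ENNReal.coe_toNNReal hCt).symm⟩
  rw [← ENNReal.ofReal_coe_nnreal]
  apply ENNReal.ofReal_le_ofReal
  by_contra hlt
  push Not at hlt
  -- real inequality
  have hreal : ∀ N : ℕ, ∑ k ∈ Finset.range N, m p k * (U p (k + 1)) ^ p ≤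
      c * ∑ k ∈ Finset.range N, 1 / ((k : ℝ) + 1) := by
    intro N
    have h1 := (integral_ge p hp N).trans (hC (φN p N))
    rw [energy_φN p hp, ← ENNReal.ofReal_coe_nnreal, ← ENNReal.ofReal_mul (NNReal.coe_nonneg c)] at h1
    exact (ENNReal.ofReal_le_ofReal_iff (mul_nonneg c.2
      (Finset.sum_nonneg fun k _ => by positivity))).mp h1
  -- choose θ
  set θ : ℝ := (c / K p + 1) / 2 with hθ
  have hcK : (c : ℝ) / K p < 1 := by rw [div_lt_one hK]; exact hlt
  have hθ1 : θ < 1 := by rw [hθ]; linarith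
  have hθ2 : (c : ℝ) < K p * θ := by
    have : (c : ℝ) / K p < θ := by rw [hθ]; linarith
    rw [div_lt_iff₀ hK] at this
    linarith
  obtain ⟨k0, hk0⟩ := eventually_atTop.mp ((ρ_tendsto p hp).eventually (lt_mem_nhds hθ1))
  have hKθ : 0 ≤ K p * θ := le_trans c.2 hθ2.le
  -- lower bound for the partial sums
  have hsum : ∀ N : ℕ, K p * θ * (∑ k ∈ Finset.range N, 1 / ((k : ℝ) + 1) -
      ∑ k ∈ Finset.range k0, 1 / ((k : ℝ) + 1)) ≤
      ∑ k ∈ Finset.range N, m p k * (U p (k + 1)) ^ p := by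
    intro N
    induction N with
    | zero =>
      simp only [Finset.range_zero, Finset.sum_empty, zero_sub]
      have : 0 ≤ ∑ k ∈ Finset.range k0, 1 / ((k : ℝ) + 1) :=
        Finset.sum_nonneg fun k _ => by positivity
      nlinarith
    | succ N ih =>
      by_cases hN : k0 ≤ N
      · rw [Finset.sum_range_succ, Finset.sum_range_succ]
        have h1 := term_ge p hp N
        have h2 : K p * θ * (1 / ((N : ℝ) + 1)) ≤ K p * ρ p N * (1 / ((N : ℝ) + 1)) := by
          have := hk0 N hN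
          gcongr
        linarith
      · have h3 : ∑ k ∈ Finset.range (N + 1), 1 / ((k : ℝ) + 1) ≤
            ∑ k ∈ Finset.range k0, 1 / ((k : ℝ) + 1) := by
          refine Finset.sum_le_sum_of_subset_of_nonneg ?_ fun k _ _ => by positivity
          intro x hx
          rw [Finset.mem_range] at hx ⊢
          omega
        have h4 : 0 ≤ ∑ k ∈ Finset.range (N + 1), m p k * (U p (k + 1)) ^ p :=
          Finset.sum_nonneg fun k _ => mul_nonneg (m_nonneg p hp k)
            (Real.rpow_nonneg (U_nonneg p _) _)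
        nlinarith
  have hfinal : ∀ N : ℕ, (K p * θ - c) * ∑ k ∈ Finset.range N, 1 / ((k : ℝ) + 1) ≤
      K p * θ * ∑ k ∈ Finset.range k0, 1 / ((k : ℝ) + 1) := by
    intro N
    have h1 := hsum N
    have h2 := hreal N
    linarith
  have hdiv := Real.tendsto_sum_range_one_div_nat_succ_atTop
  have h8 : Tendsto (fun N : ℕ => (K p * θ - c) * ∑ k ∈ Finset.range N, 1 / ((k : ℝ) + 1))
      atTop atTop := hdiv.const_mul_atTop (by linarith)
  obtain ⟨N, hN⟩ := (h8.eventually (eventually_gt_atTop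
    (K p * θ * ∑ k ∈ Finset.range k0, 1 / ((k : ℝ) + 1)))).exists
  exact absurd (hfinal N) (not_le.mpr hN)

end Pool.Agent.V11265.IC
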