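import Pool.Agent.V11001.KM.Zero
import Pool.Agent.V11001.KM.Near
import Pool.Agent.Results.MP_188a10_nt.WeightedFewExceptional

/-! Level of distribution `14/27` for all the residues near the powers of every real number outside a set of
dimension zero. -/

set_option autoImplicit false

open Finset Filter Topology MeasureTheory

namespace Pool.Agent.V11265.LN

open Pool.Agent.Results.MP_188a10_nt.WeightedFewExceptional (primesAP li EMax nuD)
open Pool.Agent.V11001.KM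

/-- `∑ κ ^ ν(d) max_{2 ≤ y ≤ N} |π(y; d, a) - li(y)/φ(d)|` over the `d ≤ N ^ α` coprime to `a` -/
noncomputable def Sum (κ α : ℝ) (N a : ℕ) : ℝ :=
  ∑ d ∈ (Icc 1 ⌊(N : ℝ) ^ α⌋₊).filter (fun d => Nat.Coprime a d), κ ^ nuD d * EMax N d a

lemma li_bound {y : ℝ} {N : ℕ} (h1 : 2 ≤ y) (h2 : y ≤ N) : |li y| ≤ 2 * N := by
  unfold Pool.Agent.Results.MP_188a10_nt.WeightedFewExceptional.li
  have h := intervalIntegral.norm_integral_le_of_norm_le_const (a := (2 : ℝ)) (b := y)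
    (f := fun t : ℝ => 1 / Real.log t) (C := 2) (fun t ht => by
      rw [Set.uIoc_of_le h1] at ht
      have h3 : Real.log 2 ≤ Real.log t := Real.log_le_log (by norm_num) ht.1.le
      have h4 := Real.log_two_gt_d9
      rw [Real.norm_eq_abs, abs_of_nonneg (by apply div_nonneg zero_le_one; linarith)]
      rw [div_le_iff₀ (by linarith)]
      linarith)
  rw [Real.norm_eq_abs] at h
  refine h.trans ?_
  rw [abs_of_nonneg (by linarith)]
  linarith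

lemma bdd (N d a : ℕ) : BddAbove (Set.range fun y : Set.Icc (2 : ℝ) N =>
    |(primesAP y d a : ℝ) - li y / (Nat.totient d : ℝ)|) := by
  refine ⟨3 * N, ?_⟩
  rintro x ⟨⟨y, hy1, hy2⟩, rfl⟩
  have h1 : (primesAP y d a : ℝ) ≤ N := by
    unfold Pool.Agent.Results.MP_188a10_nt.WeightedFewExceptional.primesAP
    have h := (Finset.card_filter_le (Icc 1 ⌊y⌋₊) (fun p => p.Prime ∧ p ≡ a [MOD d]))
    rw [Nat.card_Icc, Nat.add_sub_cancel] at h
    have h' : ⌊y⌋₊ ≤ N := Nat.floor_le_of_le hy2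
    exact_mod_cast h.trans h'
  have h2 := li_bound hy1 hy2
  have h3 : |li y / (Nat.totient d : ℝ)| ≤ 2 * N := by
    rw [abs_div]
    rcases Nat.eq_zero_or_pos (Nat.totient d) with h0 | h0
    · rw [h0]
      simp
    · have : (1 : ℝ) ≤ |(Nat.totient d : ℝ)| := by
        rw [abs_of_nonneg (Nat.cast_nonneg _)]
        exact_mod_cast h0
      exact (div_le_self (abs_nonneg _) this).trans h2
  have h4 : (0 : ℝ) ≤ primesAP y d a := Nat.cast_nonneg _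
  show |(primesAP y d a : ℝ) - li y / (Nat.totient d : ℝ)| ≤ 3 * N
  refine (abs_sub _ _).trans ?_
  rw [abs_of_nonneg h4]
  linarith

lemma EMax_nonneg (N d a : ℕ) : 0 ≤ EMax N d a := Real.iSup_nonneg fun _ => abs_nonneg _

lemma EMax_mono {N N' : ℕ} (h2 : 2 ≤ N) (h : N ≤ N') (d a : ℕ) : EMax N d a ≤ EMax N' d a := by
  unfold Pool.Agent.Results.MP_188a10_nt.WeightedFewExceptional.EMax
  have hne : Nonempty (Set.Icc (2 : ℝ) N) := ⟨⟨2, le_rfl, by exact_mod_cast h2⟩⟩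
  refine ciSup_le fun y => ?_
  exact le_ciSup (bdd N' d a) ⟨y.1, y.2.1, y.2.2.trans (by exact_mod_cast h)⟩

lemma term_nonneg {κ : ℝ} (hκ : 1 ≤ κ) (N d a : ℕ) : 0 ≤ κ ^ nuD d * EMax N d a :=
  mul_nonneg (pow_nonneg (by linarith) _) (EMax_nonneg _ _ _)

lemma Sum_mono {κ κ' α α' : ℝ} (hκ : 1 ≤ κ) (hκ' : κ ≤ κ') (hα : α ≤ α') (hα' : 0 ≤ α') {N N' : ℕ} (h2 : 2 ≤ N)
    (h : N ≤ N') (a : ℕ) : Sum κ α N a ≤ Sum κ' α' N' a := by
  unfold Sum
  have hN1 : (1 : ℝ) ≤ N := by exact_mod_cast (by omega : 1 ≤ N)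
  have hpow : (N : ℝ) ^ α ≤ (N' : ℝ) ^ α' :=
    (Real.rpow_le_rpow_of_exponent_le hN1 hα).trans
      (Real.rpow_le_rpow (by linarith) (by exact_mod_cast h) hα')
  refine (Finset.sum_le_sum (g := fun d => κ' ^ nuD d * EMax N' d a) fun d _ => ?_).trans ?_
  · exact mul_le_mul (pow_le_pow_left₀ (by linarith) hκ' _) (EMax_mono h2 h d a) (EMax_nonneg _ _ _)
      (pow_nonneg (by linarith) _)
  · refine Finset.sum_le_sum_of_subset_of_nonneg ?_ fun d _ _ => term_nonneg (hκ.trans hκ') _ _ _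
    exact Finset.filter_subset_filter _ (Finset.Icc_subset_Icc_right (Nat.floor_le_floor hpow))

/-- the bad residues: the inequality fails for some `N` between `a` and `exp (a ^ δ)` -/
def Bad (κ α : ℝ) (U : ℕ) (δ : ℝ) : Set ℕ :=
  {a | 1 ≤ a ∧ ∃ N : ℕ, a ≤ N ∧ (N : ℝ) ≤ Real.exp ((a : ℝ) ^ δ) ∧ (N : ℝ) / Real.log N ^ U < Sum κ α N a}

open Classical in
/-- the bad residues for one `N` -/
noncomputable def bad (κ α : ℝ) (U N : ℕ) : Finset ℕ :=
  (Icc 1 N).filter (fun a : ℕ => (N : ℝ) / Real.log N ^ U < Sum κ α N a)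

lemma log_eight : 2 ≤ Real.log 8 := by
  have h : Real.log 8 = 3 * Real.log 2 := by
    rw [show (8 : ℝ) = 2 ^ 3 by norm_num, Real.log_pow]
    norm_num
  have := Real.log_two_gt_d9
  rw [h]
  linarith

/-- from `N` to the next power of two -/
lemma to_dyadic {κ α : ℝ} (hκ : 1 ≤ κ) (hα : 0 ≤ α) {U N a : ℕ} (hN : 8 ≤ N) (ha : 1 ≤ a) (haN : a ≤ N)
    (h : (N : ℝ) / Real.log N ^ U < Sum κ α N a) : a ∈ bad κ α (U + 1) (2 ^ Nat.clog 2 N) := by
  have hle : N ≤ 2 ^ Nat.clog 2 N := Nat.le_pow_clog (by norm_num) N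
  have hlt : 2 ^ (Nat.clog 2 N).pred < N := Nat.pow_pred_clog_lt_self (by norm_num) (by omega)
  have hpos : 0 < Nat.clog 2 N := Nat.clog_pos (by norm_num) (by omega)
  have hlt2 : 2 ^ Nat.clog 2 N < 2 * N := by
    obtain ⟨c, hc⟩ := Nat.exists_eq_succ_of_ne_zero hpos.ne'
    rw [hc] at hlt ⊢
    rw [Nat.pred_succ] at hlt
    rw [Nat.succ_eq_add_one, pow_succ]
    omega
  unfold bad
  rw [mem_filter, mem_Icc]
  refine ⟨⟨ha, haN.trans hle⟩, ?_⟩
  refine lt_of_le_of_lt ?_ (h.trans_le (Sum_mono hκ le_rfl le_rfl hα (by omega) hle a))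
  set M : ℕ := 2 ^ Nat.clog 2 N with hM
  have h8 : Real.log 8 ≤ Real.log N := Real.log_le_log (by norm_num) (by exact_mod_cast hN)
  have hl2 : 2 ≤ Real.log N := log_eight.trans h8
  have hNpos : (0 : ℝ) < N := by exact_mod_cast (by omega : 0 < N)
  have hlM : Real.log N ≤ Real.log M := Real.log_le_log hNpos (by exact_mod_cast hle)
  have hM2 : (M : ℝ) ≤ 2 * N := by exact_mod_cast hlt2.le
  calc (M : ℝ) / Real.log M ^ (U + 1) ≤ (2 * N) / Real.log N ^ (U + 1) := by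
        apply div_le_div₀ (by positivity) hM2 (pow_pos (by linarith) _)
        exact pow_le_pow_left₀ (by linarith) hlM _
    _ ≤ N / Real.log N ^ U := by
        rw [div_le_div_iff₀ (pow_pos (by linarith) _) (pow_pos (by linarith) _), pow_succ]
        have h3 : 0 < Real.log N ^ U := pow_pos (by linarith) _
        nlinarith [mul_pos hNpos h3]

/-- the number of the bad residues -/
theorem bad_count {κ α : ℝ} (hκ : 1 ≤ κ) (hα : 0 ≤ α) (hα1 : α < 14 / 27) (U : ℕ) :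
    ∃ D : ℕ, ∀ δ η : ℝ, 0 < δ → δ * D ≤ η → ∃ C : ℝ, ∀ X : ℝ, 1 ≤ X →
      {a | a ∈ Bad κ α U δ ∧ (a : ℝ) ≤ X}.Finite ∧ ({a | a ∈ Bad κ α U δ ∧ (a : ℝ) ≤ X}.ncard : ℝ) ≤ C * X ^ η := by
  classical
  obtain ⟨B, C, hC, h⟩ := Pool.Agent.Results.MP_188a10_nt.WeightedFewExceptional.result κ hκ α hα1 (U + 1)
  refine ⟨B + 1, fun δ η hδ hη => ⟨8 + 5 * 3 ^ B * C, fun X hX => ?_⟩⟩
  have hl1 := Real.log_two_gt_d9
  have hl2 := Real.log_two_lt_d9
  have hXδ : 1 ≤ X ^ δ := Real.one_le_rpow hX hδ.le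
  set I : ℕ := ⌈1 + X ^ δ / Real.log 2⌉₊ with hI
  have hI1 : 1 + X ^ δ / Real.log 2 ≤ I := Nat.le_ceil _
  have hI2 : (I : ℝ) < 1 + X ^ δ / Real.log 2 + 1 := Nat.ceil_lt_add_one (by positivity)
  have hdiv : X ^ δ / Real.log 2 ≤ 2 * X ^ δ := by
    rw [div_le_iff₀ (by linarith)]
    nlinarith
  set F : Finset ℕ := Finset.range 8 ∪
    ((Finset.range (I + 1)).filter (fun i => 3 ≤ 2 ^ i)).biUnion (fun i => bad κ α (U + 1) (2 ^ i)) with hF
  have hsub : {a | a ∈ Bad κ α U δ ∧ (a : ℝ) ≤ X} ⊆ (F : Set ℕ) := by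
    rintro a ⟨⟨ha1, N, haN, hNexp, hbad⟩, haX⟩
    rw [hF, mem_coe, mem_union]
    by_cases hN : 8 ≤ N
    · right
      rw [mem_biUnion]
      have hle : N ≤ 2 ^ Nat.clog 2 N := Nat.le_pow_clog (by norm_num) N
      refine ⟨Nat.clog 2 N, ?_, to_dyadic hκ hα hN ha1 haN hbad⟩
      rw [mem_filter, mem_range]
      refine ⟨?_, by omega⟩
      have hlt : 2 ^ (Nat.clog 2 N).pred < N := Nat.pow_pred_clog_lt_self (by norm_num) (by omega)
      have hpos : 0 < Nat.clog 2 N := Nat.clog_pos (by norm_num) (by omega)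
      obtain ⟨c, hc⟩ := Nat.exists_eq_succ_of_ne_zero hpos.ne'
      rw [hc] at hlt ⊢
      rw [Nat.pred_succ] at hlt
      have h1 : ((2 : ℝ) ^ c) < N := by exact_mod_cast hlt
      have h2 : (a : ℝ) ^ δ ≤ X ^ δ := Real.rpow_le_rpow (Nat.cast_nonneg _) haX hδ.le
      have h3 : (2 : ℝ) ^ c < Real.exp (X ^ δ) := h1.trans_le (hNexp.trans (Real.exp_le_exp.2 h2))
      have h4 : (c : ℝ) * Real.log 2 < X ^ δ := by
        have := Real.log_lt_log (by positivity) h3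
        rwa [Real.log_exp, Real.log_pow] at this
      have h5 : (c : ℝ) < X ^ δ / Real.log 2 := by
        rw [lt_div_iff₀ (by linarith)]
        exact h4
      have h6 : (c : ℝ) + 1 < I := by linarith
      have h7 : c + 1 < I := by exact_mod_cast h6
      omega
    · left
      rw [mem_range]
      omega
  refine ⟨(Finset.finite_toSet F).subset hsub, ?_⟩
  have hcard : ({a | a ∈ Bad κ α U δ ∧ (a : ℝ) ≤ X}.ncard : ℝ) ≤ (F.card : ℝ) := by
    have h1 := Set.ncard_le_ncard hsub (Finset.finite_toSet F)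
    rw [Set.ncard_coe_finset] at h1
    exact_mod_cast h1
  refine hcard.trans ?_
  have hone : ∀ i ∈ (Finset.range (I + 1)).filter (fun i => 3 ≤ 2 ^ i),
      ((bad κ α (U + 1) (2 ^ i)).card : ℝ) ≤ C * (3 * X ^ δ) ^ B := by
    intro i hi
    rw [mem_filter, mem_range] at hi
    have h1 := h (2 ^ i) hi.2
    refine le_trans (le_of_eq ?_) (h1.trans ?_)
    · unfold bad Sum
      congr!
    · apply mul_le_mul_of_nonneg_left _ hC.le
      have h2 : Real.log ((2 ^ i : ℕ) : ℝ) = i * Real.log 2 := by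
        push_cast
        rw [Real.log_pow]
      rw [h2]
      apply pow_le_pow_left₀ (by positivity)
      have h3 : (i : ℝ) ≤ I := by exact_mod_cast (by omega : i ≤ I)
      have h4 : (i : ℝ) ≤ 2 + X ^ δ / Real.log 2 := by linarith
      calc (i : ℝ) * Real.log 2 ≤ (2 + X ^ δ / Real.log 2) * Real.log 2 :=
            mul_le_mul_of_nonneg_right h4 (by linarith)
        _ = 2 * Real.log 2 + X ^ δ := by field_simp
        _ ≤ 3 * X ^ δ := by nlinarith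
  have hsum : (F.card : ℝ) ≤ 8 + (I + 1) * (C * (3 * X ^ δ) ^ B) := by
    have h1 : F.card ≤ 8 + ∑ i ∈ (Finset.range (I + 1)).filter (fun i => 3 ≤ 2 ^ i),
        (bad κ α (U + 1) (2 ^ i)).card := by
      rw [hF]
      refine (Finset.card_union_le _ _).trans ?_
      rw [Finset.card_range]
      exact Nat.add_le_add_left Finset.card_biUnion_le _
    have h2 : ((∑ i ∈ (Finset.range (I + 1)).filter (fun i => 3 ≤ 2 ^ i),
        (bad κ α (U + 1) (2 ^ i)).card : ℕ) : ℝ) ≤ (I + 1) * (C * (3 * X ^ δ) ^ B) := by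
      push_cast
      refine (Finset.sum_le_card_nsmul _ _ _ hone).trans ?_
      rw [nsmul_eq_mul]
      apply mul_le_mul_of_nonneg_right _ (by positivity)
      have := Finset.card_filter_le (Finset.range (I + 1)) (fun i => 3 ≤ 2 ^ i)
      rw [Finset.card_range] at this
      exact_mod_cast this
    have h3 : (F.card : ℝ) ≤ 8 + ((∑ i ∈ (Finset.range (I + 1)).filter (fun i => 3 ≤ 2 ^ i),
        (bad κ α (U + 1) (2 ^ i)).card : ℕ) : ℝ) := by exact_mod_cast h1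
    linarith
  refine hsum.trans ?_
  have hI3 : (I : ℝ) + 1 ≤ 5 * X ^ δ := by linarith
  have hX0 : 0 < X := by linarith
  have hpow : X ^ δ * (X ^ δ) ^ B = X ^ (δ * ((B + 1 : ℕ) : ℝ)) := by
    rw [Real.rpow_mul hX0.le, Real.rpow_natCast, pow_succ]
    ring
  have hXη : X ^ (δ * ((B + 1 : ℕ) : ℝ)) ≤ X ^ η := Real.rpow_le_rpow_of_exponent_le hX (by exact_mod_cast hη)
  have h1η : 1 ≤ X ^ (δ * ((B + 1 : ℕ) : ℝ)) := Real.one_le_rpow hX (by positivity)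
  calc 8 + ((I : ℝ) + 1) * (C * (3 * X ^ δ) ^ B) ≤ 8 + (5 * X ^ δ) * (C * (3 * X ^ δ) ^ B) := by
        have : 0 ≤ C * (3 * X ^ δ) ^ B := by positivity
        nlinarith
    _ = 8 + 5 * 3 ^ B * C * (X ^ δ * (X ^ δ) ^ B) := by rw [mul_pow]; ring
    _ = 8 + 5 * 3 ^ B * C * X ^ (δ * ((B + 1 : ℕ) : ℝ)) := by rw [hpow]
    _ ≤ 8 * X ^ η + 5 * 3 ^ B * C * X ^ η := by
        have : 0 ≤ 5 * 3 ^ B * C := by positivity
        nlinarith [mul_le_mul_of_nonneg_left hXη this]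
    _ = _ := by ring

/-- **All residues near powers, pointwise.** -/
theorem pointwise {ν : ℕ → ℝ} (hν : Fast ν) (B : Set ℝ) (hB : B.Countable) :
    ∃ E : Set ℝ, dimH E = 0 ∧ ∀ z : ℝ, 1 < z → z ∉ E → ∀ θ : ℝ, θ < 1 → ∀ κ : ℝ, 1 ≤ κ → ∀ α : ℝ, α < 14 / 27 →
      ∀ U : ℕ, ∃ δ : ℝ, 0 < δ ∧ ∀ β ∈ B, 0 < β → ∃ a₀ : ℕ, ∀ a : ℕ, a₀ ≤ a → Near ν θ β z a →
        ∀ N : ℕ, a ≤ N → (N : ℝ) ≤ Real.exp ((a : ℝ) ^ δ) → Sum κ α N a ≤ N / Real.log N ^ U := by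
  set Q : Type := ℕ × {r : ℚ // 0 ≤ (r : ℝ) ∧ (r : ℝ) < 14 / 27} × ℕ with hQ
  have hD : ∀ q : Q, ∃ D : ℕ, ∀ δ η : ℝ, 0 < δ → δ * D ≤ η → ∃ C : ℝ, ∀ X : ℝ, 1 ≤ X →
      {a | a ∈ Bad (q.1 + 1) (q.2.1.1 : ℝ) q.2.2 δ ∧ (a : ℝ) ≤ X}.Finite ∧
        ({a | a ∈ Bad (q.1 + 1) (q.2.1.1 : ℝ) q.2.2 δ ∧ (a : ℝ) ≤ X}.ncard : ℝ) ≤ C * X ^ η := fun q =>
    bad_count (by linarith [(Nat.cast_nonneg q.1 : (0 : ℝ) ≤ q.1)]) q.2.1.2.1 q.2.1.2.2 q.2.2
  choose D hD' using hD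
  set del : Q → ℕ → ℝ := fun q j => 1 / (((j : ℝ) + 1) * ((D q : ℝ) + 1)) with hdel
  have hdel0 : ∀ q j, 0 < del q j := fun q j => by
    simp only [hdel]
    positivity
  obtain ⟨E, hE0, hE⟩ := zero_family (Q := Q) (J := Unit) (fun a : ℕ => (a : ℝ)) hν B hB
    (fun q j _ => Bad (q.1 + 1) (q.2.1.1 : ℝ) q.2.2 (del q j)) (fun q j _ => hD' q (del q j) (1 / ((j : ℝ) + 1))
      (hdel0 q j) (by
        simp only [hdel]
        rw [one_div_mul_eq_div, div_le_div_iff₀ (by positivity) (by positivity)]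
        nlinarith [(Nat.cast_nonneg (D q) : (0 : ℝ) ≤ D q), (Nat.cast_nonneg j : (0 : ℝ) ≤ j)]))
  refine ⟨E, hE0, fun z hz hzE θ hθ κ hκ α hα U => ?_⟩
  obtain ⟨r, hr1, hr2⟩ := exists_rat_btwn (show max α 0 < 14 / 27 from max_lt hα (by norm_num))
  have hr0 : 0 ≤ (r : ℝ) := (le_max_right _ _).trans hr1.le
  set q : Q := (⌈κ⌉₊, ⟨r, hr0, hr2⟩, U) with hq
  obtain ⟨j, hj⟩ := hE z hz hzE θ hθ q
  refine ⟨del q j, hdel0 q j, fun β hβ hβ0 => ?_⟩
  obtain ⟨M, hM⟩ := ((hj β hβ hβ0 ()).bddAbove)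
  refine ⟨max (M + 1) 2, fun a ha hnear N haN hN => ?_⟩
  by_contra hcon
  push Not at hcon
  have ha2 : 2 ≤ a := (le_max_right _ _).trans ha
  have hmem : a ∈ Bad (q.1 + 1) (q.2.1.1 : ℝ) q.2.2 (del q j) := by
    refine ⟨by omega, N, haN, hN, hcon.trans_le ?_⟩
    refine Sum_mono hκ ?_ ((le_max_left _ _).trans hr1.le) hr0 (by omega) le_rfl a
    have := Nat.le_ceil κ
    show κ ≤ (⌈κ⌉₊ : ℝ) + 1
    linarith
  have := hM ⟨hmem, hnear⟩
  have h3 : M + 1 ≤ a := (le_max_left _ _).trans ha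
  omega

/-- **Maximum over the residues inside.** -/
theorem inside {ν : ℕ → ℝ} (hν : Fast ν) (B : Set ℝ) (hB : B.Countable) :
    ∃ E : Set ℝ, dimH E = 0 ∧ ∀ z : ℝ, 1 < z → z ∉ E → ∀ θ : ℝ, θ < 1 → ∀ κ : ℝ, 1 ≤ κ → ∀ α : ℝ, α < 14 / 27 →
      (∀ U : ℕ, ∃ δ : ℝ, 0 < δ ∧ ∀ β ∈ B, 0 < β → ∃ a₀ : ℕ, ∀ a : ℕ, a₀ ≤ a → Near ν θ β z a →
        ∀ N : ℕ, a ≤ N → (N : ℝ) ≤ Real.exp ((a : ℝ) ^ δ) → Sum κ α N a ≤ N / Real.log N ^ U) ∧
      ∀ T U : ℕ, ∃ K : ℝ, 0 < K ∧ ∀ β ∈ B, 0 < β → ∃ N₀ : ℕ, ∀ N : ℕ, N₀ ≤ N → ∀ A : Finset ℕ,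
        (∀ a ∈ A, Real.log N ^ K ≤ a ∧ a ≤ N ∧ Near ν θ β z a) → (A.card : ℝ) ≤ Real.log N ^ T →
          ∑ d ∈ Icc 1 ⌊(N : ℝ) ^ α⌋₊, κ ^ nuD d * ⨆ a : {a : ℕ // a ∈ A ∧ Nat.Coprime a d}, EMax N d a ≤
            N / Real.log N ^ U := by
  classical
  obtain ⟨E, hE0, hE⟩ := pointwise hν B hB
  refine ⟨E, hE0, fun z hz hzE θ hθ κ hκ α hα => ⟨hE z hz hzE θ hθ κ hκ α hα, fun T U => ?_⟩⟩
  obtain ⟨δ, hδ, h⟩ := hE z hz hzE θ hθ κ hκ α hα (U + T)
  refine ⟨1 / δ, by positivity, fun β hβ hβ0 => ?_⟩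
  obtain ⟨a₀, ha₀⟩ := h β hβ hβ0
  have hlim : Tendsto (fun N : ℕ => Real.log N ^ (1 / δ)) atTop atTop :=
    (tendsto_rpow_atTop (by positivity)).comp (Real.tendsto_log_atTop.comp tendsto_natCast_atTop_atTop)
  obtain ⟨N₁, hN₁⟩ := (hlim.eventually_ge_atTop (a₀ : ℝ)).exists_forall_of_atTop
  refine ⟨max N₁ 3, fun N hN A hA hcard => ?_⟩
  have hN3 : 3 ≤ N := (le_max_right _ _).trans hN
  have hlog : 0 < Real.log N := Real.log_pos (by exact_mod_cast (by omega : 1 < N))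
  have hpt : ∀ a ∈ A, Sum κ α N a ≤ N / Real.log N ^ (U + T) := by
    intro a ha
    obtain ⟨h1, h2, h3⟩ := hA a ha
    refine ha₀ a ?_ h3 N h2 ?_
    · exact_mod_cast (hN₁ N ((le_max_left _ _).trans hN)).trans h1
    · have h4 : Real.log N ≤ (a : ℝ) ^ δ := by
        have h5 := Real.rpow_le_rpow (by positivity) h1 hδ.le
        rw [← Real.rpow_mul hlog.le, one_div_mul_cancel hδ.ne', Real.rpow_one] at h5
        exact h5
      rw [← Real.log_le_iff_le_exp (by exact_mod_cast (by omega : 0 < N))]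
      exact h4
  calc ∑ d ∈ Icc 1 ⌊(N : ℝ) ^ α⌋₊, κ ^ nuD d * ⨆ a : {a : ℕ // a ∈ A ∧ Nat.Coprime a d}, EMax N d a
      ≤ ∑ d ∈ Icc 1 ⌊(N : ℝ) ^ α⌋₊, ∑ a ∈ A, if Nat.Coprime a d then κ ^ nuD d * EMax N d a else 0 := by
        refine Finset.sum_le_sum fun d _ => ?_
        have hk : 0 < κ ^ nuD d := pow_pos (by linarith) _
        have hnn : ∀ a ∈ A, 0 ≤ (if Nat.Coprime a d then κ ^ nuD d * EMax N d a else 0) := fun a _ => by
          split_ifs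
          · exact term_nonneg hκ _ _ _
          · exact le_rfl
        rw [← le_div_iff₀' hk]
        refine Real.iSup_le (fun a => ?_) (div_nonneg (Finset.sum_nonneg hnn) hk.le)
        rw [le_div_iff₀' hk]
        refine le_trans (le_of_eq ?_) (Finset.single_le_sum hnn a.2.1)
        rw [if_pos a.2.2]
    _ = ∑ a ∈ A, Sum κ α N a := by
        rw [Finset.sum_comm]
        refine Finset.sum_congr rfl fun a _ => ?_
        unfold Sum
        rw [Finset.sum_filter]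
    _ ≤ A.card * (N / Real.log N ^ (U + T)) := by
        refine (Finset.sum_le_card_nsmul _ _ _ hpt).trans (le_of_eq (nsmul_eq_mul _ _))
    _ ≤ Real.log N ^ T * (N / Real.log N ^ (U + T)) :=
        mul_le_mul_of_nonneg_right hcard (by positivity)
    _ = N / Real.log N ^ U := by
        rw [pow_add]
        field_simp

end Pool.Agent.V11265.LN
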