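import Mathlib

/-!
# Symmetric polynomial hypergroups (MP_5cc272_an): definitions and the counterexample family
-/

open Polynomial Finset

namespace Pool.Agent.V11265.PH

/-- `a_0 = 1` and `a_n = 1 - c_n` for `n ≥ 1`. -/
noncomputable def a (c : ℕ → ℝ) (n : ℕ) : ℝ := if n = 0 then 1 else 1 - c n

/-- The polynomials `P_n`: `P_0 = 1`, `P_1 = X`, `X P_n = a_n P_{n+1} + c_n P_{n-1}`. -/
noncomputable def P (c : ℕ → ℝ) : ℕ → ℝ[X]
  | 0 => 1
  | 1 => X
  | (n + 2) => C (a c (n + 1))⁻¹ * (X * P c (n + 1) - C (c (n + 1)) * P c n)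

/-- `c_n ∈ (0,1)` for `n ≥ 1` and `(P_n)` has nonnegative linearization of products: it induces
a polynomial hypergroup on `ℕ`. -/
structure IsHypergroup (c : ℕ → ℝ) : Prop where
  mem : ∀ n, 1 ≤ n → 0 < c n ∧ c n < 1
  lin : ∀ m n, ∃ g : ℕ → ℝ, (∀ k, 0 ≤ g k) ∧
    P c m * P c n = ∑ k ∈ range (m + n + 1), C (g k) * P c k

/-- The Haar weights `h(n) = ∏_{k=1}^n a_{k-1} / c_k`. -/
noncomputable def h (c : ℕ → ℝ) (n : ℕ) : ℝ := ∏ k ∈ range n, a c k / c (k + 1)

/-- `0` belongs to the dual space: `|P_n(0)| ≤ 1` for all `n`. -/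
def ZeroInDual (c : ℕ → ℝ) : Prop := ∀ n, |(P c n).eval 0| ≤ 1

/-- The family of sequences `c_1 = 1/2 - r`, `c_2 = 1 - 4r`, and then `r, 1 - r, r, 1 - r, …`. -/
noncomputable def fam (r : ℝ) (n : ℕ) : ℝ :=
  if n = 1 then 1 / 2 - r else if n = 2 then 1 - 4 * r else if n % 2 = 1 then r else 1 - r

/-! ### Nonnegative combinations -/

/-- nonnegative combinations of `P_0, …, P_N` -/
def Cone (c : ℕ → ℝ) (N : ℕ) (p : ℝ[X]) : Prop :=
  ∃ g : ℕ → ℝ, (∀ k, 0 ≤ g k) ∧ p = ∑ k ∈ range (N + 1), C (g k) * P c k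

lemma Cone.add {c : ℕ → ℝ} {N : ℕ} {p q : ℝ[X]} (hp : Cone c N p) (hq : Cone c N q) :
    Cone c N (p + q) := by
  obtain ⟨g, hg, rfl⟩ := hp
  obtain ⟨g', hg', rfl⟩ := hq
  refine ⟨fun k => g k + g' k, fun k => add_nonneg (hg k) (hg' k), ?_⟩
  rw [← sum_add_distrib]
  exact sum_congr rfl fun k _ => by rw [C_add]; ring

lemma Cone.smul {c : ℕ → ℝ} {N : ℕ} {p : ℝ[X]} {x : ℝ} (hx : 0 ≤ x) (hp : Cone c N p) :
    Cone c N (x • p) := by
  obtain ⟨g, hg, rfl⟩ := hp
  refine ⟨fun k => x * g k, fun k => mul_nonneg hx (hg k), ?_⟩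
  rw [smul_sum]
  exact sum_congr rfl fun k _ => by rw [C_mul, ← C_mul']; ring

lemma Cone.mem {c : ℕ → ℝ} {N k : ℕ} (hk : k ≤ N) : Cone c N (P c k) := by
  refine ⟨fun j => if j = k then 1 else 0, fun j => by dsimp only; split_ifs <;> norm_num, ?_⟩
  rw [sum_eq_single k]
  · simp
  · intro j _ hj; simp [hj]
  · intro h; exact absurd (mem_range.mpr (by omega)) h

section family

variable (r : ℝ)

/-- Chebyshev polynomials in `y = (X² - σ) / (2ρ)` -/
noncomputable def t (j : ℤ) : ℝ[X] :=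
  (Chebyshev.T ℝ j).comp (C (1 / (2 * (r * (1 - r)))) * (X ^ 2 - C (1 - 2 * r + 2 * r ^ 2)))

lemma t_zero : t r 0 = 1 := by simp [t]

lemma t_neg (j : ℤ) : t r (-j) = t r j := by simp [t]

lemma t_mul (i j : ℤ) : t r i * t r j = (1 / 2 : ℝ) • (t r (j + i) + t r (j - i)) := by
  have h2 : 2 * (t r j * t r i) = t r (j + i) + t r (j - i) := by
    have := congrArg (fun p : ℝ[X] => p.comp (C (1 / (2 * (r * (1 - r)))) *
      (X ^ 2 - C (1 - 2 * r + 2 * r ^ 2)))) (Chebyshev.T_mul_T ℝ j i)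
    simp only [mul_comp, add_comp] at this
    unfold t
    rw [← this]
    simp
    ring
  rw [← h2, mul_comm (t r i), ← C_mul', ← mul_assoc]
  have : (C (1 / 2 : ℝ) : ℝ[X]) * 2 = 1 := by
    rw [show (2 : ℝ[X]) = C (2 : ℝ) from rfl, ← C_mul]; norm_num
  rw [this, one_mul]

lemma t_X (hr : r * (1 - r) ≠ 0) (j : ℤ) : X ^ 2 * t r j =
    (1 - 2 * r + 2 * r ^ 2) • t r j + (r * (1 - r)) • (t r (j + 1) + t r (j - 1)) := by
  have h1 : t r 1 = (1 / (2 * (r * (1 - r)))) • (X ^ 2 - C (1 - 2 * r + 2 * r ^ 2)) := by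
    unfold t
    rw [Chebyshev.T_one, X_comp, C_mul']
  have h2 : X ^ 2 = (1 - 2 * r + 2 * r ^ 2) • (1 : ℝ[X]) + (2 * (r * (1 - r))) • t r 1 := by
    rw [h1, smul_smul, mul_one_div_cancel (by simpa using hr), one_smul]
    rw [← C_mul', mul_one]; ring
  have h3 := t_mul r 1 j
  calc X ^ 2 * t r j = (1 - 2 * r + 2 * r ^ 2) • t r j + (2 * (r * (1 - r))) • (t r 1 * t r j) := by
        rw [h2, add_mul, smul_mul_assoc, smul_mul_assoc, one_mul]
    _ = _ := by
        rw [h3]; module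

/-- even polynomials -/
noncomputable def E (k : ℤ) : ℝ[X] :=
  (r * (1 - r) / (1 + 2 * r)) • t r k + ((1 - 2 * r + 4 * r ^ 2) / (1 + 2 * r)) • t r (k - 1) +
    (3 * r * (1 - r) / (1 + 2 * r)) • t r (k - 2)

/-- odd polynomials -/
noncomputable def O (k : ℤ) : ℝ[X] :=
  X * (((1 - r) / (1 + 2 * r)) • t r k + (3 * r / (1 + 2 * r)) • t r (k - 1))

lemma t_E (i k : ℤ) : t r i * E r k = (1 / 2 : ℝ) • (E r (k + i) + E r (k - i)) := by
  unfold E
  rw [mul_add, mul_add, mul_smul_comm, mul_smul_comm, mul_smul_comm, t_mul, t_mul, t_mul,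
    show k - 1 + i = k + i - 1 by ring, show k - 1 - i = k - i - 1 by ring,
    show k - 2 + i = k + i - 2 by ring, show k - 2 - i = k - i - 2 by ring]
  module

lemma t_O (i k : ℤ) : t r i * O r k = (1 / 2 : ℝ) • (O r (k + i) + O r (k - i)) := by
  unfold O
  rw [mul_left_comm, mul_add, mul_smul_comm, mul_smul_comm, t_mul, t_mul,
    show k - 1 + i = k + i - 1 by ring, show k - 1 - i = k - i - 1 by ring,
    ← mul_add, ← mul_smul_comm]
  congr 1
  module

lemma X_E (hr : 1 + 2 * r ≠ 0) (k : ℤ) : X * E r k = r • O r k + (1 - r) • O r (k - 1) := by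
  unfold E O
  rw [show k - 1 - 1 = k - 2 by ring, ← mul_smul_comm, ← mul_smul_comm, ← mul_add]
  congr 1
  match_scalars <;> field_simp <;> ring

lemma X_O (hr : 1 + 2 * r ≠ 0) (hr2 : r * (1 - r) ≠ 0) (k : ℤ) :
    X * O r k = (1 - r) • E r (k + 1) + r • E r k := by
  unfold E O
  rw [← mul_assoc, ← sq, mul_add, mul_smul_comm, mul_smul_comm, t_X r hr2, t_X r hr2,
    show k - 1 + 1 = k by ring, show k - 1 - 1 = k - 2 by ring, show k + 1 - 1 = k by ring,
    show k + 1 - 2 = k - 1 by ring]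
  match_scalars <;> field_simp <;> ring

/-! ### Identification with the polynomials of the family -/

lemma O_zero (hr : 1 + 2 * r ≠ 0) (h1r : 1 - r ≠ 0) : O r 0 =
    (3 * r / (1 - r)) • O r 1 + ((1 - 4 * r) / (1 - r)) • (X : ℝ[X]) := by
  have hr' : 1 + r * 2 ≠ 0 := by rwa [mul_comm r 2]
  unfold O
  rw [show (0 : ℤ) - 1 = -1 by ring, t_neg, show (1 : ℤ) - 1 = 0 by ring, t_zero,
    mul_add, mul_add, mul_smul_comm, mul_smul_comm, mul_smul_comm, mul_smul_comm, mul_one]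
  match_scalars <;> field_simp <;> ring

lemma E_zero (hr : 1 + 2 * r ≠ 0) (h0r : r ≠ 0) (h1r : 1 - r ≠ 0) : E r 0 =
    (3 : ℝ) • E r 2 + (-((1 - 2 * r + 4 * r ^ 2) / (2 * (r * (1 - r))))) • E r 1 +
      ((1 - 2 * r) * (1 - 4 * r) / (2 * (r * (1 - r)))) • (1 : ℝ[X]) := by
  have hr' : 1 + r * 2 ≠ 0 := by rwa [mul_comm r 2]
  unfold E
  rw [show (0 : ℤ) - 1 = -1 by ring, show (0 : ℤ) - 2 = -2 by ring, t_neg, t_neg,
    show (1 : ℤ) - 1 = 0 by ring, show (1 : ℤ) - 2 = -1 by ring, show (2 : ℤ) - 1 = 1 by ring,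
    show (2 : ℤ) - 2 = 0 by ring, t_neg, t_zero]
  match_scalars <;> field_simp <;> ring

lemma t_one : t r 1 = (1 / (2 * (r * (1 - r)))) • (X ^ 2 - C (1 - 2 * r + 2 * r ^ 2)) := by
  unfold t
  rw [Chebyshev.T_one, X_comp, C_mul']

lemma E_one (hr : 1 + 2 * r ≠ 0) (hr2 : r ≠ 0) (h1r : 1 - r ≠ 0) :
    E r 1 = (1 / 2 + r)⁻¹ • (X ^ 2 - (1 / 2 - r) • (1 : ℝ[X])) := by
  have h2 : (1 / 2 + r) ≠ 0 := by
    intro h; apply hr; linarith
  unfold E
  rw [show (1 : ℤ) - 1 = 0 by ring, show (1 : ℤ) - 2 = -1 by ring, t_neg, t_zero, t_one,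
    ← mul_one (C (1 - 2 * r + 2 * r ^ 2)), C_mul']
  match_scalars <;> field_simp <;> ring

variable {r}

lemma fam_one : fam r 1 = 1 / 2 - r := by simp [fam]
lemma fam_two : fam r 2 = 1 - 4 * r := by simp [fam]
lemma fam_odd {k : ℕ} (hk : 1 ≤ k) : fam r (2 * k + 1) = r := by
  unfold fam
  rw [if_neg (by omega), if_neg (by omega), if_pos (by omega)]
lemma fam_even {k : ℕ} (hk : 1 ≤ k) : fam r (2 * k + 2) = 1 - r := by
  unfold fam
  rw [if_neg (by omega), if_neg (by omega), if_neg (by omega)]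

lemma P_succ (c : ℕ → ℝ) (n : ℕ) :
    P c (n + 2) = (a c (n + 1))⁻¹ • (X * P c (n + 1) - (c (n + 1)) • P c n) := by
  rw [P, C_mul', C_mul']

lemma P_fam (h0 : 0 < r) (h1 : r < 1 / 4) (k : ℕ) (hk : 1 ≤ k) :
    P (fam r) (2 * k) = E r k ∧ P (fam r) (2 * k + 1) = O r k := by
  have hq : 1 + 2 * r ≠ 0 := by positivity
  have hr : r ≠ 0 := h0.ne'
  have h1r : 1 - r ≠ 0 := by
    intro h; linarith
  have hq' : 1 + r * 2 ≠ 0 := by rwa [mul_comm r 2]
  induction k, hk using Nat.le_induction with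
  | base =>
    have h2 : P (fam r) (2 * 1) = E r 1 := by
      rw [E_one r hq hr h1r, show 2 * 1 = 0 + 2 by rfl, P_succ]
      simp only [zero_add, P, a, fam_one]
      rw [if_neg one_ne_zero, show (1 : ℝ) - (1 / 2 - r) = 1 / 2 + r by ring, sq]
    refine ⟨h2, ?_⟩
    rw [show 2 * 1 + 1 = 1 + 2 by rfl, P_succ]
    rw [show 1 + 1 = 2 * 1 by rfl, h2, X_E r hq, show ((1 : ℕ) : ℤ) = 1 by rfl,
      show (1 : ℤ) - 1 = 0 by ring, O_zero r hq h1r]
    simp only [P, a, mul_one, fam_two]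
    rw [if_neg (by norm_num), show (1 : ℝ) - (1 - 4 * r) = 4 * r by ring]
    match_scalars <;> field_simp <;> ring
  | succ k hk ih =>
    have h3 : P (fam r) (2 * (k + 1)) = E r ((k + 1 : ℕ) : ℤ) := by
      rw [show 2 * (k + 1) = 2 * k + 2 by ring, P_succ, ih.1, ih.2, X_O r hq (by positivity)]
      simp only [a, fam_odd hk]
      rw [if_neg (by omega)]
      push_cast
      match_scalars <;> field_simp <;> ring
    refine ⟨h3, ?_⟩
    rw [show 2 * (k + 1) + 1 = (2 * k + 1) + 2 by ring, P_succ,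
      show 2 * k + 1 + 1 = 2 * (k + 1) by ring, h3, ih.2, X_E r hq]
    simp only [a, show 2 * (k + 1) = 2 * k + 2 by ring, fam_even hk]
    rw [if_neg (by omega)]
    push_cast
    rw [show (k : ℤ) + 1 - 1 = k by ring, show (1 : ℝ) - (1 - r) = r by ring]
    match_scalars <;> field_simp <;> ring

/-! ### Products -/

lemma E_mul (r : ℝ) (k n : ℤ) (f : ℤ → ℝ[X])
    (hf : ∀ i j, t r i * f j = (1 / 2 : ℝ) • (f (j + i) + f (j - i))) : E r k * f n =
    (r * (1 - r) / (1 + 2 * r) / 2) • (f (n + k) + f (n - k)) +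
      ((1 - 2 * r + 4 * r ^ 2) / (1 + 2 * r) / 2) • (f (n + k - 1) + f (n - k + 1)) +
      (3 * r * (1 - r) / (1 + 2 * r) / 2) • (f (n + k - 2) + f (n - k + 2)) := by
  unfold E
  rw [add_mul, add_mul, smul_mul_assoc, smul_mul_assoc, smul_mul_assoc, hf, hf, hf,
    show n + (k - 1) = n + k - 1 by ring, show n - (k - 1) = n - k + 1 by ring,
    show n + (k - 2) = n + k - 2 by ring, show n - (k - 2) = n - k + 2 by ring]
  module

lemma O_mul (r : ℝ) (k n : ℤ) (f : ℤ → ℝ[X])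
    (hf : ∀ i j, t r i * f j = (1 / 2 : ℝ) • (f (j + i) + f (j - i))) : O r k * f n =
    ((1 - r) / (1 + 2 * r) / 2) • (X * f (n + k) + X * f (n - k)) +
      (3 * r / (1 + 2 * r) / 2) • (X * f (n + k - 1) + X * f (n - k + 1)) := by
  unfold O
  rw [mul_assoc, add_mul, smul_mul_assoc, smul_mul_assoc, hf, hf,
    show n + (k - 1) = n + k - 1 by ring, show n - (k - 1) = n - k + 1 by ring,
    ← mul_add, ← mul_add, ← mul_smul_comm, ← mul_smul_comm, ← mul_add]
  congr 1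
  module

lemma coneE (h0 : 0 < r) (h1 : r < 1 / 4) {k : ℤ} {N : ℕ} (hk : 1 ≤ k) (hN : 2 * k ≤ N) :
    Cone (fam r) N (E r k) := by
  obtain ⟨j, rfl⟩ := Int.eq_ofNat_of_zero_le (by omega : 0 ≤ k)
  rw [← (P_fam h0 h1 j (by omega)).1]
  exact Cone.mem (by omega)

lemma coneX (N : ℕ) (hN : 1 ≤ N) : Cone (fam r) N X := Cone.mem (k := 1) hN

lemma coneOne (N : ℕ) : Cone (fam r) N 1 := Cone.mem (k := 0) (by omega)

lemma coneO (h0 : 0 < r) (h1 : r < 1 / 4) {k : ℤ} {N : ℕ} (hk : 0 ≤ k) (hN : 2 * k + 1 ≤ N)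
    (h3 : 3 ≤ N) : Cone (fam r) N (O r k) := by
  have key : ∀ j : ℤ, 1 ≤ j → 2 * j + 1 ≤ N → Cone (fam r) N (O r j) := by
    intro j hj hjN
    obtain ⟨i, rfl⟩ := Int.eq_ofNat_of_zero_le (by omega : 0 ≤ j)
    rw [← (P_fam h0 h1 i (by omega)).2]
    exact Cone.mem (by omega)
  rcases eq_or_lt_of_le hk with rfl | hk
  · rw [O_zero r (by positivity) (by intro h; linarith)]
    have e1 : 0 < 1 - r := by linarith
    have e2 : 0 ≤ 1 - 4 * r := by linarith
    exact ((key 1 le_rfl (by omega)).smul (by positivity)).add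
      ((coneX N (by omega)).smul (by positivity))
  · exact key k (by omega) hN

lemma coneXE (h0 : 0 < r) (h1 : r < 1 / 4) {k : ℤ} {N : ℕ} (hk : 1 ≤ k) (hN : 2 * k + 1 ≤ N) :
    Cone (fam r) N (X * E r k) := by
  rw [X_E r (by positivity)]
  exact ((coneO h0 h1 (by omega) (by omega) (by omega)).smul h0.le).add
    ((coneO h0 h1 (by omega) (by omega) (by omega)).smul (by linarith))

lemma coneXO (h0 : 0 < r) (h1 : r < 1 / 4) {k : ℤ} {N : ℕ} (hk : 1 ≤ k) (hN : 2 * k + 2 ≤ N) :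
    Cone (fam r) N (X * O r k) := by
  have e1 : 0 < 1 - r := by linarith
  rw [X_O r (by positivity) (by positivity)]
  exact ((coneE h0 h1 (by omega) (by omega)).smul e1.le).add
    ((coneE h0 h1 (by omega) (by omega)).smul h0.le)

/-- `E_k E_n` -/
lemma cone_EE (h0 : 0 < r) (h1 : r < 1 / 4) {k n : ℤ} {N : ℕ} (hk : 1 ≤ k) (hkn : k ≤ n)
    (hN : 2 * k + 2 * n ≤ N) : Cone (fam r) N (E r k * E r n) := by
  have e1 : 0 < 1 - r := by linarith
  have e2 : 0 < 1 - 2 * r + 4 * r ^ 2 := by nlinarith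
  have e3 : 0 < 1 - 2 * r := by linarith
  have e4 : 0 < 1 - 4 * r := by linarith
  have hq : 1 + 2 * r ≠ 0 := by positivity
  have hq' : 1 + r * 2 ≠ 0 := by positivity
  rcases eq_or_lt_of_le hkn with rfl | hlt
  · rcases eq_or_lt_of_le hk with rfl | hk2
    · have : E r 1 * E r 1 = (8 * (r * (1 - r)) / (1 + 2 * r)) • E r 2 +
          ((1 - 2 * r) * (1 - 4 * r) / (1 + 2 * r)) • (1 : ℝ[X]) := by
        rw [E_mul r 1 1 (E r) (t_E r), show (1 : ℤ) + 1 = 2 by ring,
          show (1 : ℤ) - 1 = 0 by ring, show (2 : ℤ) - 1 = 1 by ring, show (0 : ℤ) + 1 = 1 by ring,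
          show (2 : ℤ) - 2 = 0 by ring, show (0 : ℤ) + 2 = 2 by ring,
          E_zero r hq h0.ne' e1.ne']
        match_scalars <;> field_simp <;> ring
      rw [this]
      exact ((coneE h0 h1 (by omega) (by omega)).smul (by positivity)).add
        ((coneOne N).smul (by positivity))
    · have : E r k * E r k = (r * (1 - r) / (1 + 2 * r) / 2) • E r (k + k) +
          ((1 - 2 * r + 4 * r ^ 2) / (1 + 2 * r) / 2) • E r (k + k - 1) +
          (3 * r * (1 - r) / (1 + 2 * r) / 2) • E r (k + k - 2) +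
          (3 * r * (1 - r) / (1 + 2 * r)) • E r 2 +
          ((1 - 2 * r + 4 * r ^ 2) / (1 + 2 * r) / 4) • E r 1 +
          ((1 - 2 * r) * (1 - 4 * r) / (1 + 2 * r) / 4) • (1 : ℝ[X]) := by
        rw [E_mul r k k (E r) (t_E r), show k - k = 0 by ring, show (0 : ℤ) + 1 = 1 by ring,
          show (0 : ℤ) + 2 = 2 by ring, E_zero r hq h0.ne' e1.ne']
        match_scalars <;> field_simp <;> ring
      rw [this]
      refine (((((?_ : Cone _ _ _).add ?_).add ?_).add ?_).add ?_).add ?_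
      · exact (coneE h0 h1 (by omega) (by omega)).smul (by positivity)
      · exact (coneE h0 h1 (by omega) (by omega)).smul (by positivity)
      · exact (coneE h0 h1 (by omega) (by omega)).smul (by positivity)
      · exact (coneE h0 h1 (by omega) (by omega)).smul (by positivity)
      · exact (coneE h0 h1 (by omega) (by omega)).smul (by positivity)
      · exact (coneOne N).smul (by positivity)
  · rw [E_mul r k n (E r) (t_E r)]
    refine ((Cone.smul ?_ (Cone.add ?_ ?_)).add (Cone.smul ?_ (Cone.add ?_ ?_))).add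
      (Cone.smul ?_ (Cone.add ?_ ?_))
    · positivity
    · exact coneE h0 h1 (by omega) (by omega)
    · exact coneE h0 h1 (by omega) (by omega)
    · positivity
    · exact coneE h0 h1 (by omega) (by omega)
    · exact coneE h0 h1 (by omega) (by omega)
    · positivity
    · exact coneE h0 h1 (by omega) (by omega)
    · exact coneE h0 h1 (by omega) (by omega)

/-- `E_k O_n` with `k ≤ n` -/
lemma cone_EO (h0 : 0 < r) (h1 : r < 1 / 4) {k n : ℤ} {N : ℕ} (hk : 1 ≤ k) (hkn : k ≤ n)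
    (hN : 2 * k + 2 * n + 1 ≤ N) : Cone (fam r) N (E r k * O r n) := by
  have e1 : 0 < 1 - r := by linarith
  have e2 : 0 < 1 - 2 * r + 4 * r ^ 2 := by nlinarith
  rw [E_mul r k n (O r) (t_O r)]
  refine ((Cone.smul ?_ (Cone.add ?_ ?_)).add (Cone.smul ?_ (Cone.add ?_ ?_))).add
    (Cone.smul ?_ (Cone.add ?_ ?_))
  · positivity
  · exact coneO h0 h1 (by omega) (by omega) (by omega)
  · exact coneO h0 h1 (by omega) (by omega) (by omega)
  · positivity
  · exact coneO h0 h1 (by omega) (by omega) (by omega)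
  · exact coneO h0 h1 (by omega) (by omega) (by omega)
  · positivity
  · exact coneO h0 h1 (by omega) (by omega) (by omega)
  · exact coneO h0 h1 (by omega) (by omega) (by omega)

/-- `O_n E_k` with `n < k` -/
lemma cone_OE (h0 : 0 < r) (h1 : r < 1 / 4) {k n : ℤ} {N : ℕ} (hk : 1 ≤ n) (hkn : n < k)
    (hN : 2 * k + 2 * n + 1 ≤ N) : Cone (fam r) N (O r n * E r k) := by
  have e1 : 0 < 1 - r := by linarith
  rw [O_mul r n k (E r) (t_E r)]
  refine (Cone.smul ?_ (Cone.add ?_ ?_)).add (Cone.smul ?_ (Cone.add ?_ ?_))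
  · positivity
  · exact coneXE h0 h1 (by omega) (by omega)
  · exact coneXE h0 h1 (by omega) (by omega)
  · positivity
  · exact coneXE h0 h1 (by omega) (by omega)
  · exact coneXE h0 h1 (by omega) (by omega)

/-- `O_k O_n` -/
lemma cone_OO (h0 : 0 < r) (h1 : r < 1 / 4) {k n : ℤ} {N : ℕ} (hk : 1 ≤ k) (hkn : k ≤ n)
    (hN : 2 * k + 2 * n + 2 ≤ N) : Cone (fam r) N (O r k * O r n) := by
  have e1 : 0 < 1 - r := by linarith
  have e2 : 0 < 1 - 2 * r + 4 * r ^ 2 := by nlinarith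
  have e3 : 0 < 1 - 2 * r := by linarith
  have e4 : 0 < 1 - 4 * r := by linarith
  have hq : 1 + 2 * r ≠ 0 := by positivity
  have hq' : 1 + r * 2 ≠ 0 := by positivity
  rcases eq_or_lt_of_le hkn with rfl | hlt
  · have : O r k * O r k = ((1 - r) / (1 + 2 * r) / 2) • (X * O r (k + k)) +
        (3 * r / (1 + 2 * r) / 2) • (X * O r (k + k - 1)) +
        (3 * r * (1 - r) / (1 + 2 * r)) • E r 2 +
        ((1 - 2 * r + 4 * r ^ 2) / (1 + 2 * r) / 4) • E r 1 +
        ((1 - 2 * r) * (1 - 4 * r) / (1 + 2 * r) / 4) • (1 : ℝ[X]) := by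
      rw [O_mul r k k (O r) (t_O r), show k - k = 0 by ring, show (0 : ℤ) + 1 = 1 by ring,
        X_O r hq (by positivity) 0, X_O r hq (by positivity) 1, show (0 : ℤ) + 1 = 1 by ring,
        show (1 : ℤ) + 1 = 2 by ring, E_zero r hq h0.ne' e1.ne']
      match_scalars <;> field_simp <;> ring
    rw [this]
    refine ((((?_ : Cone _ _ _).add ?_).add ?_).add ?_).add ?_
    · exact (coneXO h0 h1 (by omega) (by omega)).smul (by positivity)
    · exact (coneXO h0 h1 (by omega) (by omega)).smul (by positivity)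
    · exact (coneE h0 h1 (by omega) (by omega)).smul (by positivity)
    · exact (coneE h0 h1 (by omega) (by omega)).smul (by positivity)
    · exact (coneOne N).smul (by positivity)
  · rw [O_mul r k n (O r) (t_O r)]
    refine (Cone.smul ?_ (Cone.add ?_ ?_)).add (Cone.smul ?_ (Cone.add ?_ ?_))
    · positivity
    · exact coneXO h0 h1 (by omega) (by omega)
    · exact coneXO h0 h1 (by omega) (by omega)
    · positivity
    · exact coneXO h0 h1 (by omega) (by omega)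
    · exact coneXO h0 h1 (by omega) (by omega)

end family

end Pool.Agent.V11265.PH
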