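import Pool.Agent.V11265.PH1

/-!
# Symmetric polynomial hypergroups: the family is a hypergroup, and odd Haar weights
-/

open Polynomial Finset

namespace Pool.Agent.V11265.PH

lemma X_mul_P (c : ℕ → ℝ) (hc : ∀ n, 1 ≤ n → 0 < c n ∧ c n < 1) (n : ℕ) :
    X * P c (n + 1) = a c (n + 1) • P c (n + 2) + c (n + 1) • P c n := by
  have h1 : a c (n + 1) ≠ 0 := by
    have := (hc (n + 1) (by omega)).2
    unfold a; rw [if_neg (by omega)]; intro h; linarith
  rw [P_succ, smul_smul, mul_inv_cancel₀ h1, one_smul]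
  abel

section fam

variable {r : ℝ}

lemma fam_mem (h0 : 0 < r) (h1 : r < 1 / 4) (n : ℕ) (_hn : 1 ≤ n) :
    0 < fam r n ∧ fam r n < 1 := by
  unfold fam
  split_ifs <;> constructor <;> linarith

lemma cone_le (h0 : 0 < r) (h1 : r < 1 / 4) {m n : ℕ} (hmn : m ≤ n) :
    Cone (fam r) (m + n) (P (fam r) m * P (fam r) n) := by
  rcases Nat.lt_or_ge m 2 with hm | hm
  · obtain rfl | rfl : m = 0 ∨ m = 1 := by omega
    · have : P (fam r) 0 = 1 := rfl
      rw [this, one_mul]
      exact Cone.mem (by omega)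
    · have : P (fam r) 1 = X := rfl
      obtain ⟨j, rfl⟩ : ∃ j, n = j + 1 := ⟨n - 1, by omega⟩
      have hc := fam_mem h0 h1 (j + 1) (by omega)
      rw [this, X_mul_P (fam r) (fam_mem h0 h1) j]
      refine ((Cone.mem (by omega)).smul ?_).add ((Cone.mem (by omega)).smul hc.1.le)
      unfold a; rw [if_neg (by omega)]; linarith
  · obtain ⟨k, rfl | rfl⟩ : ∃ k, m = 2 * k ∨ m = 2 * k + 1 := ⟨m / 2, by omega⟩
    · obtain ⟨l, rfl | rfl⟩ : ∃ l, n = 2 * l ∨ n = 2 * l + 1 := ⟨n / 2, by omega⟩
      · rw [(P_fam h0 h1 k (by omega)).1, (P_fam h0 h1 l (by omega)).1]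
        exact cone_EE h0 h1 (by omega) (by omega) (by push_cast; omega)
      · rw [(P_fam h0 h1 k (by omega)).1, (P_fam h0 h1 l (by omega)).2]
        exact cone_EO h0 h1 (by omega) (by omega) (by push_cast; omega)
    · obtain ⟨l, rfl | rfl⟩ : ∃ l, n = 2 * l ∨ n = 2 * l + 1 := ⟨n / 2, by omega⟩
      · rw [(P_fam h0 h1 k (by omega)).2, (P_fam h0 h1 l (by omega)).1]
        exact cone_OE h0 h1 (by omega) (by omega) (by push_cast; omega)
      · rw [(P_fam h0 h1 k (by omega)).2, (P_fam h0 h1 l (by omega)).2]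
        exact cone_OO h0 h1 (by omega) (by omega) (by push_cast; omega)

lemma fam_hyp (h0 : 0 < r) (h1 : r < 1 / 4) : IsHypergroup (fam r) := by
  refine ⟨fun n hn => fam_mem h0 h1 n hn, fun m n => ?_⟩
  rcases le_total m n with h | h
  · exact cone_le h0 h1 h
  · rw [mul_comm, add_comm m n]
    exact cone_le h0 h1 h

lemma fam_zero (h0 : 0 < r) (h1 : r < 1 / 4) : ZeroInDual (fam r) := by
  have hstep : ∀ n, (P (fam r) (n + 2)).eval 0 =
      -(fam r (n + 1) / a (fam r) (n + 1)) * (P (fam r) n).eval 0 := by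
    intro n
    rw [P_succ]
    simp only [eval_smul, eval_sub, eval_mul, eval_X, zero_mul, smul_eq_mul]
    rw [div_eq_mul_inv]; ring
  have key : ∀ k, |(P (fam r) (2 * k)).eval 0| ≤ 1 ∧ (P (fam r) (2 * k + 1)).eval 0 = 0 := by
    intro k
    induction k with
    | zero => simp [P]
    | succ k ih =>
      refine ⟨?_, ?_⟩
      · rw [show 2 * (k + 1) = 2 * k + 2 by ring, hstep, abs_mul, abs_neg]
        have h2 : |fam r (2 * k + 1) / a (fam r) (2 * k + 1)| ≤ 1 := by
          have hc := fam_mem h0 h1 (2 * k + 1) (by omega)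
          have ha : a (fam r) (2 * k + 1) = 1 - fam r (2 * k + 1) := by
            unfold a; rw [if_neg (by omega)]
          have h3 : fam r (2 * k + 1) ≤ 1 / 2 := by
            rcases Nat.eq_zero_or_pos k with rfl | hk
            · rw [show 2 * 0 + 1 = 1 by rfl, fam_one]; linarith
            · rw [fam_odd hk]; linarith
          rw [ha, abs_of_nonneg (div_nonneg hc.1.le (by linarith)), div_le_one (by linarith)]
          linarith
        calc _ ≤ 1 * 1 := mul_le_mul h2 ih.1 (abs_nonneg _) zero_le_one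
          _ = 1 := one_mul 1
      · rw [show 2 * (k + 1) + 1 = (2 * k + 1) + 2 by ring, hstep, ih.2, mul_zero]
  intro n
  obtain ⟨k, rfl | rfl⟩ : ∃ k, n = 2 * k ∨ n = 2 * k + 1 := ⟨n / 2, by omega⟩
  · exact (key k).1
  · rw [(key k).2, abs_zero]; exact zero_le_one

lemma h_succ (c : ℕ → ℝ) (n : ℕ) : h c (n + 1) = h c n * (a c n / c (n + 1)) := by
  unfold h; rw [prod_range_succ]

lemma h_zero (c : ℕ → ℝ) : h c 0 = 1 := by simp [h]

lemma fam_h_two (h0 : 0 < r) (h1 : r < 1 / 4) :
    h (fam r) 2 = (1 + 2 * r) / ((1 - 2 * r) * (1 - 4 * r)) := by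
  have e3 : 0 < 1 - 2 * r := by linarith
  have e4 : 0 < 1 - 4 * r := by linarith
  have e5 : 0 < 1 / 2 - r := by linarith
  rw [h_succ, h_succ, h_zero, show 0 + 1 = 1 by rfl, show 1 + 1 = 2 by rfl, fam_two, fam_one]
  unfold a
  rw [if_pos rfl, if_neg one_ne_zero, fam_one]
  have e6 : (1 / 2 - r) = (1 - 2 * r) / 2 := by ring
  rw [e6]
  field_simp
  ring

lemma fam_h_ge (h0 : 0 < r) (h1 : r < 1 / 4) (n : ℕ) (hn : 3 ≤ n) :
    h (fam r) n = 4 * h (fam r) 2 := by
  induction n, hn using Nat.le_induction with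
  | base =>
    rw [h_succ, show 2 + 1 = 2 * 1 + 1 by rfl, fam_odd le_rfl]
    unfold a
    rw [if_neg (by norm_num), fam_two]
    field_simp
    ring
  | succ n hn ih =>
    rw [h_succ, ih]
    have h2 : a (fam r) n / fam r (n + 1) = 1 := by
      unfold a
      rw [if_neg (by omega)]
      obtain ⟨k, rfl | rfl⟩ : ∃ k, n = 2 * k ∨ n = 2 * k + 1 := ⟨n / 2, by omega⟩
      · rw [fam_odd (by omega), show 2 * k = 2 * (k - 1) + 2 by omega, fam_even (by omega)]
        rw [show (1 : ℝ) - (1 - r) = r by ring, div_self h0.ne']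
      · rw [fam_odd (by omega), show 2 * k + 1 + 1 = 2 * k + 2 by ring, fam_even (by omega)]
        exact div_self (by intro h; linarith)
    rw [h2, mul_one]

end fam

/-! ### Odd Haar weights -/

section odd

variable {c : ℕ → ℝ}

/-- multiplication by `X` in the basis `P_k` -/
noncomputable def J (c : ℕ → ℝ) : (ℕ →₀ ℝ) →ₗ[ℝ] (ℕ →₀ ℝ) :=
  Finsupp.linearCombination ℝ (fun k : ℕ => a c k • Finsupp.single (k + 1) (1 : ℝ) +
    (if k = 0 then 0 else c k) • Finsupp.single (k - 1) (1 : ℝ))

lemma J_single (k : ℕ) : J c (Finsupp.single k 1) = a c k • Finsupp.single (k + 1) (1 : ℝ) +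
    (if k = 0 then 0 else c k) • Finsupp.single (k - 1) (1 : ℝ) := by
  unfold J
  rw [Finsupp.linearCombination_single, one_smul]

/-- the functional with `L P_0 = 1`, `L P_k = 0` for `k ≥ 1` -/
noncomputable def L (c : ℕ → ℝ) (p : ℝ[X]) : ℝ := (aeval (J c) p (Finsupp.single 0 1)) 0

lemma L_add (p q : ℝ[X]) : L c (p + q) = L c p + L c q := by
  simp [L]

lemma L_smul (x : ℝ) (p : ℝ[X]) : L c (x • p) = x * L c p := by
  simp [L]

lemma aeval_P (hc : ∀ n, 1 ≤ n → 0 < c n ∧ c n < 1) (k : ℕ) :
    aeval (J c) (P c k) (Finsupp.single 0 1) = Finsupp.single k 1 ∧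
      aeval (J c) (P c (k + 1)) (Finsupp.single 0 1) = Finsupp.single (k + 1) 1 := by
  induction k with
  | zero =>
    refine ⟨by simp [P], ?_⟩
    simp only [zero_add, P, aeval_X]
    rw [J_single]
    simp [a]
  | succ k ih =>
    refine ⟨ih.2, ?_⟩
    have h1 : a c (k + 1) ≠ 0 := by
      have := (hc (k + 1) (by omega)).2
      unfold a; rw [if_neg (by omega)]; intro h; linarith
    rw [show k + 1 + 1 = k + 2 by ring, P_succ]
    simp only [map_smul, map_sub, map_mul, aeval_X, LinearMap.smul_apply, LinearMap.sub_apply,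
      Module.End.mul_apply]
    rw [ih.1, ih.2, J_single, if_neg (by omega), show k + 1 - 1 = k by omega, add_sub_cancel_right,
      smul_smul, inv_mul_cancel₀ h1, one_smul]

lemma L_P (hc : ∀ n, 1 ≤ n → 0 < c n ∧ c n < 1) (k : ℕ) : L c (P c k) = if k = 0 then 1 else 0 := by
  unfold L
  rw [(aeval_P hc k).1, Finsupp.single_apply]

lemma h_pos (hc : ∀ n, 1 ≤ n → 0 < c n ∧ c n < 1) (n : ℕ) : 0 < h c n := by
  unfold h
  refine prod_pos fun k _ => div_pos ?_ (hc (k + 1) (by omega)).1
  unfold a
  split_ifs with h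
  · exact one_pos
  · have := (hc k (by omega)).2; linarith

lemma L_mul (hc : ∀ n, 1 ≤ n → 0 < c n ∧ c n < 1) (m : ℕ) :
    (∀ n, L c (P c m * P c n) = if m = n then (h c n)⁻¹ else 0) ∧
      (∀ n, L c (P c (m + 1) * P c n) = if m + 1 = n then (h c n)⁻¹ else 0) := by
  have hrec : ∀ n, (h c n)⁻¹ * c (n + 1) = (h c (n + 1))⁻¹ * a c n := by
    intro n
    have h1 := (h_pos hc n).ne'
    have h2 := (hc (n + 1) (by omega)).1.ne'
    have h3 : a c n ≠ 0 := by
      unfold a
      split_ifs with h
      · exact one_ne_zero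
      · have := (hc n (by omega)).2; intro h'; linarith
    rw [h_succ]
    field_simp
  induction m with
  | zero =>
    refine ⟨fun n => ?_, fun n => ?_⟩
    · have : P c 0 = 1 := rfl
      rw [this, one_mul, L_P hc]
      by_cases hn : n = 0
      · subst hn; simp [h_zero]
      · rw [if_neg hn, if_neg (Ne.symm hn)]
    · have h1 : P c (0 + 1) = X := rfl
      rw [h1]
      cases n with
      | zero =>
        have : P c 0 = 1 := rfl
        rw [this, mul_one, ← h1, L_P hc]; simp
      | succ n =>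
        rw [X_mul_P c hc, L_add, L_smul, L_smul, L_P hc, L_P hc, if_neg (by omega), mul_zero,
          zero_add]
        by_cases hn : n = 0
        · subst hn
          have := hrec 0
          rw [h_zero] at this
          simp only [a, if_pos] at this
          simp only [if_pos]
          rw [mul_one]
          linarith
        · rw [if_neg hn, mul_zero, if_neg (by omega)]
  | succ m ih =>
    refine ⟨ih.2, fun n => ?_⟩
    have h1 : a c (m + 1) ≠ 0 := by
      have := (hc (m + 1) (by omega)).2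
      unfold a; rw [if_neg (by omega)]; intro h; linarith
    cases n with
    | zero =>
      have : P c 0 = 1 := rfl
      rw [this, mul_one, L_P hc, if_neg (by omega), if_neg (by omega)]
    | succ j =>
      have e1 : a c (m + 1) * L c (P c (m + 2) * P c (j + 1)) =
          a c (j + 1) * L c (P c (m + 1) * P c (j + 2)) + c (j + 1) * L c (P c (m + 1) * P c j) -
            c (m + 1) * L c (P c m * P c (j + 1)) := by
        have e2 : a c (m + 1) • (P c (m + 2) * P c (j + 1)) + c (m + 1) • (P c m * P c (j + 1)) =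
            a c (j + 1) • (P c (m + 1) * P c (j + 2)) + c (j + 1) • (P c (m + 1) * P c j) := by
          rw [← smul_mul_assoc, ← smul_mul_assoc, ← add_mul, ← X_mul_P c hc m,
            ← mul_smul_comm, ← mul_smul_comm, ← mul_add, ← X_mul_P c hc j]
          ring
        have e3 := congrArg (L c) e2
        rw [L_add, L_add, L_smul, L_smul, L_smul, L_smul] at e3
        linarith
      rw [ih.2, ih.2, ih.1] at e1
      have e4 : L c (P c (m + 2) * P c (j + 1)) =
          (a c (m + 1))⁻¹ * (a c (m + 1) * L c (P c (m + 2) * P c (j + 1))) := by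
        rw [← mul_assoc, inv_mul_cancel₀ h1, one_mul]
      rw [show m + 1 + 1 = m + 2 by ring, e4, e1]
      by_cases c1 : m = j + 1
      · subst c1
        rw [if_pos rfl, if_neg (by omega), if_pos rfl, if_neg (by omega)]
        have := hrec (j + 1)
        rw [show j + 1 + 1 = j + 2 by ring] at this ⊢
        rw [mul_zero, add_zero, mul_comm (a c (j + 1)), ← this, mul_comm (c (j + 2)), sub_self,
          mul_zero]
      · by_cases c2 : j = m + 1
        · subst c2
          rw [if_neg (by omega), if_pos rfl, if_neg (by omega), if_pos rfl]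
          have := hrec (m + 1)
          rw [show m + 1 + 1 = m + 2 by ring] at this ⊢
          rw [mul_zero, zero_add, mul_zero, sub_zero, mul_comm (c (m + 2)), this]
          field_simp
        · rw [if_neg (by omega), if_neg (by omega), if_neg (by omega), if_neg (by omega)]
          ring

lemma P_one (hc : ∀ n, 1 ≤ n → 0 < c n ∧ c n < 1) (k : ℕ) :
    (P c k).eval 1 = 1 ∧ (P c (k + 1)).eval 1 = 1 := by
  induction k with
  | zero => simp [P]
  | succ k ih =>
    refine ⟨ih.2, ?_⟩
    have h1 := congrArg (fun p => eval 1 p) (X_mul_P c hc k)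
    simp only [eval_mul, eval_X, eval_add, eval_smul, smul_eq_mul, one_mul] at h1
    rw [ih.1, ih.2] at h1
    have h2 : a c (k + 1) = 1 - c (k + 1) := by unfold a; rw [if_neg (by omega)]
    have h3 := (hc (k + 1) (by omega)).2
    rw [h2] at h1
    have h4 : (1 - c (k + 1)) * ((P c (k + 2)).eval 1 - 1) = 0 := by linarith
    rcases mul_eq_zero.mp h4 with h | h
    · linarith
    · rw [show k + 1 + 1 = k + 2 by ring]; linarith

lemma P_zero_odd (k : ℕ) : (P c (2 * k + 1)).eval 0 = 0 := by
  induction k with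
  | zero => simp [P]
  | succ k ih =>
    rw [show 2 * (k + 1) + 1 = (2 * k + 1) + 2 by ring, P_succ]
    simp [ih]

/-- **odd Haar weights are at least two** -/
theorem two_le_h (hH : IsHypergroup c) (h0 : ZeroInDual c) (k : ℕ) : 2 ≤ h c (2 * k + 1) := by
  obtain ⟨g, hg, hP⟩ := hH.lin (2 * k + 1) (2 * k + 1)
  have hc := hH.mem
  set N := 2 * k + 1 + (2 * k + 1) with hN
  have e0 : (h c (2 * k + 1))⁻¹ = g 0 := by
    have h1 := (L_mul hc (2 * k + 1)).1 (2 * k + 1)
    rw [if_pos rfl, hP] at h1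
    rw [← h1]
    have h2 : ∀ s : Finset ℕ, L c (∑ j ∈ s, C (g j) * P c j) = ∑ j ∈ s, g j * L c (P c j) := by
      intro s
      induction s using Finset.induction_on with
      | empty => simp [L]
      | insert j s hj ih => rw [sum_insert hj, sum_insert hj, L_add, ih, C_mul', L_smul]
    rw [h2, sum_eq_single 0]
    · rw [L_P hc, if_pos rfl, mul_one]
    · intro j _ hj; rw [L_P hc, if_neg hj, mul_zero]
    · intro h; exact absurd (mem_range.mpr (by omega)) h
  have e1 : ∑ j ∈ range (N + 1), g j = 1 := by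
    have h1 := congrArg (fun p => eval 1 p) hP
    simp only [eval_mul, eval_finsetSum, eval_C] at h1
    rw [(P_one hc _).1, one_mul] at h1
    rw [h1]
    exact sum_congr rfl fun j _ => by rw [(P_one hc j).1, mul_one]
  have e2 : 0 = ∑ j ∈ range (N + 1), g j * (P c j).eval 0 := by
    have h1 := congrArg (fun p => eval 0 p) hP
    simp only [eval_mul, eval_finsetSum, eval_C] at h1
    rw [P_zero_odd, zero_mul] at h1
    exact h1
  rw [sum_range_succ'] at e1 e2
  have e3 : -∑ j ∈ range N, g (j + 1) ≤ ∑ j ∈ range N, g (j + 1) * (P c (j + 1)).eval 0 := by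
    rw [← sum_neg_distrib]
    refine sum_le_sum fun j _ => ?_
    have h1 := (abs_le.mp (h0 (j + 1))).1
    nlinarith [hg (j + 1)]
  have e4 : (P c 0).eval 0 = 1 := by simp [P]
  rw [e4, mul_one] at e2
  have e5 : g 0 ≤ 1 / 2 := by linarith
  have e6 := h_pos hc (2 * k + 1)
  rw [← e0] at e5
  have e7 : (h c (2 * k + 1))⁻¹ * h c (2 * k + 1) = 1 := inv_mul_cancel₀ e6.ne'
  nlinarith

end odd

end Pool.Agent.V11265.PH
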