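import Pool.Agent.TH158.FM.Rng
import Pool.Agent.TH809.MZ.Fin

/-!
# Moments of zeta of high order in longer ranges of `T` (MP_3d0d30_nt)
-/

set_option autoImplicit false

namespace Pool.Agent.V11265.WR

open Complex MeasureTheory Set Pool.Agent.TH158.FM

noncomputable section

lemma moment_le' {T k : ℝ} (hT : 1000 ≤ T) (hk : 2 ≤ k)
    (hpt : ∀ t ∈ Icc (0:ℝ) T, ‖riemannZeta (pt (1 / 2) t)‖ ≤ Real.log T ^ ((k + 2) / 2)) :
    MM k T ≤ 4 / 5 * (T * Real.log T ^ (k ^ 2)) := by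
  have h4 := fourth_all T hT
  have hT0 : 0 < T := by linarith
  have hl : (69:ℝ) / 10 ≤ Real.log T := log_ge hT
  have hl0 : 0 < Real.log T := by linarith
  set L := Real.log T ^ ((k + 2) / 2) with hL
  have hL0 : 0 < L := Real.rpow_pos_of_pos hl0 _
  have h1 : MM k T ≤ ∫ t in (0:ℝ)..T, L ^ (2 * k - 4) * ‖riemannZeta (pt (1 / 2) t)‖ ^ 4 := by
    unfold MM
    apply intervalIntegral.integral_mono_on hT0.le
    · exact (zeta_cont.norm.rpow_const (fun t => Or.inr (by linarith))).intervalIntegrable _ _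
    · exact (continuous_const.mul (zeta_cont.norm.pow 4)).intervalIntegrable _ _
    · intro t ht
      set z := ‖riemannZeta (pt (1 / 2) t)‖ with hz
      have hz0 : 0 ≤ z := norm_nonneg _
      have e : z ^ (2 * k) = z ^ (2 * k - 4) * z ^ 4 := by
        have : z ^ 4 = z ^ (4 : ℝ) := by norm_cast
        rw [this, ← Real.rpow_add_of_nonneg hz0 (by linarith) (by norm_num)]
        congr 1
        ring
      rw [e]
      gcongr
      · linarith
      · exact hpt t ht
  refine h1.trans ?_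
  rw [intervalIntegral.integral_const_mul]
  have h2 : L ^ (2 * k - 4) * Real.log T ^ 4 = Real.log T ^ (k ^ 2) := by
    have : Real.log T ^ 4 = Real.log T ^ (4 : ℝ) := by norm_cast
    rw [hL, ← Real.rpow_mul hl0.le, this, ← Real.rpow_add hl0]
    congr 1
    ring
  calc L ^ (2 * k - 4) * ∫ t in (0:ℝ)..T, ‖riemannZeta (pt (1 / 2) t)‖ ^ 4
      ≤ L ^ (2 * k - 4) * (4 / 5 * (T * Real.log T ^ 4)) := by gcongr
    _ = 4 / 5 * (T * (L ^ (2 * k - 4) * Real.log T ^ 4)) := by ring
    _ = _ := by rw [h2]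

/-- the criterion with Weyl's exponent -/
theorem criterion (δ : ℝ) (hδ : 0 < δ) : ∃ C : ℝ, 1 ≤ C ∧ ∀ k T : ℝ, 2 ≤ k → 1000 ≤ T →
    C * T ^ (1 / 6 + δ) ≤ Real.log T ^ ((k + 2) / 2) →
    MM k T ≤ 4 / 5 * (T * Real.log T ^ (k ^ 2)) := by
  obtain ⟨C, hC⟩ := Pool.Agent.TH809.MZ.growth_weyl δ hδ
  refine ⟨max 1 (max C 0 * 2 ^ (1 / 6 + δ)), le_max_left _ _, fun k T hk hT h => ?_⟩
  refine moment_le' hT hk fun t ht => ?_
  have h1 := hC t
  have e : riemannZeta ⟨1 / 2, t⟩ = riemannZeta (pt (1 / 2) t) := by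
    congr 1
    rw [pt_half]
    apply Complex.ext <;> simp
  rw [e] at h1
  refine h1.trans (le_trans ?_ h)
  have hM0 : 0 ≤ max C 0 := le_max_right _ _
  have hT0 : 0 < T := by linarith
  calc C * (1 + |t|) ^ (1 / 6 + δ) ≤ max C 0 * (2 * T) ^ (1 / 6 + δ) := by
        apply mul_le_mul (le_max_left _ _) _ (by positivity) hM0
        apply Real.rpow_le_rpow (by positivity) _ (by positivity)
        rw [abs_of_nonneg ht.1]
        linarith [ht.2]
    _ = max C 0 * 2 ^ (1 / 6 + δ) * T ^ (1 / 6 + δ) := by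
        rw [Real.mul_rpow (by norm_num) hT0.le]; ring
    _ ≤ max 1 (max C 0 * 2 ^ (1 / 6 + δ)) * T ^ (1 / 6 + δ) := by
        gcongr
        exact le_max_right _ _

/-- the range `T ≤ k ^ ((3 - ε) k)` -/
theorem range_k (ε : ℝ) (hε : 0 < ε) : ∃ k₀ : ℝ, 2 ≤ k₀ ∧ ∀ k T : ℝ, k₀ ≤ k →
    1000 ≤ T → T ≤ k ^ ((3 - ε) * k) → MM k T ≤ 4 / 5 * (T * Real.log T ^ (k ^ 2)) := by
  obtain ⟨C, hC1, hC⟩ := criterion (ε / 36) (by positivity)
  refine ⟨max 3 C, by linarith [le_max_left 3 C], fun k T hk hT hT2 => ?_⟩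
  have hk3 : 3 ≤ k := (le_max_left _ _).trans hk
  have hkC : C ≤ k := (le_max_right _ _).trans hk
  have hk0 : 0 < k := by linarith
  rcases le_total T ((2 * k * Real.log k) ^ (2 * k)) with h | h
  · exact all_region k T (by linarith) hT h
  · apply hC k T (by linarith) hT
    have hlk : 1 ≤ Real.log k := by
      have := Real.log_le_log (by norm_num) hk3
      have h3 : (1:ℝ) ≤ Real.log 3 := by
        rw [Real.le_log_iff_exp_le (by norm_num)]
        linarith [Real.exp_one_lt_d9]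
      linarith
    have hb : k ≤ 2 * k * Real.log k := by nlinarith
    have hlT : k ≤ Real.log T := by
      have h1 : k ^ (2 * k) ≤ T := (Real.rpow_le_rpow hk0.le hb (by positivity)).trans h
      have h2 := Real.log_le_log (by positivity) h1
      rw [Real.log_rpow hk0] at h2
      nlinarith
    have h1 : T ^ (1 / 6 + ε / 36) ≤ k ^ (k / 2) := by
      calc T ^ (1 / 6 + ε / 36) ≤ (k ^ ((3 - ε) * k)) ^ (1 / 6 + ε / 36) :=
            Real.rpow_le_rpow (by linarith) hT2 (by positivity)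
        _ = k ^ ((3 - ε) * k * (1 / 6 + ε / 36)) := by rw [← Real.rpow_mul hk0.le]
        _ ≤ k ^ (k / 2) := by
            apply Real.rpow_le_rpow_of_exponent_le (by linarith)
            have : (3 - ε) * (1 / 6 + ε / 36) ≤ 1 / 2 := by nlinarith
            nlinarith
    calc C * T ^ (1 / 6 + ε / 36) ≤ k * k ^ (k / 2) := by
          apply mul_le_mul hkC h1 (by positivity) hk0.le
      _ = k ^ ((k + 2) / 2) := by
          rw [show (k + 2) / 2 = 1 + k / 2 by ring, Real.rpow_add hk0, Real.rpow_one]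
      _ ≤ Real.log T ^ ((k + 2) / 2) := Real.rpow_le_rpow hk0.le hlT (by positivity)

end

end Pool.Agent.V11265.WR
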